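import Pool.Agent.Q11.TF.Stm

/-!
# General bounds for strong sets from label functions
-/

namespace Pool.Agent.Q11.TF

open Finset Classical

theorem strong_not_conf {S : Finset Q} (hS : Strong S) {p q : Q} (hp : p ∈ S) (hq : q ∈ S)
    (hne : p ≠ q) : ¬ Conf p q := by
  rintro (⟨h1, h2⟩ | ⟨h1, h2⟩)
  · have := hS p hp q hq hne h1
    rcases h2 with h2 | h2 <;> omega
  · have := hS q hq p hp (Ne.symm hne) h1
    rcases h2 with h2 | h2 <;> omega

theorem mem_Lset {n m R : ℕ} {p : Q} : p ∈ Lset n m R ↔ Val n m p ∧ rk p = R := by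
  unfold Lset
  simp only [Finset.mem_filter, Finset.mem_product, Finset.mem_range]
  constructor
  · rintro ⟨_, h⟩; exact h
  · intro h
    refine ⟨?_, h⟩
    obtain ⟨⟨h1, h2, h3, h4, _⟩, _⟩ := h
    refine ⟨?_, ?_, ?_, ?_⟩ <;> omega

/-- a label function whose good classes are cliques that meet the rank `R` -/
theorem bound {n m R : ℕ} {lab : Q → Q} {good : Q → Prop} {S : Finset Q}
    (hval : ∀ p ∈ S, Val n m p) (hS : Strong S)
    (hcl : ∀ p q, Val n m p → Val n m q → lab p = lab q → good (lab p) → p ≠ q → Conf p q)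
    (hcov : ∀ p, Val n m p → good (lab p) → ∃ q, Val n m q ∧ rk q = R ∧ lab q = lab p) :
    (S.filter (fun p => good (lab p))).card ≤
      ((Lset n m R).filter (fun p => good (lab p))).card := by
  have hc : ∀ p : Q, ∃ q : Q, (Val n m p ∧ good (lab p)) →
      (Val n m q ∧ rk q = R ∧ lab q = lab p) := by
    intro p
    by_cases h : Val n m p ∧ good (lab p)
    · obtain ⟨q, hq⟩ := hcov p h.1 h.2
      exact ⟨q, fun _ => hq⟩
    · exact ⟨p, fun h' => absurd h' h⟩
  choose f hf using hc
  refine Finset.card_le_card_of_injOn f ?_ ?_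
  · intro p hp
    simp only [Finset.coe_filter, Set.mem_ofPred_eq] at hp
    have := hf p ⟨hval p hp.1, hp.2⟩
    simp only [Finset.coe_filter, Set.mem_ofPred_eq, mem_Lset]
    exact ⟨⟨this.1, this.2.1⟩, by rw [this.2.2]; exact hp.2⟩
  · intro p hp q hq hpq
    simp only [Finset.coe_filter, Set.mem_ofPred_eq] at hp hq
    have h1 := hf p ⟨hval p hp.1, hp.2⟩
    have h2 := hf q ⟨hval q hq.1, hq.2⟩
    by_contra hne
    have : lab p = lab q := by rw [← h1.2.2, ← h2.2.2, hpq]
    exact strong_not_conf hS hp.1 hq.1 hne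
      (hcl p q (hval p hp.1) (hval q hq.1) this hp.2 hne)

/-- the same with three labels that together meet the strong set at most once -/
theorem bound_merge {n m R : ℕ} {lab : Q → Q} {good : Q → Prop} {S : Finset Q}
    (hval : ∀ p ∈ S, Val n m p) (hS : Strong S)
    (hcl : ∀ p q, Val n m p → Val n m q → lab p = lab q → good (lab p) → p ≠ q → Conf p q)
    (hcov : ∀ p, Val n m p → good (lab p) → ∃ q, Val n m q ∧ rk q = R ∧ lab q = lab p)
    (L1 L2 L3 r1 r2 r3 : Q) (h12 : L1 ≠ L2) (h13 : L1 ≠ L3) (h23 : L2 ≠ L3)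
    (g1 : good L1) (g2 : good L2) (g3 : good L3)
    (v1 : Val n m r1 ∧ rk r1 = R ∧ lab r1 = L1)
    (v2 : Val n m r2 ∧ rk r2 = R ∧ lab r2 = L2)
    (v3 : Val n m r3 ∧ rk r3 = R ∧ lab r3 = L3)
    (hm : ∀ p ∈ S, ∀ q ∈ S, (lab p = L1 ∨ lab p = L2 ∨ lab p = L3) →
      (lab q = L1 ∨ lab q = L2 ∨ lab q = L3) → p = q) :
    (S.filter (fun p => good (lab p))).card + 2 ≤
      ((Lset n m R).filter (fun p => good (lab p))).card := by
  set tri : Q → Prop := fun L => L = L1 ∨ L = L2 ∨ L = L3 with htri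
  have hb : (S.filter (fun p => good (lab p) ∧ ¬ tri (lab p))).card ≤
      ((Lset n m R).filter (fun p => good (lab p) ∧ ¬ tri (lab p))).card := by
    have := bound (good := fun L => good L ∧ ¬ tri L) hval hS
      (fun p q hp hq h1 h2 h3 => hcl p q hp hq h1 h2.1 h3)
      (fun p hp h => hcov p hp h.1) (R := R) (lab := lab)
    convert this
  have hsplitS : S.filter (fun p => good (lab p)) ⊆
      S.filter (fun p => good (lab p) ∧ ¬ tri (lab p)) ∪ S.filter (fun p => tri (lab p)) := by
    intro p hp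
    simp only [Finset.mem_filter, Finset.mem_union] at hp ⊢
    by_cases h : tri (lab p)
    · right; exact ⟨hp.1, h⟩
    · left; exact ⟨hp.1, hp.2, h⟩
  have hone : (S.filter (fun p => tri (lab p))).card ≤ 1 := by
    rw [Finset.card_le_one]
    intro p hp q hq
    simp only [Finset.mem_filter] at hp hq
    exact hm p hp.1 q hq.1 hp.2 hq.2
  have h3 : ((Lset n m R).filter (fun p => good (lab p) ∧ ¬ tri (lab p))).card + 3 ≤
      ((Lset n m R).filter (fun p => good (lab p))).card := by
    have hr12 : r1 ≠ r2 := by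
      rintro rfl; exact h12 (v1.2.2.symm.trans v2.2.2)
    have hr13 : r1 ≠ r3 := by
      rintro rfl; exact h13 (v1.2.2.symm.trans v3.2.2)
    have hr23 : r2 ≠ r3 := by
      rintro rfl; exact h23 (v2.2.2.symm.trans v3.2.2)
    have hcard : ({r1, r2, r3} : Finset Q).card = 3 := by
      rw [Finset.card_insert_of_notMem, Finset.card_insert_of_notMem, Finset.card_singleton]
      · simpa using hr23
      · simp only [Finset.mem_insert, Finset.mem_singleton, not_or]
        exact ⟨hr12, hr13⟩
    rw [← hcard, ← Finset.card_union_of_disjoint]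
    · apply Finset.card_le_card
      intro p hp
      simp only [Finset.mem_union, Finset.mem_filter, mem_Lset, Finset.mem_insert,
        Finset.mem_singleton] at hp ⊢
      rcases hp with hp | rfl | rfl | rfl
      · exact ⟨hp.1, hp.2.1⟩
      · exact ⟨⟨v1.1, v1.2.1⟩, by rw [v1.2.2]; exact g1⟩
      · exact ⟨⟨v2.1, v2.2.1⟩, by rw [v2.2.2]; exact g2⟩
      · exact ⟨⟨v3.1, v3.2.1⟩, by rw [v3.2.2]; exact g3⟩
    · rw [Finset.disjoint_left]
      intro p hp hp'
      simp only [Finset.mem_filter] at hp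
      simp only [Finset.mem_insert, Finset.mem_singleton] at hp'
      apply hp.2.2
      rcases hp' with rfl | rfl | rfl
      · left; exact v1.2.2
      · right; left; exact v2.2.2
      · right; right; exact v3.2.2
  have hle := Finset.card_le_card hsplitS
  have hun := Finset.card_union_le (S.filter (fun p => good (lab p) ∧ ¬ tri (lab p)))
    (S.filter (fun p => tri (lab p)))
  omega

/-- the central line I = [k,k]: at most (m + number of its units) / 2 elements -/
theorem central7 (hch : S_charge) {n m k : ℕ} {S : Finset Q} (hval : ∀ p ∈ S, Val n m p)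
    (hS : Strong S) (S7 : Finset Q) (hsub : S7 ⊆ S) (hk : ∀ p ∈ S7, p.1 = k ∧ p.2.1 = k) :
    2 * S7.card ≤ m + (S7.filter (fun p => p.2.2.2 = p.2.2.1 + 1)).card := by
  set g : Q → ℕ × ℕ := fun p => p.2.2 with hg
  have hinj : Set.InjOn g S7 := by
    intro p hp q hq h
    have h1 := hk p hp
    have h2 := hk q hq
    obtain ⟨a, b, x, y⟩ := p
    obtain ⟨a', b', x', y'⟩ := q
    simp only [hg, Prod.mk.injEq] at h h1 h2 ⊢
    omega
  have hc := hch m (S7.image g) ?_ ?_
  · have hf1 : ((S7.image g).filter (fun t => t.2 = t.1 + 1)).card =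
        (S7.filter (fun p => p.2.2.2 = p.2.2.1 + 1)).card := by
      rw [Finset.filter_image, Finset.card_image_of_injOn]
      intro p hp q hq h
      exact hinj (Finset.mem_coe.2 (Finset.mem_of_mem_filter p (Finset.mem_coe.1 hp)))
        (Finset.mem_coe.2 (Finset.mem_of_mem_filter q (Finset.mem_coe.1 hq))) h
    have hf2 : ((S7.image g).filter (fun t => t.2 ≠ t.1 + 1)).card =
        (S7.filter (fun p => p.2.2.2 ≠ p.2.2.1 + 1)).card := by
      rw [Finset.filter_image, Finset.card_image_of_injOn]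
      intro p hp q hq h
      exact hinj (Finset.mem_coe.2 (Finset.mem_of_mem_filter p (Finset.mem_coe.1 hp)))
        (Finset.mem_coe.2 (Finset.mem_of_mem_filter q (Finset.mem_coe.1 hq))) h
    rw [hf1, hf2] at hc
    have hsum := Finset.card_filter_add_card_filter_not (s := S7)
      (fun p : Q => p.2.2.2 = p.2.2.1 + 1)
    have hsum' : (S7.filter (fun p : Q => p.2.2.2 = p.2.2.1 + 1)).card +
      (S7.filter (fun p : Q => p.2.2.2 ≠ p.2.2.1 + 1)).card = S7.card := hsum
    omega
  · intro t ht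
    obtain ⟨p, hp, rfl⟩ := Finset.mem_image.1 ht
    have h1 := hk p hp
    have h2 := hval p (hsub hp)
    obtain ⟨_, _, h3, h4, h5⟩ := h2
    simp only [hg]
    omega
  · intro t ht u hu htu h1 h2
    obtain ⟨p, hp, rfl⟩ := Finset.mem_image.1 ht
    obtain ⟨q, hq, rfl⟩ := Finset.mem_image.1 hu
    have e1 := hk p hp
    have e2 := hk q hq
    have hne : p ≠ q := by rintro rfl; exact htu rfl
    have := hS p (hsub hp) q (hsub hq) hne ⟨by omega, by omega, h1, h2⟩
    exact this.2

/-- exchange of the two primes -/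
def sw (p : Q) : Q := (p.2.2.1, p.2.2.2, p.1, p.2.1)

theorem sw_sw (p : Q) : sw (sw p) = p := rfl

theorem sw_inj : Function.Injective sw := by
  intro p q h
  have := congrArg sw h
  rwa [sw_sw, sw_sw] at this

theorem val_sw {n m : ℕ} {p : Q} (h : Val n m p) : Val m n (sw p) := by
  obtain ⟨h1, h2, h3, h4, h5⟩ := h
  exact ⟨h3, h4, h1, h2, h5.symm⟩

theorem strong_sw {S : Finset Q} (hS : Strong S) : Strong (S.image sw) := by
  intro p hp q hq hne hle
  obtain ⟨p', hp', rfl⟩ := Finset.mem_image.1 hp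
  obtain ⟨q', hq', rfl⟩ := Finset.mem_image.1 hq
  have hne' : p' ≠ q' := by rintro rfl; exact hne rfl
  obtain ⟨h1, h2, h3, h4⟩ := hle
  have := hS p' hp' q' hq' hne' ⟨h3, h4, h1, h2⟩
  exact ⟨this.2, this.1⟩

theorem valid_sw {n m : ℕ} {S : Finset Q} (h : ∀ p ∈ S, Val n m p) :
    ∀ p ∈ S.image sw, Val m n p := by
  intro p hp
  obtain ⟨p', hp', rfl⟩ := Finset.mem_image.1 hp
  exact val_sw (h p' hp')

theorem card_sw (S : Finset Q) : (S.image sw).card = S.card :=
  Finset.card_image_of_injective S sw_inj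

theorem rk_sw (p : Q) : rk (sw p) = rk p := by
  simp only [rk, sw]; omega

theorem Lset_sw (n m R : ℕ) : (Lset n m R).card = (Lset m n R).card := by
  have h : (Lset n m R).image sw = Lset m n R := by
    ext p
    simp only [Finset.mem_image, mem_Lset]
    constructor
    · rintro ⟨q, ⟨h1, h2⟩, rfl⟩
      exact ⟨val_sw h1, by rw [rk_sw, h2]⟩
    · rintro ⟨h1, h2⟩
      exact ⟨sw p, ⟨val_sw h1, by rw [rk_sw, h2]⟩, sw_sw p⟩
  rw [← h, card_sw]

/-- level sets are strong -/
theorem Lset_strong (n m R : ℕ) : Strong (Lset n m R) := by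
  intro p hp q hq hne hle
  rw [mem_Lset] at hp hq
  exfalso
  apply hne
  obtain ⟨a, b, x, y⟩ := p
  obtain ⟨a', b', x', y'⟩ := q
  simp only [Le, rk, Prod.mk.injEq] at *
  omega

end Pool.Agent.Q11.TF
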