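import Pool.Agent.Q11.TF.Asm1

/-!
# Upper bounds for each parity from the statements of the project
-/

namespace Pool.Agent.Q11.TF

open Finset Classical

theorem central8 (hch : S_charge) {n m l : ℕ} {S : Finset Q} (hval : ∀ p ∈ S, Val n m p)
    (hS : Strong S) (S8 : Finset Q) (hsub : S8 ⊆ S) (hl : ∀ p ∈ S8, p.2.2.1 = l ∧ p.2.2.2 = l) :
    2 * S8.card ≤ n + (S8.filter (fun p => p.2.1 = p.1 + 1)).card := by
  have h := central7 hch (k := l) (valid_sw hval) (strong_sw hS) (S8.image sw)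
    (Finset.image_subset_image hsub) ?_
  · rw [card_sw, Finset.filter_image, card_sw] at h
    exact h
  · intro p hp
    obtain ⟨q, hq, rfl⟩ := Finset.mem_image.1 hp
    exact hl q hq

/-- n even, m odd -/
theorem upA (h1 : S_cliqueA) (h2 : S_coverA) (h3 : S_centralA) (hch : S_charge) (k w : ℕ)
    (hk : 1 ≤ k) (hw : 1 ≤ w) (S : Finset Q) (hval : ∀ p ∈ S, Val (2 * k) (2 * w + 1) p)
    (hS : Strong S) : S.card ≤ (Lset (2 * k) (2 * w + 1) (2 * k + 2 * w + 1)).card := by
  have hb := bound (good := fun L => L.1 ≠ 7) (lab := lA k w) hval hS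
    (fun p q hp hq e g ne => h1 k w hk hw p q hp hq e g ne)
    (fun p hp g => h2 k w hk hw p hp g)
  set S7 := S.filter (fun p => ¬ (lA k w p).1 ≠ 7) with hS7
  have hS7m : ∀ p ∈ S7, p.1 = k ∧ p.2.1 = k ∧ (p.2.2.2 ≠ p.2.2.1 + 1 ∨ p.2.2.2 = w + 1) := by
    intro p hp
    rw [hS7, Finset.mem_filter] at hp
    exact (h3 k w hk hw p (hval p hp.1)).1 (by simpa using hp.2)
  have hc := central7 hch hval hS S7 (Finset.filter_subset _ _)
    (fun p hp => ⟨(hS7m p hp).1, (hS7m p hp).2.1⟩)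
  have hu : (S7.filter (fun p => p.2.2.2 = p.2.2.1 + 1)).card ≤ 1 := by
    rw [Finset.card_le_one]
    intro p hp q hq
    rw [Finset.mem_filter] at hp hq
    have e1 := hS7m p hp.1
    have e2 := hS7m q hq.1
    obtain ⟨a, b, x, y⟩ := p
    obtain ⟨a', b', x', y'⟩ := q
    simp only [Prod.mk.injEq] at *
    omega
  have hL : w + 1 ≤ ((Lset (2 * k) (2 * w + 1) (2 * k + 2 * w + 1)).filter
      (fun p => ¬ (lA k w p).1 ≠ 7)).card := by
    have hinj : Set.InjOn (fun x : ℕ => ((k, k, x, 2 * w + 1 - x) : Q)) (Finset.range (w + 1)) := by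
      intro x hx y hy h
      simp only [Prod.mk.injEq] at h
      exact h.2.2.1
    have hcard : ((Finset.range (w + 1)).image
        (fun x : ℕ => ((k, k, x, 2 * w + 1 - x) : Q))).card = w + 1 := by
      rw [Finset.card_image_of_injOn hinj, Finset.card_range]
    rw [← hcard]
    apply Finset.card_le_card
    intro p hp
    obtain ⟨x, hx, rfl⟩ := Finset.mem_image.1 hp
    rw [Finset.mem_range] at hx
    rw [Finset.mem_filter, mem_Lset]
    have hv : Val (2 * k) (2 * w + 1) (k, k, x, 2 * w + 1 - x) := by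
      simp only [Val]; omega
    refine ⟨⟨hv, by simp only [rk]; omega⟩, ?_⟩
    rw [not_not, h3 k w hk hw _ hv]
    refine ⟨rfl, rfl, ?_⟩
    simp only
    omega
  have e1 := Finset.card_filter_add_card_filter_not (s := S) (fun p => (lA k w p).1 ≠ 7)
  have e2 := Finset.card_filter_add_card_filter_not
    (s := Lset (2 * k) (2 * w + 1) (2 * k + 2 * w + 1)) (fun p => (lA k w p).1 ≠ 7)
  have hb' : (S.filter (fun p => (lA k w p).1 ≠ 7)).card ≤
    ((Lset (2 * k) (2 * w + 1) (2 * k + 2 * w + 1)).filter (fun p => (lA k w p).1 ≠ 7)).card := by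
    convert hb
  have hS7c : S7.card = (S.filter (fun p => ¬ (lA k w p).1 ≠ 7)).card := by rw [hS7]
  omega

/-- n and m odd -/
theorem upB (h1 : S_cliqueB) (h2 : S_coverB) (n m e1 e2 : ℕ) (hn : n % 2 = 1) (hm : m % 2 = 1)
    (hn3 : 3 ≤ n) (hm3 : 3 ≤ m) (he : n + 2 * e2 = m + 2 * e1) (h0 : e1 = 0 ∨ e2 = 0)
    (S : Finset Q) (hval : ∀ p ∈ S, Val n m p) (hS : Strong S) :
    S.card ≤ (Lset n m (n + m - 1)).card := by
  have hb := bound (good := fun _ => True) (lab := lB n m e1 e2) (R := n + m - 1) hval hS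
    (fun p q hp hq e _ ne => h1 n m e1 e2 hn hm hn3 hm3 he h0 p q hp hq e ne)
    (fun p hp _ => by
      obtain ⟨q, a, b, c⟩ := h2 n m e1 e2 hn hm hn3 hm3 he h0 p hp
      exact ⟨q, a, by omega, c⟩)
  simpa using hb

/-- counting for even n and m -/
theorem even_core (hch : S_charge) {k l : ℕ} (hk : 1 ≤ k) (hl : 1 ≤ l) {lab : Q → Q}
    (hcen : ∀ p : Q, Val (2 * k) (2 * l) p →
      ((lab p).1 = 7 ↔
        (p.1 = k ∧ p.2.1 = k ∧ (p.2.2.2 ≠ p.2.2.1 + 1 ∨ p.2.2.2 = l ∨ p.2.2.2 = l + 1))) ∧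
      ((lab p).1 = 8 ↔
        (p.2.2.1 = l ∧ p.2.2.2 = l ∧ (p.2.1 ≠ p.1 + 1 ∨ p.2.1 = k ∨ p.2.1 = k + 1))))
    {S : Finset Q} (hval : ∀ p ∈ S, Val (2 * k) (2 * l) p) (hS : Strong S) (c u v : ℕ)
    (hb : (S.filter (fun p => (lab p).1 ≠ 7 ∧ (lab p).1 ≠ 8)).card + c ≤
      ((Lset (2 * k) (2 * l) (2 * k + 2 * l - 1)).filter
        (fun p => (lab p).1 ≠ 7 ∧ (lab p).1 ≠ 8)).card)
    (hu : ¬ ((k, k, l - 1, l) ∈ S ∧ (k, k, l, l + 1) ∈ S) ∨ 1 ≤ u)
    (hv : ¬ ((k - 1, k, l, l) ∈ S ∧ (k, k + 1, l, l) ∈ S) ∨ 1 ≤ v) :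
    S.card + c ≤ (Lset (2 * k) (2 * l) (2 * k + 2 * l - 1)).card + u + v := by
  -- the three parts
  have hsplit : ∀ T : Finset Q, T.card =
      (T.filter (fun p => (lab p).1 ≠ 7 ∧ (lab p).1 ≠ 8)).card +
      (T.filter (fun p => (lab p).1 = 7)).card + (T.filter (fun p => (lab p).1 = 8)).card := by
    intro T
    have e1 := Finset.card_filter_add_card_filter_not (s := T) (fun p => (lab p).1 = 7)
    have e2 := Finset.card_filter_add_card_filter_not
      (s := T.filter (fun p => ¬ (lab p).1 = 7)) (fun p => (lab p).1 = 8)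
    rw [Finset.filter_filter, Finset.filter_filter] at e2
    have e3 : T.filter (fun p => ¬ (lab p).1 = 7 ∧ (lab p).1 = 8) =
        T.filter (fun p => (lab p).1 = 8) := by
      apply Finset.filter_congr
      intro p _
      constructor
      · exact fun h => h.2
      · intro h; exact ⟨by omega, h⟩
    rw [e3] at e2
    have e4 : (T.filter (fun p => ¬ (lab p).1 = 7 ∧ ¬ (lab p).1 = 8)).card =
      (T.filter (fun p => (lab p).1 ≠ 7 ∧ (lab p).1 ≠ 8)).card := rfl
    omega
  have s1 := hsplit S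
  have s2 := hsplit (Lset (2 * k) (2 * l) (2 * k + 2 * l - 1))
  -- part 7
  set S7 := S.filter (fun p => (lab p).1 = 7) with hS7
  have hS7m : ∀ p ∈ S7, p ∈ S ∧ p.1 = k ∧ p.2.1 = k ∧
      (p.2.2.2 ≠ p.2.2.1 + 1 ∨ p.2.2.2 = l ∨ p.2.2.2 = l + 1) := by
    intro p hp
    rw [hS7, Finset.mem_filter] at hp
    exact ⟨hp.1, ((hcen p (hval p hp.1)).1).1 hp.2⟩
  have hc7 := central7 hch hval hS S7 (Finset.filter_subset _ _)
    (fun p hp => ⟨(hS7m p hp).2.1, (hS7m p hp).2.2.1⟩)
  have hu7 : (S7.filter (fun p => p.2.2.2 = p.2.2.1 + 1)).card ≤ 1 + u ∧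
      (S7.filter (fun p => p.2.2.2 = p.2.2.1 + 1)).card ≤ 2 := by
    have hsub : S7.filter (fun p => p.2.2.2 = p.2.2.1 + 1) ⊆
        {(k, k, l - 1, l), (k, k, l, l + 1)} := by
      intro p hp
      rw [Finset.mem_filter] at hp
      have e1 := hS7m p hp.1
      have e2 := hp.2
      obtain ⟨a, b, x, y⟩ := p
      simp only [Finset.mem_insert, Finset.mem_singleton, Prod.mk.injEq] at *
      omega
    have h2 : (S7.filter (fun p => p.2.2.2 = p.2.2.1 + 1)).card ≤ 2 :=
      (Finset.card_le_card hsub).trans (Finset.card_le_two)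
    refine ⟨?_, h2⟩
    rcases hu with hu | hu
    · by_contra hcon
      have hcard : (S7.filter (fun p => p.2.2.2 = p.2.2.1 + 1)).card = 2 := by omega
      have heq : S7.filter (fun p => p.2.2.2 = p.2.2.1 + 1) =
          {(k, k, l - 1, l), (k, k, l, l + 1)} := by
        apply Finset.eq_of_subset_of_card_le hsub
        rw [hcard]
        exact Finset.card_le_two
      apply hu
      constructor
      · have : ((k, k, l - 1, l) : Q) ∈ S7.filter (fun p => p.2.2.2 = p.2.2.1 + 1) := by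
          rw [heq]; simp
        exact (hS7m _ (Finset.mem_filter.1 this).1).1
      · have : ((k, k, l, l + 1) : Q) ∈ S7.filter (fun p => p.2.2.2 = p.2.2.1 + 1) := by
          rw [heq]; simp
        exact (hS7m _ (Finset.mem_filter.1 this).1).1
    · omega
  have hL7 : l ≤ ((Lset (2 * k) (2 * l) (2 * k + 2 * l - 1)).filter
      (fun p => (lab p).1 = 7)).card := by
    have hinj : Set.InjOn (fun x : ℕ => ((k, k, x, 2 * l - 1 - x) : Q)) (Finset.range l) := by
      intro x hx y hy h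
      simp only [Prod.mk.injEq] at h
      exact h.2.2.1
    have hcard : ((Finset.range l).image
        (fun x : ℕ => ((k, k, x, 2 * l - 1 - x) : Q))).card = l := by
      rw [Finset.card_image_of_injOn hinj, Finset.card_range]
    refine le_trans (le_of_eq hcard.symm) ?_
    apply Finset.card_le_card
    intro p hp
    obtain ⟨x, hx, rfl⟩ := Finset.mem_image.1 hp
    rw [Finset.mem_range] at hx
    rw [Finset.mem_filter, mem_Lset]
    have hv : Val (2 * k) (2 * l) (k, k, x, 2 * l - 1 - x) := by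
      simp only [Val]; omega
    refine ⟨⟨hv, by simp only [rk]; omega⟩, ?_⟩
    rw [(hcen _ hv).1]
    refine ⟨rfl, rfl, ?_⟩
    simp only
    omega
  -- part 8
  set S8 := S.filter (fun p => (lab p).1 = 8) with hS8
  have hS8m : ∀ p ∈ S8, p ∈ S ∧ p.2.2.1 = l ∧ p.2.2.2 = l ∧
      (p.2.1 ≠ p.1 + 1 ∨ p.2.1 = k ∨ p.2.1 = k + 1) := by
    intro p hp
    rw [hS8, Finset.mem_filter] at hp
    exact ⟨hp.1, ((hcen p (hval p hp.1)).2).1 hp.2⟩
  have hc8 := central8 hch hval hS S8 (Finset.filter_subset _ _)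
    (fun p hp => ⟨(hS8m p hp).2.1, (hS8m p hp).2.2.1⟩)
  have hu8 : (S8.filter (fun p => p.2.1 = p.1 + 1)).card ≤ 1 + v ∧
      (S8.filter (fun p => p.2.1 = p.1 + 1)).card ≤ 2 := by
    have hsub : S8.filter (fun p => p.2.1 = p.1 + 1) ⊆
        {(k - 1, k, l, l), (k, k + 1, l, l)} := by
      intro p hp
      rw [Finset.mem_filter] at hp
      have e1 := hS8m p hp.1
      have e2 := hp.2
      obtain ⟨a, b, x, y⟩ := p
      simp only [Finset.mem_insert, Finset.mem_singleton, Prod.mk.injEq] at *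
      omega
    have h2 : (S8.filter (fun p => p.2.1 = p.1 + 1)).card ≤ 2 :=
      (Finset.card_le_card hsub).trans (Finset.card_le_two)
    refine ⟨?_, h2⟩
    rcases hv with hv | hv
    · by_contra hcon
      have hcard : (S8.filter (fun p => p.2.1 = p.1 + 1)).card = 2 := by omega
      have heq : S8.filter (fun p => p.2.1 = p.1 + 1) =
          {(k - 1, k, l, l), (k, k + 1, l, l)} := by
        apply Finset.eq_of_subset_of_card_le hsub
        rw [hcard]
        exact Finset.card_le_two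
      apply hv
      constructor
      · have : ((k - 1, k, l, l) : Q) ∈ S8.filter (fun p => p.2.1 = p.1 + 1) := by
          rw [heq]; simp
        exact (hS8m _ (Finset.mem_filter.1 this).1).1
      · have : ((k, k + 1, l, l) : Q) ∈ S8.filter (fun p => p.2.1 = p.1 + 1) := by
          rw [heq]; simp
        exact (hS8m _ (Finset.mem_filter.1 this).1).1
    · omega
  have hL8 : k ≤ ((Lset (2 * k) (2 * l) (2 * k + 2 * l - 1)).filter
      (fun p => (lab p).1 = 8)).card := by
    have hinj : Set.InjOn (fun x : ℕ => ((x, 2 * k - 1 - x, l, l) : Q)) (Finset.range k) := by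
      intro x hx y hy h
      simp only [Prod.mk.injEq] at h
      exact h.1
    have hcard : ((Finset.range k).image
        (fun x : ℕ => ((x, 2 * k - 1 - x, l, l) : Q))).card = k := by
      rw [Finset.card_image_of_injOn hinj, Finset.card_range]
    refine le_trans (le_of_eq hcard.symm) ?_
    apply Finset.card_le_card
    intro p hp
    obtain ⟨x, hx, rfl⟩ := Finset.mem_image.1 hp
    rw [Finset.mem_range] at hx
    rw [Finset.mem_filter, mem_Lset]
    have hv : Val (2 * k) (2 * l) (x, 2 * k - 1 - x, l, l) := by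
      simp only [Val]; omega
    refine ⟨⟨hv, by simp only [rk]; omega⟩, ?_⟩
    rw [(hcen _ hv).2]
    refine ⟨rfl, rfl, ?_⟩
    simp only
    omega
  omega

end Pool.Agent.Q11.TF
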