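import Pool.Agent.Q11.TF.Asm2

/-!
# The upper and lower bound on the grid
-/

namespace Pool.Agent.Q11.TF

open Finset Classical

/-- min k l even, first half -/
theorem upC1 (h1 : S_cliqueC) (h2 : S_coverC) (h3 : S_centralC) (h4 : S_mergeC) (h5 : S_repC)
    (hch : S_charge) (k l e1 e2 : ℕ) (hk : 2 ≤ k) (hl : 2 ≤ l) (hp : (min k l) % 2 = 0)
    (he : k + e2 = l + e1) (h0 : e1 = 0 ∨ e2 = 0) (S : Finset Q)
    (hval : ∀ p ∈ S, Val (2 * k) (2 * l) p) (hS : Strong S)
    (hcase : ((k, k, l - 1, l) ∈ S ∧ (k, k, l, l + 1) ∈ S) ∨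
      ¬ ((k - 1, k, l, l) ∈ S ∧ (k, k + 1, l, l) ∈ S)) :
    S.card ≤ (Lset (2 * k) (2 * l) (2 * k + 2 * l - 1)).card := by
  have hcl : ∀ p q, Val (2 * k) (2 * l) p → Val (2 * k) (2 * l) q →
      lC k l e1 e2 p = lC k l e1 e2 q →
      ((lC k l e1 e2 p).1 ≠ 7 ∧ (lC k l e1 e2 p).1 ≠ 8) → p ≠ q → Conf p q :=
    fun p q a b c d e => h1 k l e1 e2 hk hl hp he h0 p q a b c d.1 d.2 e
  have hcov : ∀ p, Val (2 * k) (2 * l) p →
      ((lC k l e1 e2 p).1 ≠ 7 ∧ (lC k l e1 e2 p).1 ≠ 8) →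
      ∃ q, Val (2 * k) (2 * l) q ∧ rk q = 2 * k + 2 * l - 1 ∧
        lC k l e1 e2 q = lC k l e1 e2 p := by
    intro p a b
    obtain ⟨q, c, d, e⟩ := h2 k l e1 e2 hk hl hp he h0 p a b.1 b.2
    exact ⟨q, c, by omega, e⟩
  have hcen := h3 k l e1 e2 hk hl
  by_cases hU : (k, k, l - 1, l) ∈ S ∧ (k, k, l, l + 1) ∈ S
  · obtain ⟨r1, r2, r3⟩ := h5 k l e1 e2 hk hl hp he h0
    have hb := bound_merge (good := fun L => L.1 ≠ 7 ∧ L.1 ≠ 8) (lab := lC k l e1 e2)
      (R := 2 * k + 2 * l - 1) hval hS hcl hcov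
      (0, k - 1, l - 1, l) (0, k - 1, l - 1, l + 1) (0, k - 1, l, l + 1)
      (k - 1, k + 1, l - 1, l) (k - 1, k, l - 1, l + 1) (k - 1, k - 1, l, l + 1)
      (by simp only [ne_eq, Prod.mk.injEq]; omega)
      (by simp only [ne_eq, Prod.mk.injEq]; omega)
      (by simp only [ne_eq, Prod.mk.injEq]; omega)
      (by simp) (by simp) (by simp)
      ⟨by simp only [Val]; omega, by simp only [rk]; omega, r1⟩
      ⟨by simp only [Val]; omega, by simp only [rk]; omega, r2⟩
      ⟨by simp only [Val]; omega, by simp only [rk]; omega, r3⟩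
      (by
        intro p hpS q hqS hlp hlq
        by_contra hne
        have hlab : ∀ r : Q, r ∈ S → (lC k l e1 e2 r = (0, k - 1, l - 1, l) ∨
            lC k l e1 e2 r = (0, k - 1, l - 1, l + 1) ∨
            lC k l e1 e2 r = (0, k - 1, l, l + 1)) →
            ¬ Conf r (k, k, l - 1, l) ∧ ¬ Conf r (k, k, l, l + 1) := by
          intro r hr hlr
          have h7 : (lC k l e1 e2 r).1 ≠ 7 := by
            rcases hlr with h | h | h <;> rw [h] <;> simp
          have hr1 : r ≠ (k, k, l - 1, l) := by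
            rintro rfl
            apply h7
            rw [(hcen _ (hval _ hr)).1]
            exact ⟨rfl, rfl, Or.inr (Or.inl rfl)⟩
          have hr2 : r ≠ (k, k, l, l + 1) := by
            rintro rfl
            apply h7
            rw [(hcen _ (hval _ hr)).1]
            exact ⟨rfl, rfl, Or.inr (Or.inr rfl)⟩
          exact ⟨strong_not_conf hS hr hU.1 hr1, strong_not_conf hS hr hU.2 hr2⟩
        have a1 := hlab p hpS hlp
        have a2 := hlab q hqS hlq
        exact strong_not_conf hS hpS hqS hne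
          (h4 k l e1 e2 hk hl hp he h0 p q (hval p hpS) (hval q hqS) hlp hlq
            a1.1 a1.2 a2.1 a2.2 hne))
    have := even_core hch (by omega) (by omega) hcen hval hS 2 1 1 (by convert hb)
      (Or.inr le_rfl) (Or.inr le_rfl)
    omega
  · have hV : ¬ ((k - 1, k, l, l) ∈ S ∧ (k, k + 1, l, l) ∈ S) := by
      rcases hcase with h | h
      · exact absurd h hU
      · exact h
    have hb := bound (good := fun L => L.1 ≠ 7 ∧ L.1 ≠ 8) (lab := lC k l e1 e2)
      (R := 2 * k + 2 * l - 1) hval hS hcl hcov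
    have := even_core hch (by omega) (by omega) hcen hval hS 0 0 0 (by rw [Nat.add_zero]; convert hb)
      (Or.inl hU) (Or.inl hV)
    omega

theorem upC (h1 : S_cliqueC) (h2 : S_coverC) (h3 : S_centralC) (h4 : S_mergeC) (h5 : S_repC)
    (hch : S_charge) (k l : ℕ) (hk : 2 ≤ k) (hl : 2 ≤ l) (hp : (min k l) % 2 = 0)
    (S : Finset Q) (hval : ∀ p ∈ S, Val (2 * k) (2 * l) p) (hS : Strong S) :
    S.card ≤ (Lset (2 * k) (2 * l) (2 * k + 2 * l - 1)).card := by
  by_cases hcase : ((k, k, l - 1, l) ∈ S ∧ (k, k, l, l + 1) ∈ S) ∨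
      ¬ ((k - 1, k, l, l) ∈ S ∧ (k, k + 1, l, l) ∈ S)
  · exact upC1 h1 h2 h3 h4 h5 hch k l (k - l) (l - k) hk hl hp (by omega) (by omega) S hval hS
      hcase
  · push Not at hcase
    have := upC1 h1 h2 h3 h4 h5 hch l k (l - k) (k - l) hl hk (by rw [min_comm]; exact hp)
      (by omega) (by omega) (S.image sw) (valid_sw hval) (strong_sw hS)
      (Or.inl ⟨Finset.mem_image.2 ⟨_, hcase.2.1, rfl⟩, Finset.mem_image.2 ⟨_, hcase.2.2, rfl⟩⟩)
    rw [card_sw, Lset_sw, Nat.add_comm (2 * l) (2 * k)] at this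
    exact this

/-- min k l odd, first half -/
theorem upD1 (h1 : S_cliqueD) (h2 : S_coverD) (h3 : S_centralD) (h4 : S_mergeD) (h5 : S_repD)
    (hch : S_charge) (k l e1 e2 : ℕ) (hk : 3 ≤ k) (hl : 3 ≤ l) (hp : (min k l) % 2 = 1)
    (he : k + e2 = l + e1) (h0 : e1 = 0 ∨ e2 = 0) (S : Finset Q)
    (hval : ∀ p ∈ S, Val (2 * k) (2 * l) p) (hS : Strong S)
    (hcase : ((k - 1, k, l, l) ∈ S ∧ (k, k + 1, l, l) ∈ S) ∨
      ¬ ((k, k, l - 1, l) ∈ S ∧ (k, k, l, l + 1) ∈ S)) :
    S.card ≤ (Lset (2 * k) (2 * l) (2 * k + 2 * l - 1)).card := by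
  have hcl : ∀ p q, Val (2 * k) (2 * l) p → Val (2 * k) (2 * l) q →
      lD k l e1 e2 p = lD k l e1 e2 q →
      ((lD k l e1 e2 p).1 ≠ 7 ∧ (lD k l e1 e2 p).1 ≠ 8) → p ≠ q → Conf p q :=
    fun p q a b c d e => h1 k l e1 e2 hk hl hp he h0 p q a b c d.1 d.2 e
  have hcov : ∀ p, Val (2 * k) (2 * l) p →
      ((lD k l e1 e2 p).1 ≠ 7 ∧ (lD k l e1 e2 p).1 ≠ 8) →
      ∃ q, Val (2 * k) (2 * l) q ∧ rk q = 2 * k + 2 * l - 1 ∧
        lD k l e1 e2 q = lD k l e1 e2 p := by
    intro p a b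
    obtain ⟨q, c, d, e⟩ := h2 k l e1 e2 hk hl hp he h0 p a b.1 b.2
    exact ⟨q, c, by omega, e⟩
  have hcen := h3 k l e1 e2 hk hl
  by_cases hV : (k - 1, k, l, l) ∈ S ∧ (k, k + 1, l, l) ∈ S
  · obtain ⟨r1, r2, r3⟩ := h5 k l e1 e2 hk hl hp he h0
    have hb := bound_merge (good := fun L => L.1 ≠ 7 ∧ L.1 ≠ 8) (lab := lD k l e1 e2)
      (R := 2 * k + 2 * l - 1) hval hS hcl hcov
      (1, k - 1, k, l - 1) (1, k - 1, k + 1, l - 1) (1, k, k + 1, l - 1)
      (k - 1, k, l - 1, l + 1) (k - 1, k + 1, l - 1, l) (k, k + 1, l - 1, l - 1)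
      (by simp only [ne_eq, Prod.mk.injEq]; omega)
      (by simp only [ne_eq, Prod.mk.injEq]; omega)
      (by simp only [ne_eq, Prod.mk.injEq]; omega)
      (by simp) (by simp) (by simp)
      ⟨by simp only [Val]; omega, by simp only [rk]; omega, r1⟩
      ⟨by simp only [Val]; omega, by simp only [rk]; omega, r2⟩
      ⟨by simp only [Val]; omega, by simp only [rk]; omega, r3⟩
      (by
        intro p hpS q hqS hlp hlq
        by_contra hne
        have hlab : ∀ r : Q, r ∈ S → (lD k l e1 e2 r = (1, k - 1, k, l - 1) ∨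
            lD k l e1 e2 r = (1, k - 1, k + 1, l - 1) ∨
            lD k l e1 e2 r = (1, k, k + 1, l - 1)) →
            ¬ Conf r (k - 1, k, l, l) ∧ ¬ Conf r (k, k + 1, l, l) := by
          intro r hr hlr
          have h8 : (lD k l e1 e2 r).1 ≠ 8 := by
            rcases hlr with h | h | h <;> rw [h] <;> simp
          have hr1 : r ≠ (k - 1, k, l, l) := by
            rintro rfl
            apply h8
            rw [(hcen _ (hval _ hr)).2]
            exact ⟨rfl, rfl, Or.inr (Or.inl rfl)⟩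
          have hr2 : r ≠ (k, k + 1, l, l) := by
            rintro rfl
            apply h8
            rw [(hcen _ (hval _ hr)).2]
            exact ⟨rfl, rfl, Or.inr (Or.inr rfl)⟩
          exact ⟨strong_not_conf hS hr hV.1 hr1, strong_not_conf hS hr hV.2 hr2⟩
        have a1 := hlab p hpS hlp
        have a2 := hlab q hqS hlq
        exact strong_not_conf hS hpS hqS hne
          (h4 k l e1 e2 hk hl hp he h0 p q (hval p hpS) (hval q hqS) hlp hlq
            a1.1 a1.2 a2.1 a2.2 hne))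
    have := even_core hch (by omega) (by omega) hcen hval hS 2 1 1 (by convert hb)
      (Or.inr le_rfl) (Or.inr le_rfl)
    omega
  · have hU : ¬ ((k, k, l - 1, l) ∈ S ∧ (k, k, l, l + 1) ∈ S) := by
      rcases hcase with h | h
      · exact absurd h hV
      · exact h
    have hb := bound (good := fun L => L.1 ≠ 7 ∧ L.1 ≠ 8) (lab := lD k l e1 e2)
      (R := 2 * k + 2 * l - 1) hval hS hcl hcov
    have := even_core hch (by omega) (by omega) hcen hval hS 0 0 0 (by rw [Nat.add_zero]; convert hb)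
      (Or.inl hU) (Or.inl hV)
    omega

theorem upD (h1 : S_cliqueD) (h2 : S_coverD) (h3 : S_centralD) (h4 : S_mergeD) (h5 : S_repD)
    (hch : S_charge) (k l : ℕ) (hk : 3 ≤ k) (hl : 3 ≤ l) (hp : (min k l) % 2 = 1)
    (S : Finset Q) (hval : ∀ p ∈ S, Val (2 * k) (2 * l) p) (hS : Strong S) :
    S.card ≤ (Lset (2 * k) (2 * l) (2 * k + 2 * l - 1)).card := by
  by_cases hcase : ((k - 1, k, l, l) ∈ S ∧ (k, k + 1, l, l) ∈ S) ∨
      ¬ ((k, k, l - 1, l) ∈ S ∧ (k, k, l, l + 1) ∈ S)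
  · exact upD1 h1 h2 h3 h4 h5 hch k l (k - l) (l - k) hk hl hp (by omega) (by omega) S hval hS
      hcase
  · push Not at hcase
    have := upD1 h1 h2 h3 h4 h5 hch l k (l - k) (k - l) hl hk (by rw [min_comm]; exact hp)
      (by omega) (by omega) (S.image sw) (valid_sw hval) (strong_sw hS)
      (Or.inl ⟨Finset.mem_image.2 ⟨_, hcase.2.1, rfl⟩, Finset.mem_image.2 ⟨_, hcase.2.2, rfl⟩⟩)
    rw [card_sw, Lset_sw, Nat.add_comm (2 * l) (2 * k)] at this
    exact this

/-- the maximal size of a strong set on the grid -/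
theorem grid (cA : S_cliqueA) (vA : S_coverA) (zA : S_centralA) (cB : S_cliqueB) (vB : S_coverB)
    (cC : S_cliqueC) (vC : S_coverC) (zC : S_centralC) (mC : S_mergeC) (rC : S_repC)
    (cD : S_cliqueD) (vD : S_coverD) (zD : S_centralD) (mD : S_mergeD) (rD : S_repD)
    (hch : S_charge) (kO : S_countOdd) (kE : S_countEven) (h2 : S_two) (h2l : S_twoLow)
    (n m : ℕ) (hm : 2 ≤ m) (hmn : m ≤ n) :
    (∀ S : Finset Q, (∀ p ∈ S, Val n m p) → Strong S → S.card ≤ F n m) ∧
    (∃ S : Finset Q, (∀ p ∈ S, Val n m p) ∧ Strong S ∧ S.card = F n m) := by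
  by_cases hodd : (n + m) % 2 = 1
  · have hF : F n m = (Lset n m (n + m)).card := by
      rw [kO n m (by omega) hmn hodd, F, if_pos hodd]
    rw [hF]
    refine ⟨?_, Lset n m (n + m), fun p hp => (mem_Lset.1 hp).1, Lset_strong n m _, rfl⟩
    intro S hval hS
    by_cases hn : n % 2 = 0
    · obtain ⟨k, rfl⟩ : ∃ k, n = 2 * k := ⟨n / 2, by omega⟩
      obtain ⟨w, rfl⟩ : ∃ w, m = 2 * w + 1 := ⟨m / 2, by omega⟩
      exact upA cA vA zA hch k w (by omega) (by omega) S hval hS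
    · obtain ⟨w, rfl⟩ : ∃ w, n = 2 * w + 1 := ⟨n / 2, by omega⟩
      obtain ⟨k, rfl⟩ : ∃ k, m = 2 * k := ⟨m / 2, by omega⟩
      have := upA cA vA zA hch k w (by omega) (by omega) (S.image sw) (valid_sw hval)
        (strong_sw hS)
      rw [card_sw, Lset_sw] at this
      have e : 2 * w + 1 + 2 * k = 2 * k + 2 * w + 1 := by omega
      rw [e]
      exact this
  · have hev : (n + m) % 2 = 0 := by omega
    by_cases hm2 : m = 2
    · subst hm2
      obtain ⟨k, rfl⟩ : ∃ k, n = 2 * k := ⟨n / 2, by omega⟩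
      have hF : F (2 * k) 2 = 6 * k + 1 := by
        rw [F, if_neg hodd, if_pos rfl]
        omega
      rw [hF]
      exact ⟨h2 k (by omega), h2l k (by omega)⟩
    · have hF : F n m = (Lset n m (n + m - 1)).card := by
        rw [kE n m (by omega) hmn hev, F, if_neg hodd, if_neg hm2]
      rw [hF]
      refine ⟨?_, Lset n m (n + m - 1), fun p hp => (mem_Lset.1 hp).1, Lset_strong n m _, rfl⟩
      intro S hval hS
      by_cases hn : n % 2 = 1
      · exact upB cB vB n m ((n - m) / 2) 0 hn (by omega) (by omega) (by omega) (by omega)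
          (Or.inr rfl) S hval hS
      · obtain ⟨k, rfl⟩ : ∃ k, n = 2 * k := ⟨n / 2, by omega⟩
        obtain ⟨l, rfl⟩ : ∃ l, m = 2 * l := ⟨m / 2, by omega⟩
        by_cases hl : l % 2 = 0
        · exact upC cC vC zC mC rC hch k l (by omega) (by omega) (by omega) S hval hS
        · exact upD cD vD zD mD rD hch k l (by omega) (by omega) (by omega) S hval hS

end Pool.Agent.Q11.TF
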