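import Mathlib

/-!
# Transfer systems: definitions and statements for the group part of project TF
-/

namespace Pool.Agent.Q11.TF

universe u

/-- transfer systems on a meet semilattice (the case of an abelian group) -/
structure IsTS {L : Type u} [SemilatticeInf L] (r : L → L → Prop) : Prop where
  refl : ∀ H, r H H
  trans : ∀ K H M, r K H → r H M → r K M
  le : ∀ K H, r K H → K ≤ H
  restrict : ∀ K H M, r K H → M ≤ H → r (K ⊓ M) M

/-- the transfer system generated by a set of pairs -/
def Gen {L : Type u} [SemilatticeInf L] (S : Set (L × L)) (K H : L) : Prop :=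
  ∀ r : L → L → Prop, IsTS r → (∀ e ∈ S, r e.1 e.2) → r K H

/-- minimal bases of a transfer system -/
def MinBasis {L : Type u} [SemilatticeInf L] (S : Set (L × L)) (r : L → L → Prop) : Prop :=
  (∀ e ∈ S, e.1 < e.2) ∧ Gen S = r ∧ ∀ S' : Set (L × L), S' ⊂ S → Gen S' ≠ r

/-- strong sets of pairs -/
def StrongL {L : Type u} [SemilatticeInf L] (S : Set (L × L)) : Prop :=
  ∀ e ∈ S, ∀ f ∈ S, e ≠ f → e.1 ≤ f.1 → e.2 ≤ f.2 → e.2 ≤ f.1

/-- every minimal basis can be replaced by a strong set of the same size -/
def S_latUp : Prop := ∀ (L : Type u) [SemilatticeInf L] [Finite L] (S : Set (L × L))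
  (r : L → L → Prop), MinBasis S r →
  ∃ S' : Set (L × L), S'.ncard = S.ncard ∧ (∀ e ∈ S', e.1 < e.2) ∧ StrongL S'

/-- every strong set is a minimal basis of the transfer system that it generates -/
def S_latLow : Prop := ∀ (L : Type u) [SemilatticeInf L] (S : Set (L × L)),
  (∀ e ∈ S, e.1 < e.2) → StrongL S → MinBasis S (Gen S)

/-- the lattice of subgroups of a cyclic group of order p^n q^m -/
def S_iso : Prop := ∀ (p q n m : ℕ), p.Prime → q.Prime → p ≠ q → ∀ (G : Type u) [Group G]
  [IsCyclic G], Nat.card G = p ^ n * q ^ m → Nonempty (Subgroup G ≃o (Fin (n + 1) × Fin (m + 1)))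

/-- transfer systems of a group -/
structure IsTransferSystem {G : Type u} [Group G] (r : Subgroup G → Subgroup G → Prop) :
    Prop where
  refl : ∀ H, r H H
  antisymm : ∀ K H, r K H → r H K → K = H
  trans : ∀ K H M, r K H → r H M → r K M
  le : ∀ K H, r K H → K ≤ H
  conj : ∀ K H (g : G), r K H →
    r (K.map (MulAut.conj g).toMonoidHom) (H.map (MulAut.conj g).toMonoidHom)
  restrict : ∀ K H M, r K H → M ≤ H → r (K ⊓ M) M

/-- the smallest transfer system that contains a set of pairs -/
def Generated {G : Type u} [Group G] (S : Set (Subgroup G × Subgroup G)) (K H : Subgroup G) :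
    Prop :=
  ∀ r : Subgroup G → Subgroup G → Prop, IsTransferSystem r → (∀ e ∈ S, r e.1 e.2) → r K H

/-- minimal bases -/
def IsMinimalBasis {G : Type u} [Group G] (S : Set (Subgroup G × Subgroup G))
    (r : Subgroup G → Subgroup G → Prop) : Prop :=
  (∀ e ∈ S, e.1 < e.2) ∧ Generated S = r ∧
    ∀ S' : Set (Subgroup G × Subgroup G), S' ⊂ S → Generated S' ≠ r

/-- for a commutative group both notions agree -/
def S_comm : Prop := ∀ (G : Type u) [Group G] [IsCyclic G]
  (r : Subgroup G → Subgroup G → Prop), IsTransferSystem r ↔ IsTS r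

end Pool.Agent.Q11.TF
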