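import Pool.Agent.Q11.TF.Asm3
import Pool.Agent.Q11.TF.Group

/-!
# From the grid to cyclic groups
-/

namespace Pool.Agent.Q11.TF

open Finset Classical

universe u

/-- coordinates of a pair of subgroups -/
noncomputable def co {L : Type u} [PartialOrder L] {n m : ℕ}
    (φ : L ≃o (Fin (n + 1) × Fin (m + 1))) (e : L × L) : Q :=
  ((φ e.1).1.val, (φ e.2).1.val, (φ e.1).2.val, (φ e.2).2.val)

theorem co_inj {L : Type u} [PartialOrder L] {n m : ℕ}
    (φ : L ≃o (Fin (n + 1) × Fin (m + 1))) : Function.Injective (co φ) := by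
  rintro ⟨a, b⟩ ⟨c, d⟩ h
  simp only [co, Prod.mk.injEq] at h
  obtain ⟨h1, h2, h3, h4⟩ := h
  have e1 : φ a = φ c := Prod.ext (Fin.ext h1) (Fin.ext h3)
  have e2 : φ b = φ d := Prod.ext (Fin.ext h2) (Fin.ext h4)
  rw [φ.injective e1, φ.injective e2]

theorem le_iff {L : Type u} [PartialOrder L] {n m : ℕ}
    (φ : L ≃o (Fin (n + 1) × Fin (m + 1))) (a b : L) :
    a ≤ b ↔ (φ a).1.val ≤ (φ b).1.val ∧ (φ a).2.val ≤ (φ b).2.val := by
  rw [← φ.le_iff_le, Prod.le_def, Fin.le_def, Fin.le_def]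

theorem co_val {L : Type u} [PartialOrder L] {n m : ℕ}
    (φ : L ≃o (Fin (n + 1) × Fin (m + 1))) (e : L × L) (h : e.1 < e.2) : Val n m (co φ e) := by
  have h1 := (le_iff φ e.1 e.2).1 h.le
  have h2 : ¬ ((φ e.2).1.val ≤ (φ e.1).1.val ∧ (φ e.2).2.val ≤ (φ e.1).2.val) := by
    rw [← le_iff φ]; exact not_le_of_gt h
  have h3 := (φ e.2).1.isLt
  have h4 := (φ e.2).2.isLt
  simp only [Val, co]
  omega

/-- the pair of subgroups with given coordinates -/
noncomputable def oc {L : Type u} [PartialOrder L] {n m : ℕ}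
    (φ : L ≃o (Fin (n + 1) × Fin (m + 1))) (p : Q) : L × L :=
  (φ.symm (Fin.ofNat (n + 1) p.1, Fin.ofNat (m + 1) p.2.2.1),
    φ.symm (Fin.ofNat (n + 1) p.2.1, Fin.ofNat (m + 1) p.2.2.2))

theorem co_oc {L : Type u} [PartialOrder L] {n m : ℕ}
    (φ : L ≃o (Fin (n + 1) × Fin (m + 1))) (p : Q) (h : Val n m p) : co φ (oc φ p) = p := by
  obtain ⟨h1, h2, h3, h4, _⟩ := h
  obtain ⟨a, b, x, y⟩ := p
  simp only [co, oc, OrderIso.apply_symm_apply, Fin.val_ofNat, Prod.mk.injEq] at *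
  refine ⟨Nat.mod_eq_of_lt (by omega), Nat.mod_eq_of_lt (by omega), Nat.mod_eq_of_lt (by omega),
    Nat.mod_eq_of_lt (by omega)⟩

/-- strong sets on a lattice that is a product of two chains -/
theorem lat_grid {L : Type u} [SemilatticeInf L] {n m : ℕ}
    (φ : L ≃o (Fin (n + 1) × Fin (m + 1)))
    (hup : ∀ S : Finset Q, (∀ p ∈ S, Val n m p) → Strong S → S.card ≤ F n m)
    (hlow : ∃ S : Finset Q, (∀ p ∈ S, Val n m p) ∧ Strong S ∧ S.card = F n m) :
    (∀ S : Set (L × L), (∀ e ∈ S, e.1 < e.2) → StrongL S → S.ncard ≤ F n m) ∧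
    (∃ S : Set (L × L), (∀ e ∈ S, e.1 < e.2) ∧ StrongL S ∧ S.ncard = F n m) := by
  haveI : Finite L := Finite.of_equiv _ φ.toEquiv.symm
  constructor
  · intro S hlt hst
    have hfin : S.Finite := Set.toFinite S
    have h1 := hup (hfin.toFinset.image (co φ)) ?_ ?_
    · rw [Finset.card_image_of_injective _ (co_inj φ)] at h1
      rwa [Set.ncard_eq_toFinset_card S hfin]
    · intro p hp
      obtain ⟨e, he, rfl⟩ := Finset.mem_image.1 hp
      exact co_val φ e (hlt e (hfin.mem_toFinset.1 he))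
    · intro p hp q hq hne hle
      obtain ⟨e, he, rfl⟩ := Finset.mem_image.1 hp
      obtain ⟨f, hf, rfl⟩ := Finset.mem_image.1 hq
      have hne' : e ≠ f := by rintro rfl; exact hne rfl
      obtain ⟨a1, a2, a3, a4⟩ := hle
      have := hst e (hfin.mem_toFinset.1 he) f (hfin.mem_toFinset.1 hf) hne'
        ((le_iff φ _ _).2 ⟨a1, a3⟩) ((le_iff φ _ _).2 ⟨a2, a4⟩)
      exact (le_iff φ _ _).1 this
  · obtain ⟨S, hval, hst, hcard⟩ := hlow
    refine ⟨(oc φ) '' (S : Set Q), ?_, ?_, ?_⟩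
    · rintro e ⟨p, hp, rfl⟩
      have hv := hval p (Finset.mem_coe.1 hp)
      have hc := co_oc φ p hv
      obtain ⟨h1, h2, h3, h4, h5⟩ := hv
      have c1 : (φ (oc φ p).1).1.val = p.1 := congrArg (fun q : Q => q.1) hc
      have c2 : (φ (oc φ p).2).1.val = p.2.1 := congrArg (fun q : Q => q.2.1) hc
      have c3 : (φ (oc φ p).1).2.val = p.2.2.1 := congrArg (fun q : Q => q.2.2.1) hc
      have c4 : (φ (oc φ p).2).2.val = p.2.2.2 := congrArg (fun q : Q => q.2.2.2) hc
      refine lt_of_le_not_ge ((le_iff φ _ _).2 ⟨by omega, by omega⟩) ?_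
      rw [le_iff φ]
      omega
    · rintro e ⟨p, hp, rfl⟩ f ⟨q, hq, rfl⟩ hne h1 h2
      have hp' := Finset.mem_coe.1 hp
      have hq' := Finset.mem_coe.1 hq
      have hc := co_oc φ p (hval p hp')
      have hd := co_oc φ q (hval q hq')
      have c1 : (φ (oc φ p).1).1.val = p.1 := congrArg (fun q : Q => q.1) hc
      have c2 : (φ (oc φ p).2).1.val = p.2.1 := congrArg (fun q : Q => q.2.1) hc
      have c3 : (φ (oc φ p).1).2.val = p.2.2.1 := congrArg (fun q : Q => q.2.2.1) hc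
      have c4 : (φ (oc φ p).2).2.val = p.2.2.2 := congrArg (fun q : Q => q.2.2.2) hc
      have d1 : (φ (oc φ q).1).1.val = q.1 := congrArg (fun q : Q => q.1) hd
      have d2 : (φ (oc φ q).2).1.val = q.2.1 := congrArg (fun q : Q => q.2.1) hd
      have d3 : (φ (oc φ q).1).2.val = q.2.2.1 := congrArg (fun q : Q => q.2.2.1) hd
      have d4 : (φ (oc φ q).2).2.val = q.2.2.2 := congrArg (fun q : Q => q.2.2.2) hd
      rw [le_iff φ] at h1 h2 ⊢
      have hne' : p ≠ q := by rintro rfl; exact hne rfl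
      have := hst p hp' q hq' hne' ⟨by omega, by omega, by omega, by omega⟩
      omega
    · rw [Set.ncard_image_of_injOn, Set.ncard_coe_finset, hcard]
      intro p hp q hq h
      rw [← co_oc φ p (hval p (Finset.mem_coe.1 hp)), ← co_oc φ q (hval q (Finset.mem_coe.1 hq)),
        h]

theorem generated_eq (hcomm : S_comm.{u}) {G : Type u} [Group G] [IsCyclic G]
    (S : Set (Subgroup G × Subgroup G)) : Generated S = Gen S := by
  funext K H
  apply propext
  constructor
  · intro h r hr hS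
    exact h r ((hcomm G r).2 hr) hS
  · intro h r hr hS
    exact h r ((hcomm G r).1 hr) hS

/-- the complexity -/
theorem final (hup : S_latUp.{u}) (hlow : S_latLow.{u}) (hiso : S_iso.{u}) (hcomm : S_comm.{u})
    (p q n m : ℕ) (hp : p.Prime) (hq : q.Prime) (hpq : p ≠ q)
    (hg : (∀ S : Finset Q, (∀ p ∈ S, Val n m p) → Strong S → S.card ≤ F n m) ∧
      (∃ S : Finset Q, (∀ p ∈ S, Val n m p) ∧ Strong S ∧ S.card = F n m))
    (G : Type u) [Group G] [IsCyclic G] (hG : Nat.card G = p ^ n * q ^ m) :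
    IsGreatest {k : ℕ | ∃ (T : Subgroup G → Subgroup G → Prop)
      (S : Set (Subgroup G × Subgroup G)), IsTransferSystem T ∧ IsMinimalBasis S T ∧
        S.ncard = k} (F n m) := by
  obtain ⟨φ⟩ := hiso p q n m hp hq hpq G hG
  haveI : Finite (Subgroup G) := Finite.of_equiv _ φ.toEquiv.symm
  obtain ⟨h1, h2⟩ := lat_grid φ hg.1 hg.2
  constructor
  · obtain ⟨S, hlt, hst, hcard⟩ := h2
    have hmb := hlow (Subgroup G) S hlt hst
    refine ⟨Gen S, S, ?_, ?_, hcard⟩
    · rw [hcomm G]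
      constructor
      · intro H r hr _; exact hr.refl H
      · intro K H M hKH hHM r hr hS
        exact hr.trans K H M (hKH r hr hS) (hHM r hr hS)
      · intro K H h
        refine h (fun K H => K ≤ H) ?_ (fun e he => (hlt e he).le)
        exact ⟨fun H => le_rfl, fun K H M h1 h2 => h1.trans h2, fun K H h => h,
          fun K H M _ _ => inf_le_right⟩
      · intro K H M h hM r hr hS
        exact hr.restrict K H M (h r hr hS) hM
    · refine ⟨hmb.1, ?_, ?_⟩
      · rw [generated_eq hcomm]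
      · intro S' hS'
        rw [generated_eq hcomm]
        exact hmb.2.2 S' hS'
  · rintro k ⟨T, S, _, ⟨hlt, hgen, hmin⟩, rfl⟩
    have hmb : MinBasis S T := by
      refine ⟨hlt, ?_, ?_⟩
      · rw [← generated_eq hcomm]; exact hgen
      · intro S' hS'
        rw [← generated_eq hcomm]
        exact hmin S' hS'
    obtain ⟨S', hc, hlt', hst'⟩ := hup (Subgroup G) S T hmb
    rw [← hc]
    exact h1 S' hlt' hst'

end Pool.Agent.Q11.TF
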