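import Pool.Agent.Q11.TF.Stm

/-!
# Strong sets of intervals
-/

namespace Pool.Agent.Q11.TF

theorem charge : S_charge := by
  intro m T hT hs
  classical
  have inj1 : ∀ t ∈ T, ∀ u ∈ T, t.1 = u.1 → t = u := by
    intro t ht u hu h
    by_contra hne
    have a1 := hT t ht
    have a2 := hT u hu
    rcases le_total t.2 u.2 with h2 | h2
    · have := hs t ht u hu hne (le_of_eq h) h2; omega
    · have := hs u hu t ht (Ne.symm hne) (le_of_eq h.symm) h2; omega
  have inj2 : ∀ t ∈ T, ∀ u ∈ T, t.2 = u.2 → t = u := by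
    intro t ht u hu h
    by_contra hne
    have a1 := hT t ht
    have a2 := hT u hu
    rcases le_total t.1 u.1 with h2 | h2
    · have := hs t ht u hu hne h2 (le_of_eq h); omega
    · have := hs u hu t ht (Ne.symm hne) h2 (le_of_eq h.symm); omega
  have cA : (T.image (fun t => t.1)).card = T.card :=
    Finset.card_image_of_injOn (fun t ht u hu h => inj1 t ht u hu h)
  have cB : ((T.filter (fun t => t.2 ≠ t.1 + 1)).image (fun t => t.2 - 1)).card =
      (T.filter (fun t => t.2 ≠ t.1 + 1)).card := by
    refine Finset.card_image_of_injOn (fun t ht u hu h => ?_)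
    have ht' := (Finset.mem_filter.mp ht).1
    have hu' := (Finset.mem_filter.mp hu).1
    have a1 := hT t ht'
    have a2 := hT u hu'
    refine inj2 t ht' u hu' ?_
    omega
  have hd : Disjoint (T.image (fun t => t.1))
      ((T.filter (fun t => t.2 ≠ t.1 + 1)).image (fun t => t.2 - 1)) := by
    rw [Finset.disjoint_left]
    intro z hz hz'
    obtain ⟨t, ht, rfl⟩ := Finset.mem_image.mp hz
    obtain ⟨u, hu, hu2⟩ := Finset.mem_image.mp hz'
    obtain ⟨hu1, hu3⟩ := Finset.mem_filter.mp hu
    have a1 := hT t ht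
    have a2 := hT u hu1
    have hne : u ≠ t := by
      rintro rfl
      omega
    have := hs u hu1 t ht hne (by omega) (by omega)
    omega
  have hsub : (T.image (fun t => t.1)) ∪
      ((T.filter (fun t => t.2 ≠ t.1 + 1)).image (fun t => t.2 - 1)) ⊆ Finset.range m := by
    intro z hz
    rw [Finset.mem_union] at hz
    rw [Finset.mem_range]
    rcases hz with hz | hz
    · obtain ⟨t, ht, rfl⟩ := Finset.mem_image.mp hz
      have a1 := hT t ht
      omega
    · obtain ⟨u, hu, rfl⟩ := Finset.mem_image.mp hz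
      obtain ⟨hu1, hu3⟩ := Finset.mem_filter.mp hu
      have a2 := hT u hu1
      omega
  have hc := Finset.card_le_card hsub
  rw [Finset.card_union_of_disjoint hd, cA, cB, Finset.card_range] at hc
  have hsum := Finset.card_filter_add_card_filter_not (s := T) (fun t : ℕ × ℕ => t.2 = t.1 + 1)
  have e : (T.filter (fun t => t.2 ≠ t.1 + 1)) = T.filter (fun t : ℕ × ℕ => ¬ t.2 = t.1 + 1) := rfl
  rw [e] at hc ⊢
  omega

end Pool.Agent.Q11.TF
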