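import Pool.Agent.Q11.TF.Stm

/-!
# The label classes of labA are cliques
-/

namespace Pool.Agent.Q11.TF

set_option maxHeartbeats 4000000
set_option linter.unusedVariables false
set_option linter.unusedSimpArgs false

section

variable (k w a b x y u v z : ℕ) (hk : 1 ≤ k) (hw : 1 ≤ w)
  (g1 : a ≤ b) (g2 : b ≤ 2 * k) (g3 : x ≤ y) (g4 : y ≤ 2 * w + 1) (g5 : a < b ∨ x < y)
include hk hw g1 g2 g3 g4 g5

theorem specA0 (h1 : labA k w a b x y = (0, u, v, z)) :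
    (x < y ∧ ((a + b ≤ 2 * k ∧ u = a) ∨ (2 * k < a + b ∧ u + b = 2 * k)) ∧ v = x ∧ z = y ∧
      w + u < k + x ∧ w + u + y < k + 2 * w + 1) ∨
    (a = b ∧ x < y ∧ a < k ∧ u = a ∧ v + 1 = y ∧ z = y ∧ w + 1 + u < y + k ∧
      y + u ≤ w + k) ∨
    (a = b ∧ x < y ∧ k < a ∧ u + a = 2 * k ∧ v = x ∧ z = x + 1 ∧ w + 1 + u ≤ x + k ∧
      x + u < w + k) := by
  simp only [labA] at h1
  obtain ⟨j, hj⟩ : ∃ j, j = min a (2 * k - b) := ⟨_, rfl⟩
  obtain ⟨i, hi⟩ : ∃ i, i = min x (2 * w + 1 - y) := ⟨_, rfl⟩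
  rw [← hj, ← hi] at h1
  split_ifs at h1
  all_goals (try simp only [Prod.mk.injEq, Nat.reduceEqDiff, OfNat.ofNat_ne_zero, OfNat.ofNat_ne_one, OfNat.zero_ne_ofNat, OfNat.one_ne_ofNat, one_ne_zero, zero_ne_one, false_and, true_and] at h1)
  · left; omega
  · right; left; omega
  · right; right; omega

theorem specA1 (h1 : labA k w a b x y = (1, u, v, z)) :
    (a < b ∧ u = a ∧ v = b ∧ ((x + y ≤ 2 * w + 1 ∧ z = x) ∨
      (2 * w + 1 < x + y ∧ z + y = 2 * w + 1))) ∨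
    (a < b ∧ x = y ∧ x ≤ w ∧ u + 1 = b ∧ v = b ∧ z = x) ∨
    (a < b ∧ x = y ∧ w < x ∧ u = a ∧ v = a + 1 ∧ z + x = 2 * w + 1) := by
  simp only [labA] at h1
  obtain ⟨j, hj⟩ : ∃ j, j = min a (2 * k - b) := ⟨_, rfl⟩
  obtain ⟨i, hi⟩ : ∃ i, i = min x (2 * w + 1 - y) := ⟨_, rfl⟩
  rw [← hj, ← hi] at h1
  split_ifs at h1
  all_goals (try simp only [Prod.mk.injEq, Nat.reduceEqDiff, OfNat.ofNat_ne_zero, OfNat.ofNat_ne_one, OfNat.zero_ne_ofNat, OfNat.one_ne_ofNat, one_ne_zero, zero_ne_one, false_and, true_and] at h1)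
  · left; omega
  · right; left; omega
  · right; right; omega

theorem specA2 (h1 : labA k w a b x y = (2, u, v, z)) :
    (a = k ∧ b = k ∧ y = x + 1 ∧ y ≠ w + 1 ∧ u + 1 = k ∧ v = y ∧ z = 0) ∨
    (a = b ∧ x < y ∧ a < k ∧ u = a ∧ v = y ∧ z = 0) ∨
    (a = b ∧ x < y ∧ k < a ∧ u + a = 2 * k ∧ v = x + 1 ∧ z = 0) := by
  simp only [labA] at h1
  obtain ⟨j, hj⟩ : ∃ j, j = min a (2 * k - b) := ⟨_, rfl⟩
  obtain ⟨i, hi⟩ : ∃ i, i = min x (2 * w + 1 - y) := ⟨_, rfl⟩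
  rw [← hj, ← hi] at h1
  split_ifs at h1
  all_goals (try simp only [Prod.mk.injEq, Nat.reduceEqDiff, OfNat.ofNat_ne_zero, OfNat.ofNat_ne_one, OfNat.zero_ne_ofNat, OfNat.one_ne_ofNat, one_ne_zero, zero_ne_one, false_and, true_and] at h1)
  · left; omega
  · right; left; omega
  · right; right; omega

theorem specA3 (h1 : labA k w a b x y = (3, u, v, z)) :
    (a < b ∧ x = y ∧ x ≤ w ∧ u = x ∧ v = b ∧ z = 0) ∨
    (a < b ∧ x = y ∧ w < x ∧ u + x = 2 * w + 1 ∧ v = a + 1 ∧ z = 0) := by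
  simp only [labA] at h1
  obtain ⟨j, hj⟩ : ∃ j, j = min a (2 * k - b) := ⟨_, rfl⟩
  obtain ⟨i, hi⟩ : ∃ i, i = min x (2 * w + 1 - y) := ⟨_, rfl⟩
  rw [← hj, ← hi] at h1
  split_ifs at h1
  all_goals (try simp only [Prod.mk.injEq, Nat.reduceEqDiff, OfNat.ofNat_ne_zero, OfNat.ofNat_ne_one, OfNat.zero_ne_ofNat, OfNat.one_ne_ofNat, one_ne_zero, zero_ne_one, false_and, true_and] at h1)
  · left; omega
  · right; omega

end

theorem tagA (k w a b x y : ℕ) : (labA k w a b x y).1 ≤ 7 ∧ (labA k w a b x y).1 ≠ 4 ∧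
    (labA k w a b x y).1 ≠ 5 ∧ (labA k w a b x y).1 ≠ 6 := by
  simp only [labA]
  split_ifs <;> simp

theorem cliqueA : S_cliqueA := by
  rintro k w hk hw ⟨a, b, x, y⟩ ⟨a', b', x', y'⟩ h h' hl h7 hne
  have hne' : ¬ (a = a' ∧ b = b' ∧ x = x' ∧ y = y') := by
    rintro ⟨rfl, rfl, rfl, rfl⟩; exact hne rfl
  clear hne
  simp only [lA] at hl h7
  obtain ⟨t1, t2, t3, t4⟩ := tagA k w a b x y
  obtain ⟨⟨t, u, v, z⟩, hL⟩ : ∃ L : Q, L = labA k w a b x y := ⟨_, rfl⟩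
  rw [← hL] at t1 t2 t3 t4 h7
  simp only at t1 t2 t3 t4 h7
  have h1 := hL.symm
  have h2 := hl.symm.trans h1
  clear hL hl
  obtain ⟨g1, g2, g3, g4, g5⟩ := h
  obtain ⟨k1, k2, k3, k4, k5⟩ := h'
  simp only at g1 g2 g3 g4 g5 k1 k2 k3 k4 k5
  simp only [Conf, Le, Ov]
  have ht : t = 0 ∨ t = 1 ∨ t = 2 ∨ t = 3 := by omega
  clear t1 t2 t3 t4 h7
  rcases ht with rfl | rfl | rfl | rfl
  · rcases specA0 k w a b x y u v z hk hw g1 g2 g3 g4 g5 h1 with s | s | s <;>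
    rcases specA0 k w a' b' x' y' u v z hk hw k1 k2 k3 k4 k5 h2 with s' | s' | s'
    all_goals (clear h1 h2 g5 k5; omega)
  · rcases specA1 k w a b x y u v z hk hw g1 g2 g3 g4 g5 h1 with s | s | s <;>
    rcases specA1 k w a' b' x' y' u v z hk hw k1 k2 k3 k4 k5 h2 with s' | s' | s'
    all_goals (clear h1 h2 g5 k5; omega)
  · rcases specA2 k w a b x y u v z hk hw g1 g2 g3 g4 g5 h1 with s | s | s <;>
    rcases specA2 k w a' b' x' y' u v z hk hw k1 k2 k3 k4 k5 h2 with s' | s' | s'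
    all_goals (clear h1 h2 g5 k5; omega)
  · rcases specA3 k w a b x y u v z hk hw g1 g2 g3 g4 g5 h1 with s | s <;>
    rcases specA3 k w a' b' x' y' u v z hk hw k1 k2 k3 k4 k5 h2 with s' | s'
    all_goals (clear h1 h2 g5 k5; omega)

end Pool.Agent.Q11.TF
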