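import Pool.Agent.Q11.TF.StageB

/-!
# Description of the label classes of labB, tags 1, 3, 4, 5
-/

namespace Pool.Agent.Q11.TF

set_option maxHeartbeats 4000000
set_option linter.unusedVariables false
set_option linter.unusedSimpArgs false

theorem specB1 (n m e1 e2 a b x y u v w : ℕ)
    (he : n + 2 * e2 = m + 2 * e1) (h0 : e1 = 0 ∨ e2 = 0)
    (ha : a ≤ b) (hb : b ≤ n) (hx : x ≤ y) (hy : y ≤ m) (hv : a < b ∨ x < y)
    (h1 : labB n m e1 e2 a b x y = (1, u, v, w)) :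
    (a < b ∧ u = a ∧ v = b ∧ ((x + y ≤ m ∧ w = x) ∨ (m < x + y ∧ w + y = m)) ∧
      w + e1 ≤ a + e2 + 1 ∧ w + e1 + b ≤ n + e2 + 1 ∧
      ((w + e1 < a + e2 ∧ w + e1 + b < n + e2) ∨ (w - e2) % 2 = 1)) ∨
    (a < b ∧ x = y ∧ 2 * x ≤ m ∧ w = x ∧ u + 1 = b ∧ v = b ∧ (w - e2) % 2 = 0 ∧ e2 ≤ w) ∨
    (a < b ∧ x = y ∧ 2 * x ≤ m ∧ w = x + 1 ∧ u + 1 = b ∧ v = b ∧ (x - e2) % 2 = 0 ∧ e2 ≤ x ∧
      (b + e2 < w + e1 + 1 ∨ n + e2 < b + w + e1)) ∨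
    (a < b ∧ x = y ∧ m < 2 * x ∧ w + x = m ∧ u = a ∧ v = a + 1 ∧ (w - e2) % 2 = 0 ∧ e2 ≤ w) ∨
    (a < b ∧ x = y ∧ m < 2 * x ∧ w + x = m + 1 ∧ u = a ∧ v = a + 1 ∧ (w - 1 - e2) % 2 = 0 ∧
      e2 + 1 ≤ w ∧ (a + e2 < w + e1 ∨ n + e2 < a + w + e1 + 1)) ∨
    (b = a + 1 ∧ x = y ∧ 2 * x ≤ m ∧ w = x ∧ u = a ∧ v = b ∧ (w - e2) % 2 = 1 ∧
      (b + e2 ≤ w + e1 ∨ n + e2 + 1 < b + w + e1)) ∨
    (b = a + 1 ∧ x = y ∧ m < 2 * x ∧ w + x = m ∧ u = a ∧ v = b ∧ (w - e2) % 2 = 1 ∧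
      (n + e2 ≤ a + w + e1 ∨ a + e2 + 1 < w + e1)) ∨
    (a < b ∧ x = y ∧ 2 * x ≤ m ∧ w = x ∧ u + 1 + e2 = w + e1 ∧ v = b ∧ b + u = n ∧ a < u ∧
      (w - e2) % 2 = 1) ∨
    (a < b ∧ x = y ∧ 2 * x ≤ m ∧ w = x ∧ u + 1 = b ∧ v + w + e1 = n + e2 + 1 ∧ b < v ∧
      w + e1 < b + e2 ∧ (w - e2) % 2 = 1) ∨
    (a < b ∧ x = y ∧ m < 2 * x ∧ w + x = m ∧ u = a ∧ a + e2 + 1 = w + e1 ∧ v + u = n ∧ v < b ∧
      (w - e2) % 2 = 1) ∨
    (a < b ∧ x = y ∧ m < 2 * x ∧ w + x = m ∧ u + 1 + e2 = w + e1 ∧ v = a + 1 ∧ u < a ∧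
      a + u + 2 ≤ n ∧ (w - e2) % 2 = 1) := by
  rw [labB_eq] at h1
  obtain ⟨j, hj⟩ : ∃ j, j = min a (n-b) := ⟨_, rfl⟩
  obtain ⟨i, hi⟩ : ∃ i, i = min x (m-y) := ⟨_, rfl⟩
  rw [← hj, ← hi] at h1
  simp only [B0] at h1
  split_ifs at h1
  all_goals (try simp only [B1, B2, B3u, B3s, B3l] at h1)
  all_goals (try split_ifs at h1)
  all_goals (try simp only [Prod.mk.injEq, Nat.reduceEqDiff, OfNat.ofNat_ne_zero, OfNat.ofNat_ne_one, OfNat.zero_ne_ofNat, OfNat.one_ne_ofNat, one_ne_zero, zero_ne_one, false_and, true_and] at h1)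
  · left; omega
  · left; omega
  · right; left; omega
  · right; right; left; omega
  · right; right; right; left; omega
  · right; right; right; right; left; omega
  · right; right; right; right; right; left; omega
  · right; right; right; right; right; right; right; left; omega
  · right; right; right; right; right; right; right; right; left; omega
  · right; right; right; right; right; left; omega
  · right; right; right; right; right; right; left; omega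
  · right; right; right; right; right; right; right; right; right; left; omega
  · right; right; right; right; right; right; right; right; right; right; omega
  · right; right; right; right; right; right; left; omega

theorem specB3 (n m e1 e2 a b x y u v w : ℕ)
    (he : n + 2 * e2 = m + 2 * e1) (h0 : e1 = 0 ∨ e2 = 0)
    (ha : a ≤ b) (hb : b ≤ n) (hx : x ≤ y) (hy : y ≤ m) (hv : a < b ∨ x < y)
    (h1 : labB n m e1 e2 a b x y = (3, u, v, w)) :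
    (a < b ∧ x = y ∧ 2 * x ≤ m ∧ u = x ∧ v = b ∧ m < 2 * u + 3 ∧ w = 0 ∧ (u - e2) % 2 = 0) ∨
    (a < b ∧ x = y ∧ m < 2 * x ∧ u + x = m ∧ v = a + 1 ∧ m < 2 * u + 3 ∧ w = 0 ∧
      (u - e2) % 2 = 0) := by
  rw [labB_eq] at h1
  obtain ⟨j, hj⟩ : ∃ j, j = min a (n-b) := ⟨_, rfl⟩
  obtain ⟨i, hi⟩ : ∃ i, i = min x (m-y) := ⟨_, rfl⟩
  rw [← hj, ← hi] at h1
  simp only [B0] at h1
  split_ifs at h1
  all_goals (try simp only [B1, B2, B3u, B3s, B3l] at h1)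
  all_goals (try split_ifs at h1)
  all_goals (try simp only [Prod.mk.injEq, Nat.reduceEqDiff, OfNat.ofNat_ne_zero, OfNat.ofNat_ne_one, OfNat.zero_ne_ofNat, OfNat.one_ne_ofNat, one_ne_zero, zero_ne_one, false_and, true_and] at h1)
  · left; omega
  · right; omega

theorem specB4 (n m e1 e2 a b x y u v w : ℕ)
    (he : n + 2 * e2 = m + 2 * e1) (h0 : e1 = 0 ∨ e2 = 0)
    (ha : a ≤ b) (hb : b ≤ n) (hx : x ≤ y) (hy : y ≤ m) (hv : a < b ∨ x < y)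
    (h1 : labB n m e1 e2 a b x y = (4, u, v, w)) :
    (a + 2 ≤ b ∧ x = y ∧ 2 * x ≤ m ∧ u = x ∧ v = b ∧ w = 0 ∧ (u - e2) % 2 = 1 ∧
      b + e2 ≤ u + e1) ∨
    (a + 2 ≤ b ∧ x = y ∧ m < 2 * x ∧ u + x = m ∧ v = a + 2 ∧ w = 0 ∧ (u - e2) % 2 = 1 ∧
      a + e2 + 1 < u + e1) := by
  rw [labB_eq] at h1
  obtain ⟨j, hj⟩ : ∃ j, j = min a (n-b) := ⟨_, rfl⟩
  obtain ⟨i, hi⟩ : ∃ i, i = min x (m-y) := ⟨_, rfl⟩
  rw [← hj, ← hi] at h1
  simp only [B0] at h1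
  split_ifs at h1
  all_goals (try simp only [B1, B2, B3u, B3s, B3l] at h1)
  all_goals (try split_ifs at h1)
  all_goals (try simp only [Prod.mk.injEq, Nat.reduceEqDiff, OfNat.ofNat_ne_zero, OfNat.ofNat_ne_one, OfNat.zero_ne_ofNat, OfNat.one_ne_ofNat, one_ne_zero, zero_ne_one, false_and, true_and] at h1)
  · left; omega
  · right; omega

theorem specB5 (n m e1 e2 a b x y u v w : ℕ)
    (he : n + 2 * e2 = m + 2 * e1) (h0 : e1 = 0 ∨ e2 = 0)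
    (ha : a ≤ b) (hb : b ≤ n) (hx : x ≤ y) (hy : y ≤ m) (hv : a < b ∨ x < y)
    (h1 : labB n m e1 e2 a b x y = (5, u, v, w)) :
    (a + 2 ≤ b ∧ x = y ∧ 2 * x ≤ m ∧ u = x ∧ v + 1 = b ∧ w = 0 ∧ (u - e2) % 2 = 1 ∧
      n + e2 + 1 < b + u + e1) ∨
    (a + 2 ≤ b ∧ x = y ∧ m < 2 * x ∧ u + x = m ∧ v = a + 1 ∧ w = 0 ∧ (u - e2) % 2 = 1 ∧
      n + e2 ≤ a + u + e1) := by
  rw [labB_eq] at h1
  obtain ⟨j, hj⟩ : ∃ j, j = min a (n-b) := ⟨_, rfl⟩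
  obtain ⟨i, hi⟩ : ∃ i, i = min x (m-y) := ⟨_, rfl⟩
  rw [← hj, ← hi] at h1
  simp only [B0] at h1
  split_ifs at h1
  all_goals (try simp only [B1, B2, B3u, B3s, B3l] at h1)
  all_goals (try split_ifs at h1)
  all_goals (try simp only [Prod.mk.injEq, Nat.reduceEqDiff, OfNat.ofNat_ne_zero, OfNat.ofNat_ne_one, OfNat.zero_ne_ofNat, OfNat.one_ne_ofNat, one_ne_zero, zero_ne_one, false_and, true_and] at h1)
  · left; omega
  · right; omega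

end Pool.Agent.Q11.TF
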