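import Pool.Agent.Q11.TF.SpecB
import Pool.Agent.Q11.TF.SpecB1

/-!
# The label classes of labB are cliques
-/

namespace Pool.Agent.Q11.TF

set_option maxHeartbeats 4000000
set_option linter.unusedVariables false

theorem pairB0 (n m e1 e2 a b x y a' b' x' y' u v w : ℕ)
    (he : n + 2 * e2 = m + 2 * e1) (h0 : e1 = 0 ∨ e2 = 0)
    (h : Val n m (a,b,x,y)) (h' : Val n m (a',b',x',y'))
    (h1 : labB n m e1 e2 a b x y = (0,u,v,w)) (h2 : labB n m e1 e2 a' b' x' y' = (0,u,v,w))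
    (hne : ¬ (a = a' ∧ b = b' ∧ x = x' ∧ y = y')) : Conf (a,b,x,y) (a',b',x',y') := by
  obtain ⟨g1, g2, g3, g4, g5⟩ := h
  obtain ⟨k1, k2, k3, k4, k5⟩ := h'
  simp only at g1 g2 g3 g4 g5 k1 k2 k3 k4 k5
  simp only [Conf, Le, Ov]
  rcases specB0 n m e1 e2 a b x y u v w he h0 g1 g2 g3 g4 g5 h1 with s | s | s | s | s <;>
  rcases specB0 n m e1 e2 a' b' x' y' u v w he h0 k1 k2 k3 k4 k5 h2 with t | t | t | t | t
  all_goals clear h1 h2 g5 k5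
  all_goals omega

theorem pairB1 (n m e1 e2 a b x y a' b' x' y' u v w : ℕ)
    (he : n + 2 * e2 = m + 2 * e1) (h0 : e1 = 0 ∨ e2 = 0)
    (h : Val n m (a,b,x,y)) (h' : Val n m (a',b',x',y'))
    (h1 : labB n m e1 e2 a b x y = (1,u,v,w)) (h2 : labB n m e1 e2 a' b' x' y' = (1,u,v,w))
    (hne : ¬ (a = a' ∧ b = b' ∧ x = x' ∧ y = y')) : Conf (a,b,x,y) (a',b',x',y') := by
  obtain ⟨g1, g2, g3, g4, g5⟩ := h
  obtain ⟨k1, k2, k3, k4, k5⟩ := h'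
  simp only at g1 g2 g3 g4 g5 k1 k2 k3 k4 k5
  simp only [Conf, Le, Ov]
  rcases specB1 n m e1 e2 a b x y u v w he h0 g1 g2 g3 g4 g5 h1 with
    s | s | s | s | s | s | s | s | s | s | s <;>
  rcases specB1 n m e1 e2 a' b' x' y' u v w he h0 k1 k2 k3 k4 k5 h2 with
    t | t | t | t | t | t | t | t | t | t | t
  all_goals clear h1 h2 g5 k5
  all_goals omega

theorem pairB2 (n m e1 e2 a b x y a' b' x' y' u v w : ℕ)
    (he : n + 2 * e2 = m + 2 * e1) (h0 : e1 = 0 ∨ e2 = 0)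
    (h : Val n m (a,b,x,y)) (h' : Val n m (a',b',x',y'))
    (h1 : labB n m e1 e2 a b x y = (2,u,v,w)) (h2 : labB n m e1 e2 a' b' x' y' = (2,u,v,w))
    (hne : ¬ (a = a' ∧ b = b' ∧ x = x' ∧ y = y')) : Conf (a,b,x,y) (a',b',x',y') := by
  obtain ⟨g1, g2, g3, g4, g5⟩ := h
  obtain ⟨k1, k2, k3, k4, k5⟩ := h'
  simp only at g1 g2 g3 g4 g5 k1 k2 k3 k4 k5
  simp only [Conf, Le, Ov]
  rcases specB2 n m e1 e2 a b x y u v w he h0 g1 g2 g3 g4 g5 h1 with s | s <;>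
  rcases specB2 n m e1 e2 a' b' x' y' u v w he h0 k1 k2 k3 k4 k5 h2 with t | t
  all_goals clear h1 h2 g5 k5
  all_goals omega

theorem pairB3 (n m e1 e2 a b x y a' b' x' y' u v w : ℕ)
    (he : n + 2 * e2 = m + 2 * e1) (h0 : e1 = 0 ∨ e2 = 0)
    (h : Val n m (a,b,x,y)) (h' : Val n m (a',b',x',y'))
    (h1 : labB n m e1 e2 a b x y = (3,u,v,w)) (h2 : labB n m e1 e2 a' b' x' y' = (3,u,v,w))
    (hne : ¬ (a = a' ∧ b = b' ∧ x = x' ∧ y = y')) : Conf (a,b,x,y) (a',b',x',y') := by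
  obtain ⟨g1, g2, g3, g4, g5⟩ := h
  obtain ⟨k1, k2, k3, k4, k5⟩ := h'
  simp only at g1 g2 g3 g4 g5 k1 k2 k3 k4 k5
  simp only [Conf, Le, Ov]
  rcases specB3 n m e1 e2 a b x y u v w he h0 g1 g2 g3 g4 g5 h1 with s | s <;>
  rcases specB3 n m e1 e2 a' b' x' y' u v w he h0 k1 k2 k3 k4 k5 h2 with t | t
  all_goals clear h1 h2 g5 k5
  all_goals omega

theorem pairB4 (n m e1 e2 a b x y a' b' x' y' u v w : ℕ)
    (he : n + 2 * e2 = m + 2 * e1) (h0 : e1 = 0 ∨ e2 = 0)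
    (h : Val n m (a,b,x,y)) (h' : Val n m (a',b',x',y'))
    (h1 : labB n m e1 e2 a b x y = (4,u,v,w)) (h2 : labB n m e1 e2 a' b' x' y' = (4,u,v,w))
    (hne : ¬ (a = a' ∧ b = b' ∧ x = x' ∧ y = y')) : Conf (a,b,x,y) (a',b',x',y') := by
  obtain ⟨g1, g2, g3, g4, g5⟩ := h
  obtain ⟨k1, k2, k3, k4, k5⟩ := h'
  simp only at g1 g2 g3 g4 g5 k1 k2 k3 k4 k5
  simp only [Conf, Le, Ov]
  rcases specB4 n m e1 e2 a b x y u v w he h0 g1 g2 g3 g4 g5 h1 with s | s <;>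
  rcases specB4 n m e1 e2 a' b' x' y' u v w he h0 k1 k2 k3 k4 k5 h2 with t | t
  all_goals clear h1 h2 g5 k5
  all_goals omega

theorem pairB5 (n m e1 e2 a b x y a' b' x' y' u v w : ℕ)
    (he : n + 2 * e2 = m + 2 * e1) (h0 : e1 = 0 ∨ e2 = 0)
    (h : Val n m (a,b,x,y)) (h' : Val n m (a',b',x',y'))
    (h1 : labB n m e1 e2 a b x y = (5,u,v,w)) (h2 : labB n m e1 e2 a' b' x' y' = (5,u,v,w))
    (hne : ¬ (a = a' ∧ b = b' ∧ x = x' ∧ y = y')) : Conf (a,b,x,y) (a',b',x',y') := by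
  obtain ⟨g1, g2, g3, g4, g5⟩ := h
  obtain ⟨k1, k2, k3, k4, k5⟩ := h'
  simp only at g1 g2 g3 g4 g5 k1 k2 k3 k4 k5
  simp only [Conf, Le, Ov]
  rcases specB5 n m e1 e2 a b x y u v w he h0 g1 g2 g3 g4 g5 h1 with s | s <;>
  rcases specB5 n m e1 e2 a' b' x' y' u v w he h0 k1 k2 k3 k4 k5 h2 with t | t
  all_goals clear h1 h2 g5 k5
  all_goals omega

/-- the tag of a label of labB is at most 5 -/
theorem tagB (n m e1 e2 a b x y : ℕ) : (labB n m e1 e2 a b x y).1 ≤ 5 := by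
  rw [labB_eq]
  simp only [B0]
  split_ifs
  all_goals (try simp only [B1, B2, B3u, B3s, B3l])
  all_goals (try split_ifs)
  all_goals simp

theorem pairB (n m e1 e2 : ℕ) (he : n + 2 * e2 = m + 2 * e1) (h0 : e1 = 0 ∨ e2 = 0)
    (a b x y a' b' x' y' : ℕ) (h : Val n m (a,b,x,y)) (h' : Val n m (a',b',x',y'))
    (hl : labB n m e1 e2 a b x y = labB n m e1 e2 a' b' x' y')
    (hne : ¬ (a = a' ∧ b = b' ∧ x = x' ∧ y = y')) : Conf (a,b,x,y) (a',b',x',y') := by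
  have ht := tagB n m e1 e2 a b x y
  obtain ⟨⟨t, u, v, w⟩, hL⟩ : ∃ L : Q, L = labB n m e1 e2 a b x y := ⟨_, rfl⟩
  rw [← hL] at ht
  simp only at ht
  have h1 := hL.symm
  have h2 := hl.symm.trans h1
  interval_cases t
  · exact pairB0 n m e1 e2 a b x y a' b' x' y' u v w he h0 h h' h1 h2 hne
  · exact pairB1 n m e1 e2 a b x y a' b' x' y' u v w he h0 h h' h1 h2 hne
  · exact pairB2 n m e1 e2 a b x y a' b' x' y' u v w he h0 h h' h1 h2 hne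
  · exact pairB3 n m e1 e2 a b x y a' b' x' y' u v w he h0 h h' h1 h2 hne
  · exact pairB4 n m e1 e2 a b x y a' b' x' y' u v w he h0 h h' h1 h2 hne
  · exact pairB5 n m e1 e2 a b x y a' b' x' y' u v w he h0 h h' h1 h2 hne

theorem cliqueB : S_cliqueB := by
  rintro n m e1 e2 hn hm hn3 hm3 he h0 ⟨a, b, x, y⟩ ⟨a', b', x', y'⟩ h h' hl hne
  exact pairB n m e1 e2 he h0 a b x y a' b' x' y' h h' hl (by
    rintro ⟨rfl, rfl, rfl, rfl⟩; exact hne rfl)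

end Pool.Agent.Q11.TF
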