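import Pool.Agent.Q11.TF.CliqueB

/-!
# The label classes of labC are cliques
-/

namespace Pool.Agent.Q11.TF

set_option maxHeartbeats 4000000
set_option linter.unusedVariables false

/-- not special for labC -/
def NSC (k l a b x y : ℕ) : Prop :=
  ¬ (x = l ∧ y = l) ∧ ¬ (a = k ∧ b = k) ∧
  ¬ (x + 1 = l ∧ y = l + 1 ∧ ((a + 2 = k ∧ b + 1 = k) ∨ (a = k + 1 ∧ b = k + 2))) ∧
  ¬ (a + 1 = k ∧ b + 1 = k ∧ y = l + 1 ∧ x + 2 ≤ l) ∧
  ¬ (a = k + 1 ∧ b = k + 1 ∧ x + 1 = l ∧ l + 2 ≤ y)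

theorem specC (k l e1 e2 a b x y : ℕ) :
    ((x = l ∧ y = l ∧ b = a + 1 ∧ (b + 1 ≤ k ∨ k + 2 ≤ b)) ∧
      labC k l e1 e2 a b x y = (1, a, b, l - 1)) ∨
    ((x = l ∧ y = l ∧ ¬ (b = a + 1 ∧ (b + 1 ≤ k ∨ k + 2 ≤ b))) ∧
      labC k l e1 e2 a b x y = (8, 0, 0, 0)) ∨
    ((a = k ∧ b = k ∧ ¬ (x = l ∧ y = l) ∧ y = x + 1 ∧ (y + 1 ≤ l ∨ l + 2 ≤ y)) ∧
      labC k l e1 e2 a b x y = (2, k - 1, y, 0)) ∨
    ((a = k ∧ b = k ∧ ¬ (x = l ∧ y = l) ∧ ¬ (y = x + 1 ∧ (y + 1 ≤ l ∨ l + 2 ≤ y))) ∧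
      labC k l e1 e2 a b x y = (7, 0, 0, 0)) ∨
    ((x + 1 = l ∧ y = l + 1 ∧ ((a + 2 = k ∧ b + 1 = k) ∨ (a = k + 1 ∧ b = k + 2))) ∧
      labC k l e1 e2 a b x y = (0, k - 1, l - 1, l + 1)) ∨
    ((a + 1 = k ∧ b + 1 = k ∧ y = l + 1 ∧ x + 2 ≤ l) ∧
      labC k l e1 e2 a b x y = (0, k - 1, l, l + 1)) ∨
    ((a = k + 1 ∧ b = k + 1 ∧ x + 1 = l ∧ l + 2 ≤ y) ∧
      labC k l e1 e2 a b x y = (0, k - 1, l - 1, l)) ∨
    (NSC k l a b x y ∧
      labC k l e1 e2 a b x y = labB (2 * k) (2 * l) e1 e2 a b x y) := by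
  unfold labC
  split_ifs with h1 h2 h3 h4 h5 h6 h7
  · exact Or.inl ⟨⟨h1.1, h1.2, h2.1, h2.2⟩, rfl⟩
  · exact Or.inr (Or.inl ⟨⟨h1.1, h1.2, h2⟩, rfl⟩)
  · exact Or.inr (Or.inr (Or.inl ⟨⟨h3.1, h3.2, h1, h4.1, h4.2⟩, rfl⟩))
  · exact Or.inr (Or.inr (Or.inr (Or.inl ⟨⟨h3.1, h3.2, h1, h4⟩, rfl⟩)))
  · exact Or.inr (Or.inr (Or.inr (Or.inr (Or.inl ⟨h5, rfl⟩))))
  · exact Or.inr (Or.inr (Or.inr (Or.inr (Or.inr (Or.inl ⟨h6, rfl⟩)))))
  · exact Or.inr (Or.inr (Or.inr (Or.inr (Or.inr (Or.inr (Or.inl ⟨h7, rfl⟩))))))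
  · exact Or.inr (Or.inr (Or.inr (Or.inr (Or.inr (Or.inr (Or.inr
      ⟨⟨h1, h3, h5, h6, h7⟩, rfl⟩))))))

theorem parC {k l e1 e2 : ℕ} (hm : (min k l) % 2 = 0) (he : k + e2 = l + e1)
    (h0 : e1 = 0 ∨ e2 = 0) : (e1 = 0 ∧ k % 2 = 0) ∨ (e2 = 0 ∧ l % 2 = 0) := by
  rcases h0 with h | h
  · left
    rw [min_eq_left (by omega)] at hm
    exact ⟨h, hm⟩
  · right
    rw [min_eq_right (by omega)] at hm
    exact ⟨h, hm⟩

section mixed

variable (k l e1 e2 a b x y a' b' x' y' : ℕ) (hk : 2 ≤ k) (hl : 2 ≤ l)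
  (hm : (e1 = 0 ∧ k % 2 = 0) ∨ (e2 = 0 ∧ l % 2 = 0)) (he : k + e2 = l + e1)
  (h0 : e1 = 0 ∨ e2 = 0)
  (h : Val (2 * k) (2 * l) (a, b, x, y)) (h' : Val (2 * k) (2 * l) (a', b', x', y'))
include hk hl hm he h0 h h'

theorem mixX1 (c1 : x = l) (c2 : y = l) (c3 : b = a + 1) (c4 : b + 1 ≤ k ∨ k + 2 ≤ b)
    (h2 : labB (2 * k) (2 * l) e1 e2 a' b' x' y' = (1, a, b, l - 1))
    (hc : NSC k l a' b' x' y') : Conf (a,b,x,y) (a',b',x',y') := by
  obtain ⟨g1, g2, g3, g4, g5⟩ := h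
  obtain ⟨k1, k2, k3, k4, k5⟩ := h'
  simp only at g1 g2 g3 g4 g5 k1 k2 k3 k4 k5
  simp only [Conf, Le, Ov]
  simp only [NSC] at hc
  rcases specB1 (2 * k) (2 * l) e1 e2 a' b' x' y' _ _ _ (by omega) h0 k1 k2 k3 k4 k5 h2 with
    t | t | t | t | t | t | t | t | t | t | t
  all_goals clear h2 g5 k5
  all_goals omega

theorem mixX2 (c1 : a = k) (c2 : b = k) (c3 : y = x + 1) (c4 : y + 1 ≤ l ∨ l + 2 ≤ y)
    (h2 : labB (2 * k) (2 * l) e1 e2 a' b' x' y' = (2, k - 1, y, 0))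
    (hc : NSC k l a' b' x' y') : Conf (a,b,x,y) (a',b',x',y') := by
  obtain ⟨g1, g2, g3, g4, g5⟩ := h
  obtain ⟨k1, k2, k3, k4, k5⟩ := h'
  simp only at g1 g2 g3 g4 g5 k1 k2 k3 k4 k5
  simp only [Conf, Le, Ov]
  simp only [NSC] at hc
  rcases specB2 (2 * k) (2 * l) e1 e2 a' b' x' y' _ _ _ (by omega) h0 k1 k2 k3 k4 k5 h2 with
    t | t
  all_goals clear h2 g5 k5
  all_goals omega

theorem mixX3 (c1 : x + 1 = l) (c2 : y = l + 1)
    (c3 : (a + 2 = k ∧ b + 1 = k) ∨ (a = k + 1 ∧ b = k + 2))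
    (h2 : labB (2 * k) (2 * l) e1 e2 a' b' x' y' = (0, k - 1, l - 1, l + 1))
    (hc : NSC k l a' b' x' y') :
    Conf (a,b,x,y) (a',b',x',y') := by
  obtain ⟨g1, g2, g3, g4, g5⟩ := h
  obtain ⟨k1, k2, k3, k4, k5⟩ := h'
  simp only at g1 g2 g3 g4 g5 k1 k2 k3 k4 k5
  simp only [Conf, Le, Ov]
  simp only [NSC] at hc
  rcases specB0 (2 * k) (2 * l) e1 e2 a' b' x' y' _ _ _ (by omega) h0 k1 k2 k3 k4 k5 h2 with
    t | t | t | t | t
  all_goals clear h2 g5 k5
  all_goals omega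

theorem mixX4 (c1 : a + 1 = k) (c2 : b + 1 = k) (c3 : y = l + 1) (c4 : x + 2 ≤ l)
    (h2 : labB (2 * k) (2 * l) e1 e2 a' b' x' y' = (0, k - 1, l, l + 1))
    (hc : NSC k l a' b' x' y') :
    Conf (a,b,x,y) (a',b',x',y') := by
  obtain ⟨g1, g2, g3, g4, g5⟩ := h
  obtain ⟨k1, k2, k3, k4, k5⟩ := h'
  simp only at g1 g2 g3 g4 g5 k1 k2 k3 k4 k5
  simp only [Conf, Le, Ov]
  simp only [NSC] at hc
  rcases specB0 (2 * k) (2 * l) e1 e2 a' b' x' y' _ _ _ (by omega) h0 k1 k2 k3 k4 k5 h2 with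
    t | t | t | t | t
  all_goals clear h2 g5 k5
  all_goals omega

theorem mixX5 (c1 : a = k + 1) (c2 : b = k + 1) (c3 : x + 1 = l) (c4 : l + 2 ≤ y)
    (h2 : labB (2 * k) (2 * l) e1 e2 a' b' x' y' = (0, k - 1, l - 1, l))
    (hc : NSC k l a' b' x' y') :
    Conf (a,b,x,y) (a',b',x',y') := by
  obtain ⟨g1, g2, g3, g4, g5⟩ := h
  obtain ⟨k1, k2, k3, k4, k5⟩ := h'
  simp only at g1 g2 g3 g4 g5 k1 k2 k3 k4 k5
  simp only [Conf, Le, Ov]
  simp only [NSC] at hc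
  rcases specB0 (2 * k) (2 * l) e1 e2 a' b' x' y' _ _ _ (by omega) h0 k1 k2 k3 k4 k5 h2 with
    t | t | t | t | t
  all_goals clear h2 g5 k5
  all_goals omega

end mixed

theorem Conf.symm {p q : Q} (h : Conf p q) : Conf q p := by
  rcases h with h | h
  · exact Or.inr h
  · exact Or.inl h

theorem cliqueC : S_cliqueC := by
  rintro k l e1 e2 hk hl hm he h0 ⟨a, b, x, y⟩ ⟨a', b', x', y'⟩ h h' hL h7 h8 hne
  have hne' : ¬ (a = a' ∧ b = b' ∧ x = x' ∧ y = y') := by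
    rintro ⟨rfl, rfl, rfl, rfl⟩; exact hne rfl
  clear hne
  simp only [lC] at hL h7 h8
  have hm' := parC hm he h0
  rcases specC k l e1 e2 a b x y with ⟨s, es⟩ | ⟨s, es⟩ | ⟨s, es⟩ | ⟨s, es⟩ | ⟨s, es⟩ | ⟨s, es⟩ | ⟨s, es⟩ | ⟨s, es⟩ <;>
  rcases specC k l e1 e2 a' b' x' y' with ⟨t, et⟩ | ⟨t, et⟩ | ⟨t, et⟩ | ⟨t, et⟩ | ⟨t, et⟩ | ⟨t, et⟩ | ⟨t, et⟩ | ⟨t, et⟩
  · have hq := es.symm.trans (hL.trans et)
    simp only [Prod.mk.injEq] at hq
    all_goals (simp only [Val] at h h'; simp only [Conf, Le, Ov]; omega)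
  · exact (h8 (by rw [hL, et])).elim
  · have hq := es.symm.trans (hL.trans et)
    simp only [Prod.mk.injEq] at hq
    all_goals (simp only [Val] at h h'; simp only [Conf, Le, Ov]; omega)
  · exact (h7 (by rw [hL, et])).elim
  · have hq := es.symm.trans (hL.trans et)
    simp only [Prod.mk.injEq] at hq
    all_goals (simp only [Val] at h h'; simp only [Conf, Le, Ov]; omega)
  · have hq := es.symm.trans (hL.trans et)
    simp only [Prod.mk.injEq] at hq
    all_goals (simp only [Val] at h h'; simp only [Conf, Le, Ov]; omega)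
  · have hq := es.symm.trans (hL.trans et)
    simp only [Prod.mk.injEq] at hq
    all_goals (simp only [Val] at h h'; simp only [Conf, Le, Ov]; omega)
  · exact mixX1 k l e1 e2 a b x y a' b' x' y' hk hl hm' he h0 h h' s.1 s.2.1 s.2.2.1 s.2.2.2
      (et.symm.trans (hL.symm.trans es)) t
  · exact (h8 (by rw [es])).elim
  · exact (h8 (by rw [es])).elim
  · exact (h8 (by rw [es])).elim
  · exact (h8 (by rw [es])).elim
  · exact (h8 (by rw [es])).elim
  · exact (h8 (by rw [es])).elim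
  · exact (h8 (by rw [es])).elim
  · exact (h8 (by rw [es])).elim
  · have hq := es.symm.trans (hL.trans et)
    simp only [Prod.mk.injEq] at hq
    all_goals (simp only [Val] at h h'; simp only [Conf, Le, Ov]; omega)
  · exact (h8 (by rw [hL, et])).elim
  · have hq := es.symm.trans (hL.trans et)
    simp only [Prod.mk.injEq] at hq
    all_goals (simp only [Val] at h h'; simp only [Conf, Le, Ov]; omega)
  · exact (h7 (by rw [hL, et])).elim
  · have hq := es.symm.trans (hL.trans et)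
    simp only [Prod.mk.injEq] at hq
    all_goals (simp only [Val] at h h'; simp only [Conf, Le, Ov]; omega)
  · have hq := es.symm.trans (hL.trans et)
    simp only [Prod.mk.injEq] at hq
    all_goals (simp only [Val] at h h'; simp only [Conf, Le, Ov]; omega)
  · have hq := es.symm.trans (hL.trans et)
    simp only [Prod.mk.injEq] at hq
    all_goals (simp only [Val] at h h'; simp only [Conf, Le, Ov]; omega)
  · exact mixX2 k l e1 e2 a b x y a' b' x' y' hk hl hm' he h0 h h' s.1 s.2.1 s.2.2.2.1 s.2.2.2.2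
      (et.symm.trans (hL.symm.trans es)) t
  · exact (h7 (by rw [es])).elim
  · exact (h7 (by rw [es])).elim
  · exact (h7 (by rw [es])).elim
  · exact (h7 (by rw [es])).elim
  · exact (h7 (by rw [es])).elim
  · exact (h7 (by rw [es])).elim
  · exact (h7 (by rw [es])).elim
  · exact (h7 (by rw [es])).elim
  · have hq := es.symm.trans (hL.trans et)
    simp only [Prod.mk.injEq] at hq
    all_goals (simp only [Val] at h h'; simp only [Conf, Le, Ov]; omega)
  · exact (h8 (by rw [hL, et])).elim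
  · have hq := es.symm.trans (hL.trans et)
    simp only [Prod.mk.injEq] at hq
    all_goals (simp only [Val] at h h'; simp only [Conf, Le, Ov]; omega)
  · exact (h7 (by rw [hL, et])).elim
  · have hq := es.symm.trans (hL.trans et)
    simp only [Prod.mk.injEq] at hq
    all_goals (simp only [Val] at h h'; simp only [Conf, Le, Ov]; omega)
  · have hq := es.symm.trans (hL.trans et)
    simp only [Prod.mk.injEq] at hq
    all_goals (simp only [Val] at h h'; simp only [Conf, Le, Ov]; omega)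
  · have hq := es.symm.trans (hL.trans et)
    simp only [Prod.mk.injEq] at hq
    all_goals (simp only [Val] at h h'; simp only [Conf, Le, Ov]; omega)
  · exact mixX3 k l e1 e2 a b x y a' b' x' y' hk hl hm' he h0 h h' s.1 s.2.1 s.2.2
      (et.symm.trans (hL.symm.trans es)) t
  · have hq := es.symm.trans (hL.trans et)
    simp only [Prod.mk.injEq] at hq
    all_goals (simp only [Val] at h h'; simp only [Conf, Le, Ov]; omega)
  · exact (h8 (by rw [hL, et])).elim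
  · have hq := es.symm.trans (hL.trans et)
    simp only [Prod.mk.injEq] at hq
    all_goals (simp only [Val] at h h'; simp only [Conf, Le, Ov]; omega)
  · exact (h7 (by rw [hL, et])).elim
  · have hq := es.symm.trans (hL.trans et)
    simp only [Prod.mk.injEq] at hq
    all_goals (simp only [Val] at h h'; simp only [Conf, Le, Ov]; omega)
  · have hq := es.symm.trans (hL.trans et)
    simp only [Prod.mk.injEq] at hq
    all_goals (simp only [Val] at h h'; simp only [Conf, Le, Ov]; omega)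
  · have hq := es.symm.trans (hL.trans et)
    simp only [Prod.mk.injEq] at hq
    all_goals (simp only [Val] at h h'; simp only [Conf, Le, Ov]; omega)
  · exact mixX4 k l e1 e2 a b x y a' b' x' y' hk hl hm' he h0 h h' s.1 s.2.1 s.2.2.1 s.2.2.2
      (et.symm.trans (hL.symm.trans es)) t
  · have hq := es.symm.trans (hL.trans et)
    simp only [Prod.mk.injEq] at hq
    all_goals (simp only [Val] at h h'; simp only [Conf, Le, Ov]; omega)
  · exact (h8 (by rw [hL, et])).elim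
  · have hq := es.symm.trans (hL.trans et)
    simp only [Prod.mk.injEq] at hq
    all_goals (simp only [Val] at h h'; simp only [Conf, Le, Ov]; omega)
  · exact (h7 (by rw [hL, et])).elim
  · have hq := es.symm.trans (hL.trans et)
    simp only [Prod.mk.injEq] at hq
    all_goals (simp only [Val] at h h'; simp only [Conf, Le, Ov]; omega)
  · have hq := es.symm.trans (hL.trans et)
    simp only [Prod.mk.injEq] at hq
    all_goals (simp only [Val] at h h'; simp only [Conf, Le, Ov]; omega)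
  · have hq := es.symm.trans (hL.trans et)
    simp only [Prod.mk.injEq] at hq
    all_goals (simp only [Val] at h h'; simp only [Conf, Le, Ov]; omega)
  · exact mixX5 k l e1 e2 a b x y a' b' x' y' hk hl hm' he h0 h h' s.1 s.2.1 s.2.2.1 s.2.2.2
      (et.symm.trans (hL.symm.trans es)) t
  · exact (mixX1 k l e1 e2 a' b' x' y' a b x y hk hl hm' he h0 h' h t.1 t.2.1 t.2.2.1 t.2.2.2
      (es.symm.trans (hL.trans et)) s).symm
  · exact (h8 (by rw [hL, et])).elim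
  · exact (mixX2 k l e1 e2 a' b' x' y' a b x y hk hl hm' he h0 h' h t.1 t.2.1 t.2.2.2.1 t.2.2.2.2
      (es.symm.trans (hL.trans et)) s).symm
  · exact (h7 (by rw [hL, et])).elim
  · exact (mixX3 k l e1 e2 a' b' x' y' a b x y hk hl hm' he h0 h' h t.1 t.2.1 t.2.2
      (es.symm.trans (hL.trans et)) s).symm
  · exact (mixX4 k l e1 e2 a' b' x' y' a b x y hk hl hm' he h0 h' h t.1 t.2.1 t.2.2.1 t.2.2.2
      (es.symm.trans (hL.trans et)) s).symm
  · exact (mixX5 k l e1 e2 a' b' x' y' a b x y hk hl hm' he h0 h' h t.1 t.2.1 t.2.2.1 t.2.2.2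
      (es.symm.trans (hL.trans et)) s).symm
  · exact pairB (2 * k) (2 * l) e1 e2 (by omega) h0 a b x y a' b' x' y' h h'
      (es.symm.trans (hL.trans et)) hne'

end Pool.Agent.Q11.TF
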