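import Pool.Agent.Q11.TF.SpecD1
import Pool.Agent.Q11.TF.CliqueC

/-!
# The label classes of labD are cliques, tag 1
-/

namespace Pool.Agent.Q11.TF

set_option maxHeartbeats 4000000
set_option linter.unusedVariables false

theorem mixD1 (k l e1 e2 a b x y a' b' x' y' u v w : ℕ)
    (hk : 3 ≤ k) (hl : 3 ≤ l)
    (he : k + e2 = l + e1) (h0 : e1 = 0 ∨ e2 = 0)
    (g1 : a ≤ b) (g2 : b ≤ 2 * k) (g3 : x ≤ y) (g4 : y ≤ 2 * l)
    (h' : Val (2 * k) (2 * l) (a', b', x', y'))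
    (s : (k ≤ a + 1 ∧ b ≤ k + 1 ∧ a < b ∧ x + 2 = l ∧ y + 2 = l ∧ u + 1 = b ∧ v = k + 3 ∧
        w + 2 = l) ∨
      (k ≤ a + 1 ∧ b ≤ k + 1 ∧ a < b ∧ x = l + 2 ∧ y = l + 2 ∧ u + 3 = k ∧ v = a + 1 ∧
        w + 2 = l))
    (hn : NSD k l a' b' x' y' (min a' (2 * k - b')) (min x' (2 * l - y')))
    (h2 : labB (2 * k) (2 * l) e1 e2 a' b' x' y' = (1, u, v, w)) :
    Conf (a,b,x,y) (a',b',x',y') := by
  obtain ⟨k1, k2, k3, k4, k5⟩ := h'
  simp only at k1 k2 k3 k4 k5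
  simp only [Conf, Le, Ov]
  have hj := hn.2.2.2.1
  clear hn
  rcases specB1 (2 * k) (2 * l) e1 e2 a' b' x' y' _ _ _ (by omega) h0 k1 k2 k3 k4 k5 h2 with
    t | t | t | t | t | t | t | t | t | t | t
  all_goals clear h2 k5
  all_goals rcases s with s | s
  all_goals omega

theorem pairD1 (k l e1 e2 a b x y a' b' x' y' u v w : ℕ)
    (hk : 3 ≤ k) (hl : 3 ≤ l)
    (hm : (e1 = 0 ∧ k % 2 = 1) ∨ (e2 = 0 ∧ l % 2 = 1)) (he : k + e2 = l + e1)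
    (h0 : e1 = 0 ∨ e2 = 0)
    (h : Val (2 * k) (2 * l) (a, b, x, y)) (h' : Val (2 * k) (2 * l) (a', b', x', y'))
    (h1 : labD k l e1 e2 a b x y = (1, u, v, w))
    (h2 : labD k l e1 e2 a' b' x' y' = (1, u, v, w))
    (hne : ¬ (a = a' ∧ b = b' ∧ x = x' ∧ y = y')) : Conf (a,b,x,y) (a',b',x',y') := by
  have g := h
  have g' := h'
  obtain ⟨g1, g2, g3, g4, g5⟩ := g
  obtain ⟨k1, k2, k3, k4, k5⟩ := g'
  simp only at g1 g2 g3 g4 g5 k1 k2 k3 k4 k5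
  rcases specD1 k l e1 e2 a b x y u v w hk hl hm he h0 g1 g2 g3 g4 g5 h1 with
    s | s | s | s | s | s | ⟨hu, hn, hb⟩ <;>
  rcases specD1 k l e1 e2 a' b' x' y' u v w hk hl hm he h0 k1 k2 k3 k4 k5 h2 with
    t | t | t | t | t | t | ⟨hu', hn', hb'⟩
  · clear h1 h2 h h' hm he h0 g2 g4 k2 k4 g5 k5; simp only [Conf, Le, Ov]; omega
  · clear h1 h2 h h' hm he h0 g2 g4 k2 k4 g5 k5; simp only [Conf, Le, Ov]; omega
  · clear h1 h2 h h' hm he h0 g2 g4 k2 k4 g5 k5; simp only [Conf, Le, Ov]; omega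
  · clear h1 h2 h h' hm he h0 g2 g4 k2 k4 g5 k5; simp only [Conf, Le, Ov]; omega
  · clear h1 h2 h h' hm he h0 g2 g4 k2 k4 g5 k5; simp only [Conf, Le, Ov]; omega
  · clear h1 h2 h h' hm he h0 g2 g4 k2 k4 g5 k5; simp only [Conf, Le, Ov]; omega
  · exfalso; clear hn' hb' h1 h2; omega
  · clear h1 h2 h h' hm he h0 g2 g4 k2 k4 g5 k5; simp only [Conf, Le, Ov]; omega
  · clear h1 h2 h h' hm he h0 g2 g4 k2 k4 g5 k5; simp only [Conf, Le, Ov]; omega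
  · clear h1 h2 h h' hm he h0 g2 g4 k2 k4 g5 k5; simp only [Conf, Le, Ov]; omega
  · clear h1 h2 h h' hm he h0 g2 g4 k2 k4 g5 k5; simp only [Conf, Le, Ov]; omega
  · clear h1 h2 h h' hm he h0 g2 g4 k2 k4 g5 k5; simp only [Conf, Le, Ov]; omega
  · clear h1 h2 h h' hm he h0 g2 g4 k2 k4 g5 k5; simp only [Conf, Le, Ov]; omega
  · exact mixD1 k l e1 e2 a b x y a' b' x' y' u v w hk hl he h0 g1 g2 g3 g4 h'
      (Or.inl s) hn' hb'
  · clear h1 h2 h h' hm he h0 g2 g4 k2 k4 g5 k5; simp only [Conf, Le, Ov]; omega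
  · clear h1 h2 h h' hm he h0 g2 g4 k2 k4 g5 k5; simp only [Conf, Le, Ov]; omega
  · clear h1 h2 h h' hm he h0 g2 g4 k2 k4 g5 k5; simp only [Conf, Le, Ov]; omega
  · clear h1 h2 h h' hm he h0 g2 g4 k2 k4 g5 k5; simp only [Conf, Le, Ov]; omega
  · clear h1 h2 h h' hm he h0 g2 g4 k2 k4 g5 k5; simp only [Conf, Le, Ov]; omega
  · clear h1 h2 h h' hm he h0 g2 g4 k2 k4 g5 k5; simp only [Conf, Le, Ov]; omega
  · exact mixD1 k l e1 e2 a b x y a' b' x' y' u v w hk hl he h0 g1 g2 g3 g4 h'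
      (Or.inr s) hn' hb'
  · clear h1 h2 h h' hm he h0 g2 g4 k2 k4 g5 k5; simp only [Conf, Le, Ov]; omega
  · clear h1 h2 h h' hm he h0 g2 g4 k2 k4 g5 k5; simp only [Conf, Le, Ov]; omega
  · clear h1 h2 h h' hm he h0 g2 g4 k2 k4 g5 k5; simp only [Conf, Le, Ov]; omega
  · clear h1 h2 h h' hm he h0 g2 g4 k2 k4 g5 k5; simp only [Conf, Le, Ov]; omega
  · clear h1 h2 h h' hm he h0 g2 g4 k2 k4 g5 k5; simp only [Conf, Le, Ov]; omega
  · clear h1 h2 h h' hm he h0 g2 g4 k2 k4 g5 k5; simp only [Conf, Le, Ov]; omega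
  · exfalso; clear hn' hb' h1 h2; omega
  · clear h1 h2 h h' hm he h0 g2 g4 k2 k4 g5 k5; simp only [Conf, Le, Ov]; omega
  · clear h1 h2 h h' hm he h0 g2 g4 k2 k4 g5 k5; simp only [Conf, Le, Ov]; omega
  · clear h1 h2 h h' hm he h0 g2 g4 k2 k4 g5 k5; simp only [Conf, Le, Ov]; omega
  · clear h1 h2 h h' hm he h0 g2 g4 k2 k4 g5 k5; simp only [Conf, Le, Ov]; omega
  · clear h1 h2 h h' hm he h0 g2 g4 k2 k4 g5 k5; simp only [Conf, Le, Ov]; omega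
  · clear h1 h2 h h' hm he h0 g2 g4 k2 k4 g5 k5; simp only [Conf, Le, Ov]; omega
  · exfalso; clear hn' hb' h1 h2; omega
  · clear h1 h2 h h' hm he h0 g2 g4 k2 k4 g5 k5; simp only [Conf, Le, Ov]; omega
  · clear h1 h2 h h' hm he h0 g2 g4 k2 k4 g5 k5; simp only [Conf, Le, Ov]; omega
  · clear h1 h2 h h' hm he h0 g2 g4 k2 k4 g5 k5; simp only [Conf, Le, Ov]; omega
  · clear h1 h2 h h' hm he h0 g2 g4 k2 k4 g5 k5; simp only [Conf, Le, Ov]; omega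
  · clear h1 h2 h h' hm he h0 g2 g4 k2 k4 g5 k5; simp only [Conf, Le, Ov]; omega
  · clear h1 h2 h h' hm he h0 g2 g4 k2 k4 g5 k5; simp only [Conf, Le, Ov]; omega
  · exfalso; clear hn' hb' h1 h2; omega
  · exfalso; clear hn hb h1 h2; omega
  · exact (mixD1 k l e1 e2 a' b' x' y' a b x y u v w hk hl he h0 k1 k2 k3 k4 h
      (Or.inl t) hn hb).symm
  · exact (mixD1 k l e1 e2 a' b' x' y' a b x y u v w hk hl he h0 k1 k2 k3 k4 h
      (Or.inr t) hn hb).symm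
  · exfalso; clear hn hb h1 h2; omega
  · exfalso; clear hn hb h1 h2; omega
  · exfalso; clear hn hb h1 h2; omega
  · exact pairB1 (2 * k) (2 * l) e1 e2 a b x y a' b' x' y' u v w (by omega) h0 h h' hb hb' hne

end Pool.Agent.Q11.TF
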