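import Pool.Agent.Q11.TF.SpecD6

/-!
# The label classes of labD are cliques, tag 6
-/

namespace Pool.Agent.Q11.TF

set_option maxHeartbeats 4000000
set_option linter.unusedVariables false

theorem pairD6 (k l e1 e2 a b x y a' b' x' y' u v w : ℕ)
    (hk : 3 ≤ k) (hl : 3 ≤ l)
    (hm : (e1 = 0 ∧ k % 2 = 1) ∨ (e2 = 0 ∧ l % 2 = 1)) (he : k + e2 = l + e1)
    (h0 : e1 = 0 ∨ e2 = 0)
    (h : Val (2 * k) (2 * l) (a, b, x, y)) (h' : Val (2 * k) (2 * l) (a', b', x', y'))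
    (h1 : labD k l e1 e2 a b x y = (6, u, v, w))
    (h2 : labD k l e1 e2 a' b' x' y' = (6, u, v, w))
    (hne : ¬ (a = a' ∧ b = b' ∧ x = x' ∧ y = y')) : Conf (a,b,x,y) (a',b',x',y') := by
  have g := h
  have g' := h'
  obtain ⟨g1, g2, g3, g4, g5⟩ := g
  obtain ⟨k1, k2, k3, k4, k5⟩ := g'
  simp only at g1 g2 g3 g4 g5 k1 k2 k3 k4 k5
  obtain ⟨hv, hw, s⟩ := specD6 k l e1 e2 a b x y u v w hk hl hm he h0 g1 g2 g3 g4 g5 h1
  obtain ⟨hv', hw', t⟩ := specD6 k l e1 e2 a' b' x' y' u v w hk hl hm he h0 k1 k2 k3 k4 k5 h2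
  clear h1 h2 h h' hm he h0 g2 g4 k2 k4 g5 k5 hv hw hv' hw'
  simp only [Conf, Le, Ov]
  rcases s with ⟨s1, s2, s3, s4, s5, s6⟩ | s | s <;>
  rcases t with ⟨t1, t2, t3, t4, t5, t6⟩ | t | t
  · clear s6 t6
    rcases s4 with s4 | s4 <;> rcases t4 with t4 | t4 <;> rcases s1 with s1 | s1 <;>
    rcases s2 with s2 | s2 <;> rcases t1 with t1 | t1 <;> rcases t2 with t2 | t2 <;> omega
  · clear s5 s6
    rcases s4 with s4 | s4 <;> rcases s1 with s1 | s1 <;>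
    rcases s2 with s2 | s2 <;> omega
  · clear s5 s6
    rcases s4 with s4 | s4 <;> rcases s1 with s1 | s1 <;>
    rcases s2 with s2 | s2 <;> omega
  · clear t5 t6
    rcases t4 with t4 | t4 <;> rcases t1 with t1 | t1 <;>
    rcases t2 with t2 | t2 <;> omega
  · omega
  · omega
  · clear t5 t6
    rcases t4 with t4 | t4 <;> rcases t1 with t1 | t1 <;>
    rcases t2 with t2 | t2 <;> omega
  · omega
  · omega

end Pool.Agent.Q11.TF
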