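import Pool.Agent.Q11.TF.CliqueD0
import Pool.Agent.Q11.TF.CliqueD1
import Pool.Agent.Q11.TF.CliqueD2
import Pool.Agent.Q11.TF.CliqueD3
import Pool.Agent.Q11.TF.CliqueD6

/-!
# The label classes of labD are cliques
-/

namespace Pool.Agent.Q11.TF

set_option maxHeartbeats 4000000
set_option linter.unusedVariables false

theorem tagD (k l e1 e2 a b x y : ℕ) : (labD k l e1 e2 a b x y).1 ≤ 8 := by
  rw [labD_eq]
  simp only [D0]
  split_ifs
  all_goals (try simp only [D1, D2, D3, D4, D5, D6, D7, D8])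
  all_goals (try split_ifs)
  all_goals (try simp)
  exact le_trans (tagB _ _ _ _ _ _ _ _) (by norm_num)

theorem cliqueD : S_cliqueD := by
  rintro k l e1 e2 hk hl hm he h0 ⟨a, b, x, y⟩ ⟨a', b', x', y'⟩ h h' hL h7 h8 hne
  have hne' : ¬ (a = a' ∧ b = b' ∧ x = x' ∧ y = y') := by
    rintro ⟨rfl, rfl, rfl, rfl⟩; exact hne rfl
  clear hne
  simp only [lD] at hL h7 h8
  have hm' := parD hm he h0
  have ht := tagD k l e1 e2 a b x y
  obtain ⟨⟨t, u, v, w⟩, hL'⟩ : ∃ L : Q, L = labD k l e1 e2 a b x y := ⟨_, rfl⟩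
  rw [← hL'] at ht h7 h8
  simp only at ht h7 h8
  have h1 := hL'.symm
  have h2 := hL.symm.trans h1
  interval_cases t
  · exact pairD0 k l e1 e2 a b x y a' b' x' y' u v w hk hl hm' he h0 h h' h1 h2 hne'
  · exact pairD1 k l e1 e2 a b x y a' b' x' y' u v w hk hl hm' he h0 h h' h1 h2 hne'
  · exact pairD2 k l e1 e2 a b x y a' b' x' y' u v w hk hl hm' he h0 h h' h1 h2 hne'
  · exact pairD3 k l e1 e2 a b x y a' b' x' y' u v w hk hl hm' he h0 h h' h1 h2 hne'
  · exact pairD4 k l e1 e2 a b x y a' b' x' y' u v w hk hl hm' he h0 h h' h1 h2 hne'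
  · exact pairD5 k l e1 e2 a b x y a' b' x' y' u v w hk hl hm' he h0 h h' h1 h2 hne'
  · exact pairD6 k l e1 e2 a b x y a' b' x' y' u v w hk hl hm' he h0 h h' h1 h2 hne'
  · exact absurd rfl h7
  · exact absurd rfl h8

end Pool.Agent.Q11.TF
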