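import Pool.Agent.Q11.TF.Asm1

/-!
# The number of quadruples of middle rank
-/

namespace Pool.Agent.Q11.TF

open Finset Classical

/-- intervals in `[0,m]` -/
def Tr (m : ℕ) : Finset (ℕ × ℕ) :=
  ((range (m + 1)) ×ˢ (range (m + 1))).filter (fun t => t.1 ≤ t.2)

theorem mem_Tr {m : ℕ} {t : ℕ × ℕ} : t ∈ Tr m ↔ t.1 ≤ t.2 ∧ t.2 ≤ m := by
  unfold Tr
  simp only [Finset.mem_filter, Finset.mem_product, Finset.mem_range]
  omega

theorem card_Tr (m : ℕ) : (Tr m).card = (m + 2).choose 2 := by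
  induction m with
  | zero =>
    have : Tr 0 = {(0, 0)} := by
      ext ⟨x, y⟩
      rw [mem_Tr, Finset.mem_singleton, Prod.mk.injEq]
      simp only
      omega
    rw [this]
    rfl
  | succ m ih =>
    have h : Tr (m + 1) = Tr m ∪ (range (m + 2)).image (fun x => (x, m + 1)) := by
      ext ⟨x, y⟩
      rw [mem_Tr, Finset.mem_union, mem_Tr, Finset.mem_image]
      simp only [Finset.mem_range, Prod.mk.injEq]
      constructor
      · rintro ⟨h1, h2⟩
        by_cases hy : y = m + 1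
        · exact Or.inr ⟨x, by omega, rfl, hy.symm⟩
        · exact Or.inl ⟨h1, by omega⟩
      · rintro (⟨h1, h2⟩ | ⟨z, h1, rfl, rfl⟩)
        · exact ⟨h1, by omega⟩
        · exact ⟨by omega, by omega⟩
    rw [h, Finset.card_union_of_disjoint, ih, Finset.card_image_of_injective, Finset.card_range]
    · rw [Nat.choose_succ_succ' (m + 2) 1, Nat.choose_one_right]; ring
    · intro x y hxy
      simpa using hxy
    · rw [Finset.disjoint_left]
      rintro ⟨x, y⟩ h1 h2
      rw [mem_Tr] at h1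
      rw [Finset.mem_image] at h2
      obtain ⟨z, _, hz⟩ := h2
      rw [Prod.mk.injEq] at hz
      simp only at h1
      omega

/-- one step of two in the first coordinate -/
theorem step (n m R : ℕ) (hR : R % 2 = 1) :
    (Lset (n + 2) m (R + 2)).card = (Lset n m R).card +
      ((Tr m).filter (fun t => t.1 + t.2 ≤ R + 2 ∧ R ≤ t.1 + t.2 + 2 * n + 2)).card := by
  set f : Q → Q := fun p => (p.1 + 1, p.2.1 + 1, p.2.2.1, p.2.2.2) with hf
  set g : ℕ × ℕ → Q := fun t =>
    if R ≤ n + t.1 + t.2 then (0, R + 2 - t.1 - t.2, t.1, t.2)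
    else (R - n - t.1 - t.2, n + 2, t.1, t.2) with hg
  have h : Lset (n + 2) m (R + 2) = (Lset n m R).image f ∪
      ((Tr m).filter (fun t => t.1 + t.2 ≤ R + 2 ∧ R ≤ t.1 + t.2 + 2 * n + 2)).image g := by
    ext ⟨a, b, x, y⟩
    rw [mem_Lset, Finset.mem_union, Finset.mem_image, Finset.mem_image]
    constructor
    · rintro ⟨⟨h1, h2, h3, h4, h5⟩, h6⟩
      simp only [rk] at h1 h2 h3 h4 h5 h6
      by_cases hc : 1 ≤ a ∧ b ≤ n + 1
      · left
        refine ⟨(a - 1, b - 1, x, y), ?_, ?_⟩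
        · rw [mem_Lset]
          simp only [Val, rk]
          omega
        · simp only [hf, Prod.mk.injEq, and_true]
          omega
      · right
        refine ⟨(x, y), ?_, ?_⟩
        · rw [Finset.mem_filter, mem_Tr]
          simp only
          omega
        · simp only [hg]
          split_ifs <;> simp only [Prod.mk.injEq, and_true] <;> omega
    · rintro (⟨⟨a', b', x', y'⟩, h1, h2⟩ | ⟨⟨x', y'⟩, h1, h2⟩)
      · rw [mem_Lset] at h1
        obtain ⟨⟨h3, h4, h5, h6, h7⟩, h8⟩ := h1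
        simp only [rk] at h3 h4 h5 h6 h7 h8
        simp only [hf, Prod.mk.injEq] at h2
        simp only [Val, rk]
        omega
      · rw [Finset.mem_filter, mem_Tr] at h1
        simp only at h1
        simp only [hg] at h2
        simp only [Val, rk]
        split_ifs at h2 <;> simp only [Prod.mk.injEq] at h2 <;> omega
  rw [h, Finset.card_union_of_disjoint, Finset.card_image_of_injective,
    Finset.card_image_of_injOn]
  · rintro ⟨x, y⟩ _ ⟨x', y'⟩ _ h2
    simp only [hg] at h2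
    split_ifs at h2 <;> simp only [Prod.mk.injEq] at h2 ⊢ <;> omega
  · rintro ⟨a, b, x, y⟩ ⟨a', b', x', y'⟩ h2
    simp only [hf, Prod.mk.injEq] at h2 ⊢
    omega
  · rw [Finset.disjoint_left]
    rintro ⟨a, b, x, y⟩ h1 h2
    rw [Finset.mem_image] at h1 h2
    obtain ⟨⟨a', b', x', y'⟩, h1, h3⟩ := h1
    obtain ⟨⟨x1, y1⟩, h2, h4⟩ := h2
    rw [mem_Lset] at h1
    obtain ⟨⟨k3, k4, k5, k6, k7⟩, k8⟩ := h1
    simp only [rk] at k3 k4 k5 k6 k7 k8
    simp only [hf, Prod.mk.injEq] at h3
    simp only [hg] at h4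
    rw [Finset.mem_filter, mem_Tr] at h2
    simp only at h2
    split_ifs at h4 <;> simp only [Prod.mk.injEq] at h4 <;> omega

theorem swap (n m R : ℕ) : (Lset n m R).card = (Lset m n R).card := by
  refine Finset.card_bij' (fun p _ => (p.2.2.1, p.2.2.2, p.1, p.2.1))
    (fun p _ => (p.2.2.1, p.2.2.2, p.1, p.2.1)) ?_ ?_ ?_ ?_
  · rintro ⟨a, b, x, y⟩ h
    rw [mem_Lset] at h ⊢
    simp only [Val, rk] at h ⊢
    omega
  · rintro ⟨a, b, x, y⟩ h
    rw [mem_Lset] at h ⊢
    simp only [Val, rk] at h ⊢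
    omega
  · intro p _; rfl
  · intro p _; rfl

theorem stepAll (n m R : ℕ) (hR : R % 2 = 1) (h1 : 2 * m ≤ R + 2) (h2 : R ≤ 2 * n + 2) :
    (Lset (n + 2) m (R + 2)).card = (Lset n m R).card + (m + 2).choose 2 := by
  rw [step n m R hR, Finset.filter_true_of_mem, card_Tr]
  rintro ⟨x, y⟩ h
  rw [mem_Tr] at h
  simp only at h ⊢
  omega

/-- the base case n = m + 1 -/
theorem baseOdd (m : ℕ) : (Lset (m + 1) m (2 * m + 1)).card = (m + 3).choose 3 := by
  induction m using Nat.twoStepInduction with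
  | zero =>
    have : Lset 1 0 1 = {(0, 1, 0, 0)} := by
      ext ⟨a, b, x, y⟩
      rw [mem_Lset, Finset.mem_singleton]
      simp only [Val, rk, Prod.mk.injEq]
      omega
    simp only [Nat.zero_add, Nat.mul_zero]
    rw [this]; rfl
  | one =>
    have : Lset 2 1 3 = {(0, 1, 1, 1), (0, 2, 0, 1), (1, 1, 0, 1), (1, 2, 0, 0)} := by
      ext ⟨a, b, x, y⟩
      rw [mem_Lset]
      simp only [Finset.mem_insert, Finset.mem_singleton, Val, rk, Prod.mk.injEq]
      omega
    show (Lset 2 1 3).card = _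
    rw [this]; rfl
  | more m ih _ =>
    have e1 := stepAll (m + 1) m (2 * m + 1) (by omega) (by omega) (by omega)
    have e2 := step m (m + 3) (2 * m + 3) (by omega)
    have e3 : ((Tr (m + 3)).filter (fun t => t.1 + t.2 ≤ 2 * m + 3 + 2 ∧
        2 * m + 3 ≤ t.1 + t.2 + 2 * m + 2)).card + 2 = (m + 5).choose 2 := by
      rw [← card_Tr (m + 3)]
      have hs : Tr (m + 3) = (Tr (m + 3)).filter (fun t => t.1 + t.2 ≤ 2 * m + 3 + 2 ∧
        2 * m + 3 ≤ t.1 + t.2 + 2 * m + 2) ∪ {(0, 0), (m + 3, m + 3)} := by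
        ext ⟨x, y⟩
        simp only [Finset.mem_union, Finset.mem_filter, mem_Tr, Finset.mem_insert,
          Finset.mem_singleton, Prod.mk.injEq]
        omega
      conv_rhs => rw [hs]
      rw [Finset.card_union_of_disjoint, Finset.card_pair]
      · simp
      · rw [Finset.disjoint_left]
        rintro ⟨x, y⟩ h1 h2
        simp only [Finset.mem_filter, mem_Tr, Finset.mem_insert,
          Finset.mem_singleton, Prod.mk.injEq] at h1 h2
        omega
    have e4 : (Lset (m + 2 + 1) (m + 2) (2 * (m + 2) + 1)).card =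
        (Lset (m + 2) (m + 3) (2 * m + 3 + 2)).card := by
      have e6 : 2 * (m + 2) + 1 = 2 * m + 3 + 2 := by ring
      rw [e6]
      exact swap _ _ _
    have e5 : (Lset m (m + 3) (2 * m + 3)).card = (Lset (m + 1 + 2) m (2 * m + 1 + 2)).card := by
      rw [swap]
    rw [e4, e2, e5, e1, ih]
    have c1 : (m + 2 + 3).choose 3 = (m + 4).choose 2 + (m + 4).choose 3 :=
      Nat.choose_succ_succ' (m + 4) 2
    have c2 : (m + 4).choose 3 = (m + 3).choose 2 + (m + 3).choose 3 :=
      Nat.choose_succ_succ' (m + 3) 2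
    have c3 : (m + 5).choose 2 = (m + 4).choose 1 + (m + 4).choose 2 :=
      Nat.choose_succ_succ' (m + 4) 1
    have c4 : (m + 3).choose 2 = (m + 2).choose 1 + (m + 2).choose 2 :=
      Nat.choose_succ_succ' (m + 2) 1
    rw [Nat.choose_one_right] at c3 c4
    omega

/-- the base case n = m -/
theorem baseEven (m : ℕ) : (Lset (m + 1) (m + 1) (2 * m + 1)).card + (m + 3) ^ 2 / 4 =
    (m + 4).choose 3 := by
  induction m using Nat.twoStepInduction with
  | zero =>
    have : Lset 1 1 1 = {(0, 1, 0, 0), (0, 0, 0, 1)} := by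
      ext ⟨a, b, x, y⟩
      rw [mem_Lset]
      simp only [Finset.mem_insert, Finset.mem_singleton, Val, rk, Prod.mk.injEq]
      omega
    show (Lset 1 1 1).card + _ = _
    rw [this]; rfl
  | one =>
    have : Lset 2 2 3 = {(0, 1, 0, 2), (0, 1, 1, 1), (0, 2, 0, 1), (1, 1, 0, 1), (0, 0, 1, 2),
        (1, 2, 0, 0)} := by
      ext ⟨a, b, x, y⟩
      rw [mem_Lset]
      simp only [Finset.mem_insert, Finset.mem_singleton, Val, rk, Prod.mk.injEq]
      omega
    show (Lset 2 2 3).card + _ = _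
    rw [this]; rfl
  | more m ih _ =>
    have e1 := stepAll (m + 1) (m + 1) (2 * m + 1) (by omega) (by omega) (by omega)
    have e2 := step (m + 1) (m + 3) (2 * m + 3) (by omega)
    have e3 : ((Tr (m + 3)).filter (fun t => t.1 + t.2 ≤ 2 * m + 3 + 2 ∧
        2 * m + 3 ≤ t.1 + t.2 + 2 * (m + 1) + 2)).card + 1 = (m + 5).choose 2 := by
      rw [← card_Tr (m + 3)]
      have hs : Tr (m + 3) = (Tr (m + 3)).filter (fun t => t.1 + t.2 ≤ 2 * m + 3 + 2 ∧
        2 * m + 3 ≤ t.1 + t.2 + 2 * (m + 1) + 2) ∪ {(m + 3, m + 3)} := by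
        ext ⟨x, y⟩
        simp only [Finset.mem_union, Finset.mem_filter, mem_Tr,
          Finset.mem_singleton, Prod.mk.injEq]
        omega
      conv_rhs => rw [hs]
      rw [Finset.card_union_of_disjoint, Finset.card_singleton]
      rw [Finset.disjoint_left]
      rintro ⟨x, y⟩ h1 h2
      simp only [Finset.mem_filter, mem_Tr,
        Finset.mem_singleton, Prod.mk.injEq] at h1 h2
      omega
    have e4 : (Lset (m + 2 + 1) (m + 2 + 1) (2 * (m + 2) + 1)).card =
        (Lset (m + 1 + 2) (m + 3) (2 * m + 3 + 2)).card := rfl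
    have e5 : (Lset (m + 1) (m + 3) (2 * m + 3)).card =
        (Lset (m + 1 + 2) (m + 1) (2 * m + 1 + 2)).card := by
      rw [swap]
    rw [e4, e2, e5, e1]
    have c1 : (m + 2 + 4).choose 3 = (m + 5).choose 2 + (m + 5).choose 3 :=
      Nat.choose_succ_succ' (m + 5) 2
    have c2 : (m + 5).choose 3 = (m + 4).choose 2 + (m + 4).choose 3 :=
      Nat.choose_succ_succ' (m + 4) 2
    have c3 : (m + 5).choose 2 = (m + 4).choose 1 + (m + 4).choose 2 :=
      Nat.choose_succ_succ' (m + 4) 1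
    have c4 : (m + 4).choose 2 = (m + 3).choose 1 + (m + 3).choose 2 :=
      Nat.choose_succ_succ' (m + 3) 1
    have c5 : (m + 2 + 3) ^ 2 / 4 = (m + 3) ^ 2 / 4 + (m + 4) := by
      have : (m + 2 + 3) ^ 2 = (m + 3) ^ 2 + 4 * (m + 4) := by ring
      rw [this]
      omega
    rw [Nat.choose_one_right] at c3 c4
    rw [c5]
    have c6 : (m + 1 + 2).choose 2 = (m + 3).choose 2 := rfl
    omega

theorem countOdd : S_countOdd := by
  intro n m hm hn hp
  obtain ⟨d, rfl⟩ : ∃ d, n = m + 1 + 2 * d := ⟨(n - m - 1) / 2, by omega⟩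
  clear hm hn hp
  have : (m + 1 + 2 * d - m - 1) / 2 = d := by omega
  rw [this]
  clear this
  induction d with
  | zero =>
    have := baseOdd m
    have e : m + 1 + 2 * 0 + m = 2 * m + 1 := by ring
    rw [e]
    simp only [Nat.zero_mul, Nat.zero_add]
    exact this
  | succ d ih =>
    have := stepAll (m + 1 + 2 * d) m (m + 1 + 2 * d + m) (by omega) (by omega) (by omega)
    have e1 : m + 1 + 2 * (d + 1) = m + 1 + 2 * d + 2 := by ring
    have e2 : m + 1 + 2 * d + 2 + m = m + 1 + 2 * d + m + 2 := by ring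
    rw [e1, e2, this, ih]
    ring

theorem countEven : S_countEven := by
  intro n m hm hn hp
  obtain ⟨d, rfl⟩ : ∃ d, n = m + 2 * d := ⟨(n - m) / 2, by omega⟩
  obtain ⟨m, rfl⟩ : ∃ m', m = m' + 1 := ⟨m - 1, by omega⟩
  clear hm hn hp
  have : (m + 1 + 2 * d - (m + 1)) / 2 = d := by omega
  rw [this]
  clear this
  have hb := baseEven m
  have c6 : (m + 1 + 3).choose 3 = (m + 4).choose 3 := rfl
  have c7 : (m + 1 + 2) ^ 2 / 4 = (m + 3) ^ 2 / 4 := rfl
  rw [c6, c7]
  have key : (Lset (m + 1 + 2 * d) (m + 1) (m + 1 + 2 * d + (m + 1) - 1)).card +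
      (m + 3) ^ 2 / 4 = d * (m + 1 + 2).choose 2 + (m + 4).choose 3 := by
    induction d with
    | zero =>
      have e : m + 1 + 2 * 0 + (m + 1) - 1 = 2 * m + 1 := by omega
      rw [e]
      simp only [Nat.zero_mul, Nat.zero_add]
      exact hb
    | succ d ih =>
      have := stepAll (m + 1 + 2 * d) (m + 1) (m + 1 + 2 * d + (m + 1) - 1) (by omega)
        (by omega) (by omega)
      have e1 : m + 1 + 2 * (d + 1) = m + 1 + 2 * d + 2 := by ring
      have e2 : m + 1 + 2 * d + 2 + (m + 1) - 1 = m + 1 + 2 * d + (m + 1) - 1 + 2 := by omega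
      rw [e1, e2, this]
      have e3 : (d + 1) * (m + 1 + 2).choose 2 = d * (m + 1 + 2).choose 2 +
        (m + 1 + 2).choose 2 := by ring
      rw [e3]
      omega
  omega

end Pool.Agent.Q11.TF
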