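import Pool.Agent.Q11.TF.Stm

/-!
# The classes of labA: each has a member of middle rank
-/

namespace Pool.Agent.Q11.TF

set_option maxHeartbeats 4000000
set_option linter.unusedVariables false

/-- the labels of labA -/
def GA (k w t u v z : ℕ) : Prop :=
  (t = 0 ∧ v < z ∧ z ≤ 2 * w + 1 ∧ w + u < k + v ∧ w + u + z < k + 2 * w + 1) ∨
  (t = 1 ∧ u < v ∧ v ≤ 2 * k ∧ z ≤ w ∧ k + z ≤ w + u ∧ k + z + v ≤ w + 2 * k) ∨
  (t = 2 ∧ z = 0 ∧ u + 1 ≤ k ∧ 1 ≤ v ∧ v ≤ 2 * w + 1 ∧ (v + k ≤ w + 1 + u ∨ w + k < v + u)) ∨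
  (t = 3 ∧ z = 0 ∧ u ≤ w ∧ 1 ≤ v ∧ v ≤ 2 * k ∧ (v + w ≤ k + u ∨ k + w < v + u)) ∨
  t = 7

def GA' (k w : ℕ) (L : Q) : Prop := GA k w L.1 L.2.1 L.2.2.1 L.2.2.2

theorem goodA (k w : ℕ) (hk : 1 ≤ k) (hw : 1 ≤ w) (a b x y : ℕ)
    (h : Val (2 * k) (2 * w + 1) (a, b, x, y)) : GA' k w (labA k w a b x y) := by
  obtain ⟨g1, g2, g3, g4, g5⟩ := h
  simp only at g1 g2 g3 g4 g5
  simp only [labA]
  obtain ⟨j, hj⟩ : ∃ j, j = min a (2*k-b) := ⟨_, rfl⟩
  obtain ⟨i, hi⟩ : ∃ i, i = min x (2*w+1-y) := ⟨_, rfl⟩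
  rw [← hj, ← hi]
  split_ifs with c1 c2 c3 c4 c5 c6 c7 c8 c9 c10 c11
  · refine Or.inl ⟨rfl, ?_⟩
    dsimp only
    clear hj
    omega
  · refine Or.inr (Or.inl ⟨rfl, ?_⟩)
    dsimp only
    clear c1 g5
    omega
  · have hxy : x = y := by
      by_contra hcon
      exact c1 ⟨by omega, by omega⟩
    clear c1 c2 g5 hj
    refine Or.inr (Or.inr (Or.inr (Or.inl ⟨rfl, rfl, ?_⟩)))
    dsimp only
    omega
  · have hxy : x = y := by
      by_contra hcon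
      exact c1 ⟨by omega, by omega⟩
    clear c1 c2 g5 hj
    refine Or.inr (Or.inl ⟨rfl, ?_⟩)
    dsimp only
    omega
  · have hxy : x = y := by
      by_contra hcon
      exact c1 ⟨by omega, by omega⟩
    clear c1 c2 g5 hj
    refine Or.inr (Or.inr (Or.inr (Or.inl ⟨rfl, rfl, ?_⟩)))
    dsimp only
    omega
  · have hxy : x = y := by
      by_contra hcon
      exact c1 ⟨by omega, by omega⟩
    clear c1 c2 g5 hj
    refine Or.inr (Or.inl ⟨rfl, ?_⟩)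
    dsimp only
    omega
  · clear c1 c2 hi hj
    refine Or.inr (Or.inr (Or.inl ⟨rfl, rfl, ?_⟩))
    dsimp only
    omega
  · exact Or.inr (Or.inr (Or.inr (Or.inr rfl)))
  · have hab : a = b := by clear c1 c2 hi hj; omega
    clear c1 c2 hi
    refine Or.inr (Or.inr (Or.inl ⟨rfl, rfl, ?_⟩))
    dsimp only
    omega
  · have hab : a = b := by clear c1 c2 hi hj; omega
    clear c1 c2 hi
    refine Or.inl ⟨rfl, ?_⟩
    dsimp only
    omega
  · have hab : a = b := by clear c1 c2 hi hj; omega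
    clear c1 c2 hi
    refine Or.inr (Or.inr (Or.inl ⟨rfl, rfl, ?_⟩))
    dsimp only
    omega
  · have hab : a = b := by clear c1 c2 hi hj; omega
    clear c1 c2 hi
    refine Or.inl ⟨rfl, ?_⟩
    dsimp only
    omega

theorem witA0 (k w u v z A B : ℕ) (hk : 1 ≤ k) (hw : 1 ≤ w) (h1 : v < z) (h2 : z ≤ 2 * w + 1)
    (h3 : w + u < k + v) (h4 : w + u + z < k + 2 * w + 1) (hA : A ≤ B) (hB : B ≤ 2 * k)
    (hm : u = min A (2 * k - B)) : labA k w A B v z = (0, u, v, z) := by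
  simp only [labA]
  obtain ⟨i, hi⟩ : ∃ i, i = min v (2*w+1-z) := ⟨_, rfl⟩
  rw [← hm, ← hi, if_pos (by omega)]

theorem witA1 (k w u v z X Y : ℕ) (hk : 1 ≤ k) (hw : 1 ≤ w) (h1 : u < v) (h2 : v ≤ 2 * k)
    (h0 : z ≤ w) (h3 : k + z ≤ w + u) (h4 : k + z + v ≤ w + 2 * k) (hX : X ≤ Y)
    (hY : Y ≤ 2 * w + 1)
    (hm : z = min X (2 * w + 1 - Y)) : labA k w u v X Y = (1, u, v, z) := by
  simp only [labA]
  obtain ⟨j, hj⟩ : ∃ j, j = min u (2*k-v) := ⟨_, rfl⟩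
  rw [← hm, ← hj, if_neg (by omega), if_pos (by omega)]

theorem witA2a (k w u v : ℕ) (hk : 1 ≤ k) (hw : 1 ≤ w) (h1 : u + 1 ≤ k) (h2 : 1 ≤ v)
    (h3 : v ≤ 2 * w + 1) (hc : w + k < v + u) :
    labA k w u u (2 * k + 2 * w + 1 - 2 * u - v) v = (2, u, v, 0) := by
  have hX : 2 * k + 2 * w + 1 - 2 * u - v < v := by omega
  obtain ⟨X, hX'⟩ : ∃ X, X = 2 * k + 2 * w + 1 - 2 * u - v := ⟨_, rfl⟩
  rw [← hX'] at hX ⊢
  have hj : min u (2 * k - u) = u := by omega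
  simp only [labA]
  rw [hj]
  obtain ⟨i, hi⟩ : ∃ i, i = min X (2 * w + 1 - v) := ⟨_, rfl⟩
  rw [← hi, if_neg (by omega), if_neg (by omega), if_neg (by omega), if_neg (by omega),
    if_pos (by omega), if_pos (by omega)]

theorem witA2b (k w u v : ℕ) (hk : 1 ≤ k) (hw : 1 ≤ w) (h1 : u + 1 ≤ k) (h2 : 1 ≤ v)
    (h3 : v ≤ 2 * w + 1) (hc : v + k ≤ w + 1 + u) :
    labA k w (2 * k - u) (2 * k - u) (v - 1) (2 * w + 2 + 2 * u - 2 * k - v) =
      (2, u, v, 0) := by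
  have hX : v - 1 < 2 * w + 2 + 2 * u - 2 * k - v := by omega
  obtain ⟨Y, hY'⟩ : ∃ Y, Y = 2 * w + 2 + 2 * u - 2 * k - v := ⟨_, rfl⟩
  rw [← hY'] at hX ⊢
  have hj : min (2 * k - u) (2 * k - (2 * k - u)) = u := by omega
  simp only [labA]
  rw [hj]
  obtain ⟨i, hi⟩ : ∃ i, i = min (v - 1) (2 * w + 1 - Y) := ⟨_, rfl⟩
  rw [← hi, if_neg (by omega), if_neg (by omega), if_neg (by omega), if_neg (by omega),
    if_neg (by omega), if_pos (by omega), show v - 1 + 1 = v by omega]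

theorem witA3a (k w u v : ℕ) (hk : 1 ≤ k) (hw : 1 ≤ w) (h1 : u ≤ w) (h2 : 1 ≤ v)
    (h3 : v ≤ 2 * k) (hc : k + w < v + u) :
    labA k w (2 * k + 2 * w + 1 - 2 * u - v) v u u = (3, u, v, 0) := by
  have hX : 2 * k + 2 * w + 1 - 2 * u - v < v := by omega
  obtain ⟨X, hX'⟩ : ∃ X, X = 2 * k + 2 * w + 1 - 2 * u - v := ⟨_, rfl⟩
  rw [← hX'] at hX ⊢
  have hi : min u (2 * w + 1 - u) = u := by omega
  simp only [labA]
  rw [hi]
  obtain ⟨j, hj⟩ : ∃ j, j = min X (2 * k - v) := ⟨_, rfl⟩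
  rw [← hj, if_neg (by omega), if_neg (by omega), if_pos (by omega), if_pos (by omega),
    if_pos (by omega)]

theorem witA3b (k w u v : ℕ) (hk : 1 ≤ k) (hw : 1 ≤ w) (h1 : u ≤ w) (h2 : 1 ≤ v)
    (h3 : v ≤ 2 * k) (hc : v + w ≤ k + u) :
    labA k w (v - 1) (2 * k + 2 * u - 2 * w - v) (2 * w + 1 - u) (2 * w + 1 - u) =
      (3, u, v, 0) := by
  have hX : v - 1 < 2 * k + 2 * u - 2 * w - v := by omega
  obtain ⟨Y, hY'⟩ : ∃ Y, Y = 2 * k + 2 * u - 2 * w - v := ⟨_, rfl⟩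
  rw [← hY'] at hX ⊢
  have hi : min (2 * w + 1 - u) (2 * w + 1 - (2 * w + 1 - u)) = u := by omega
  simp only [labA]
  rw [hi]
  obtain ⟨j, hj⟩ : ∃ j, j = min (v - 1) (2 * k - Y) := ⟨_, rfl⟩
  rw [← hj, if_neg (by omega), if_neg (by omega), if_pos (by omega), if_neg (by omega),
    if_pos (by omega), show v - 1 + 1 = v by omega]

theorem coverA : S_coverA := by
  rintro k w hk hw ⟨a, b, x, y⟩ hp h7
  have hg := goodA k w hk hw a b x y hp
  simp only [lA] at h7 ⊢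
  obtain ⟨⟨t, u, v, z⟩, hL⟩ : ∃ L : Q, L = labA k w a b x y := ⟨_, rfl⟩
  rw [← hL] at h7 hg ⊢
  simp only [GA'] at hg
  simp only at h7
  rcases hg with ⟨rfl, h1, h2, h3, h4⟩ | ⟨rfl, h1, h2, h3, h4, h5⟩ | ⟨rfl, rfl, h1, h2, h3, h4⟩ |
    ⟨rfl, rfl, h1, h2, h3, h4⟩ | h
  · by_cases hc : 2 * w + 1 ≤ v + z
    · refine ⟨(u, 2 * k + 2 * w + 1 - v - z - u, v, z), ?_, ?_, ?_⟩
      · simp only [Val]; omega
      · simp only [rk]; omega
      · dsimp only; exact witA0 k w u v z _ _ hk hw h1 h2 h3 h4 (by omega) (by omega) (by omega)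
    · refine ⟨(2 * w + 1 - v - z + u, 2 * k - u, v, z), ?_, ?_, ?_⟩
      · simp only [Val]; omega
      · simp only [rk]; omega
      · dsimp only; exact witA0 k w u v z _ _ hk hw h1 h2 h3 h4 (by omega) (by omega) (by omega)
  · by_cases hc : 2 * k ≤ u + v
    · refine ⟨(u, v, z, 2 * k + 2 * w + 1 - u - v - z), ?_, ?_, ?_⟩
      · simp only [Val]; omega
      · simp only [rk]; omega
      · dsimp only; exact witA1 k w u v z _ _ hk hw h1 h2 h3 h4 h5 (by omega) (by omega) (by omega)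
    · refine ⟨(u, v, 2 * k + z - u - v, 2 * w + 1 - z), ?_, ?_, ?_⟩
      · simp only [Val]; omega
      · simp only [rk]; omega
      · dsimp only; exact witA1 k w u v z _ _ hk hw h1 h2 h3 h4 h5 (by omega) (by omega) (by omega)
  · by_cases hc : w + k < v + u
    · refine ⟨(u, u, 2 * k + 2 * w + 1 - 2 * u - v, v), ?_, ?_, ?_⟩
      · simp only [Val]; omega
      · simp only [rk]; omega
      · dsimp only
        exact witA2a k w u v hk hw h1 h2 h3 hc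
    · refine ⟨(2 * k - u, 2 * k - u, v - 1, 2 * w + 2 + 2 * u - 2 * k - v), ?_, ?_, ?_⟩
      · simp only [Val]; omega
      · simp only [rk]; omega
      · dsimp only
        exact witA2b k w u v hk hw h1 h2 h3 (by omega)
  · by_cases hc : k + w < v + u
    · refine ⟨(2 * k + 2 * w + 1 - 2 * u - v, v, u, u), ?_, ?_, ?_⟩
      · simp only [Val]; omega
      · simp only [rk]; omega
      · dsimp only
        exact witA3a k w u v hk hw h1 h2 h3 hc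
    · refine ⟨(v - 1, 2 * k + 2 * u - 2 * w - v, 2 * w + 1 - u, 2 * w + 1 - u), ?_, ?_, ?_⟩
      · simp only [Val]; omega
      · simp only [rk]; omega
      · dsimp only
        exact witA3b k w u v hk hw h1 h2 h3 (by omega)
  · exact absurd h h7

theorem centralA : S_centralA := by
  rintro k w hk hw ⟨a, b, x, y⟩ ⟨g1, g2, g3, g4, g5⟩
  simp only at g1 g2 g3 g4 g5
  simp only [lA, labA]
  obtain ⟨j, hj⟩ : ∃ j, j = min a (2*k-b) := ⟨_, rfl⟩
  obtain ⟨i, hi⟩ : ∃ i, i = min x (2*w+1-y) := ⟨_, rfl⟩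
  rw [← hj, ← hi]
  split_ifs <;> (try dsimp only) <;> (refine ⟨fun h => ?_, fun h => ?_⟩) <;> (first | exact h.elim | omega)

end Pool.Agent.Q11.TF
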