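import Pool.Agent.Q11.TF.GoodB

/-!
# Members of rank n + m - 1 in the classes of labB
-/

namespace Pool.Agent.Q11.TF

set_option maxHeartbeats 4000000
set_option linter.unusedVariables false

theorem w1j (n m e1 e2 u v z : ℕ) (he : n + 2 * e2 = m + 2 * e1) (h0 : e1 = 0 ∨ e2 = 0)
    (hm : 2 * z < m) (h : GB1 n m e1 e2 u v z) (hc : u + v + 2 * z = n + m) :
    Val n m (u, (u + 1), z, z) ∧
    u + (u + 1) + z + z + 1 = n + m ∧
    labB n m e1 e2 u (u + 1) z z = (1, u, v, z) := by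
  simp only [GB1] at h
  obtain ⟨h1, h2, h3, h4⟩ := h
  have key : (z - e2) % 2 = 1 ∧ z + e1 + v = n + e2 + 1 ∧ v = u + 2 := by
    rcases h4 with h4 | ⟨h4, hp⟩ | ⟨h4, hp, h5⟩
    · omega
    · refine ⟨hp, ?_⟩; clear hp; omega
    · clear hp; omega
  obtain ⟨hz, hz1, hz2⟩ := key
  clear h4
  refine ⟨by clear hz; simp only [Val]; omega, by clear hz; omega, ?_⟩
  have hi : min z (m - z) = z := by clear hz; omega
  rw [labB_eq, hi]
  obtain ⟨j, hj⟩ : ∃ j, j = min u (n - (u + 1)) := ⟨_, rfl⟩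
  rw [← hj]
  have hj' : j + e2 = z + e1 := by clear hz; omega
  clear hj hi
  rw [B0, if_neg (by clear hz; omega), if_neg (by clear hz; omega), if_neg (by clear hz; omega),
    if_neg (by clear hz; omega), if_neg (by omega), if_neg (by omega), B3l,
    if_pos (by clear hz; omega), if_neg (by clear hz; omega), if_neg (by clear hz; omega),
    if_pos (by clear hz; omega), show u + 1 - 1 = u by omega,
    show n + e2 + 1 - (z + e1) = v by clear hz; omega]

theorem w1k (n m e1 e2 u v z : ℕ) (he : n + 2 * e2 = m + 2 * e1) (h0 : e1 = 0 ∨ e2 = 0)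
    (hm : 2 * z < m) (h : GB1 n m e1 e2 u v z) (hc : u + v + 2 * z = n + m + 1)
    (hd : z + e1 + v = n + e2 + 1) :
    Val n m (u, v, (z - 1), (z - 1)) ∧
    u + v + (z - 1) + (z - 1) + 1 = n + m ∧
    labB n m e1 e2 u v (z - 1) (z - 1) = (1, u, v, z) := by
  simp only [GB1] at h
  obtain ⟨h1, h2, h3, h4⟩ := h
  have hz : (z - e2) % 2 = 1 := by omega
  clear h4
  have hz1 : 1 ≤ z := by omega
  refine ⟨by clear hz; simp only [Val]; omega, by clear hz; omega, ?_⟩
  have hi : min (z - 1) (m - (z - 1)) = z - 1 := by clear hz; omega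
  rw [labB_eq, hi]
  obtain ⟨j, hj⟩ : ∃ j, j = min u (n - v) := ⟨_, rfl⟩
  rw [← hj]
  have hj' : j + v ≤ n := by clear hz; omega
  clear hj hi
  rw [B0, if_neg (by omega), if_neg (by clear hz; omega), if_neg (by clear hz; omega),
    if_neg (by clear hz; omega), if_pos (by omega), B3u, if_pos (by clear hz; omega),
    if_neg (by clear hz; omega), show z - 1 + 1 = z by clear hz; omega,
    show v - 1 = u by clear hz; omega]

theorem w1l (n m e1 e2 u v z : ℕ) (he : n + 2 * e2 = m + 2 * e1) (h0 : e1 = 0 ∨ e2 = 0)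
    (hm : 2 * z < m) (h : GB1 n m e1 e2 u v z) (hc : u + v + 2 * z + 1 ≤ n + m)
    (hd : n ≤ u + v + 1) (hf : ¬ (v = u + 1 ∧ u + e2 + 1 < z + e1))
    (hg : ¬ (v = u + 1 ∧ n + e2 + 1 < z + e1 + v)) :
    Val n m (u, v, z, (n + m - 1 - u - v - z)) ∧
    u + v + z + (n + m - 1 - u - v - z) + 1 = n + m ∧
    labB n m e1 e2 u v z (n + m - 1 - u - v - z) = (1, u, v, z) := by
  simp only [GB1] at h
  obtain ⟨h1, h2, h3, h4⟩ := h
  have key : (z + e1 < u + e2 ∧ z + e1 + v < n + e2) ∨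
      (((z + e1 = u + e2 + 1 ∧ u + v ≤ n) ∨ (z + e1 + v = n + e2 + 1 ∧ n ≤ u + v)) ∧
        (z - e2) % 2 = 1) := by
    rcases h4 with h4 | h4 | ⟨h4, hp, h5⟩
    · exact Or.inl h4
    · exact Or.inr h4
    · exfalso
      rcases h5 with h5 | h5
      · exact hf ⟨h4, h5⟩
      · exact hg ⟨h4, h5⟩
  clear h4 hf hg
  refine ⟨by clear key; simp only [Val]; omega, by clear key; omega, ?_⟩
  have hi : min z (m - (n + m - 1 - u - v - z)) = z := by clear key; omega
  rw [labB_eq, hi]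
  obtain ⟨Y, hY⟩ : ∃ Y, Y = n + m - 1 - u - v - z := ⟨_, rfl⟩
  rw [← hY]
  clear hY hi
  obtain ⟨j, hj⟩ : ∃ j, j = min u (n - v) := ⟨_, rfl⟩
  rw [← hj]
  rcases key with key | key
  · rw [B0, if_neg (by omega), if_neg (by omega), if_pos (by omega)]
  · have hj' : z + e1 = j + e2 + 1 := by
      obtain ⟨k1, k2⟩ := key
      clear k2
      omega
    rw [B0, if_pos ⟨hj', key.2⟩, B1, if_pos h1]

end Pool.Agent.Q11.TF
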