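import Pool.Agent.Q11.TF.GoodB

/-!
# Members of rank n + m - 1 in the classes of labB
-/

namespace Pool.Agent.Q11.TF

set_option maxHeartbeats 4000000
set_option linter.unusedVariables false

theorem w1m (n m e1 e2 u v z : ℕ) (he : n + 2 * e2 = m + 2 * e1) (h0 : e1 = 0 ∨ e2 = 0)
    (hm : 2 * z < m) (h : GB1 n m e1 e2 u v z) (hc : u + v + 2 * z + 1 ≤ n + m)
    (hd : u + v + 1 < n) (hf : ¬ (v = u + 1 ∧ u + e2 + 1 < z + e1))
    (hg : ¬ (v = u + 1 ∧ n + e2 + 1 < z + e1 + v)) :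
    Val n m (u, v, (n - 1 - u - v + z), (m - z)) ∧
    u + v + (n - 1 - u - v + z) + (m - z) + 1 = n + m ∧
    labB n m e1 e2 u v (n - 1 - u - v + z) (m - z) = (1, u, v, z) := by
  simp only [GB1] at h
  obtain ⟨h1, h2, h3, h4⟩ := h
  have key : (z + e1 < u + e2 ∧ z + e1 + v < n + e2) ∨
      (((z + e1 = u + e2 + 1 ∧ u + v ≤ n) ∨ (z + e1 + v = n + e2 + 1 ∧ n ≤ u + v)) ∧
        (z - e2) % 2 = 1) := by
    rcases h4 with h4 | h4 | ⟨h4, hp, h5⟩
    · exact Or.inl h4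
    · exact Or.inr h4
    · exfalso
      rcases h5 with h5 | h5
      · exact hf ⟨h4, h5⟩
      · exact hg ⟨h4, h5⟩
  clear h4 hf hg
  obtain ⟨j, hj⟩ : ∃ j, j = min u (n - v) := ⟨_, rfl⟩
  have hz : z + e1 ≤ j + e2 + 1 := by
    rcases key with key | ⟨k1, k2⟩
    · omega
    · clear k2; omega
  have hX : n - 1 - u - v + z ≤ m - z := by clear key; omega
  refine ⟨by clear key; simp only [Val]; omega, by clear key; omega, ?_⟩
  have hi : min (n - 1 - u - v + z) (m - (m - z)) = z := by clear key; omega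
  rw [labB_eq, hi]
  obtain ⟨X, hX'⟩ : ∃ X, X = n - 1 - u - v + z := ⟨_, rfl⟩
  rw [← hX']
  clear hX' hi hX
  rw [← hj]
  rcases key with key | key
  · rw [B0, if_neg (by omega), if_neg (by omega), if_pos (by omega)]
  · have hj' : z + e1 = j + e2 + 1 := by
      obtain ⟨k1, k2⟩ := key
      clear k2
      omega
    rw [B0, if_pos ⟨hj', key.2⟩, B1, if_pos h1]

theorem w2a (n m e1 e2 u v z : ℕ) (he : n + 2 * e2 = m + 2 * e1) (h0 : e1 = 0 ∨ e2 = 0)
    (hn : 2 * u < n) (h : GB2 n m e1 e2 u v z) (hc : m + e1 < v + u + e2) :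
    Val n m (u, u, (n + m - 1 - 2 * u - v), v) ∧
    u + u + (n + m - 1 - 2 * u - v) + v + 1 = n + m ∧
    labB n m e1 e2 u u (n + m - 1 - 2 * u - v) v = (2, u, v, z) := by
  simp only [GB2] at h
  obtain ⟨rfl, h1, h2, h3, h4⟩ := h
  clear h4
  have hX : n + m - 1 - 2 * u - v < v := by omega
  refine ⟨by simp only [Val]; omega, by omega, ?_⟩
  have hj : min u (n - u) = u := by omega
  rw [labB_eq, hj]
  obtain ⟨X, hX'⟩ : ∃ X, X = n + m - 1 - 2 * u - v := ⟨_, rfl⟩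
  rw [← hX'] at hX ⊢
  clear hX' hj
  obtain ⟨i, hi⟩ : ∃ i, i = min X (m - v) := ⟨_, rfl⟩
  rw [← hi]
  rw [B0, if_neg (by omega), if_neg (by omega), if_neg (by omega), if_pos rfl, B2,
    if_pos (by omega), if_pos (by omega)]

theorem w2b (n m e1 e2 u v z : ℕ) (he : n + 2 * e2 = m + 2 * e1) (h0 : e1 = 0 ∨ e2 = 0)
    (hn : 2 * u < n) (h : GB2 n m e1 e2 u v z) (hc : v + e1 ≤ u + e2) :
    Val n m ((n - u), (n - u), (v - 1), (m + 2 * u - n - v)) ∧
    (n - u) + (n - u) + (v - 1) + (m + 2 * u - n - v) + 1 = n + m ∧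
    labB n m e1 e2 (n - u) (n - u) (v - 1) (m + 2 * u - n - v) = (2, u, v, z) := by
  simp only [GB2] at h
  obtain ⟨rfl, h1, h2, h3, h4⟩ := h
  clear h4
  have hX : v - 1 < m + 2 * u - n - v := by omega
  refine ⟨by simp only [Val]; omega, by omega, ?_⟩
  have hj : min (n - u) (n - (n - u)) = u := by omega
  rw [labB_eq, hj]
  obtain ⟨Y, hY'⟩ : ∃ Y, Y = m + 2 * u - n - v := ⟨_, rfl⟩
  rw [← hY'] at hX ⊢
  clear hY' hj
  obtain ⟨i, hi⟩ : ∃ i, i = min (v - 1) (m - Y) := ⟨_, rfl⟩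
  rw [← hi]
  rw [B0, if_neg (by omega), if_neg (by omega), if_neg (by omega), if_pos rfl, B2,
    if_neg (by omega), if_pos (by omega), show v - 1 + 1 = v by omega]

theorem w3a (n m e1 e2 u v z : ℕ) (he : n + 2 * e2 = m + 2 * e1) (h0 : e1 = 0 ∨ e2 = 0)
    (hm : m % 2 = 1) (h : GB3 n m e1 e2 u v z) (hc : n + 1 ≤ 2 * v) :
    Val n m ((n - v), v, u, u) ∧
    (n - v) + v + u + u + 1 = n + m ∧
    labB n m e1 e2 (n - v) v u u = (3, u, v, z) := by
  simp only [GB3] at h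
  obtain ⟨rfl, h1, h2, h3, h4, h5⟩ := h
  obtain rfl : m = 2 * u + 1 := by clear h5; omega
  clear hm
  refine ⟨by clear h5; simp only [Val]; omega, by clear h5; omega, ?_⟩
  have hj : min (n - v) (n - v) = n - v := min_self _
  have hi : min u (2 * u + 1 - u) = u := by clear h5; omega
  rw [labB_eq, hj, hi]
  rw [B0, if_neg (by omega), if_neg (by clear h5; omega), if_neg (by clear h5; omega),
    if_neg (by clear h5; omega), if_neg (by clear h5; omega), if_pos h5, B3s,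
    if_pos (by clear h5; omega)]

end Pool.Agent.Q11.TF
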