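import Pool.Agent.Q11.TF.GoodB

/-!
# Members of rank n + m - 1 in the classes of labB
-/

namespace Pool.Agent.Q11.TF

set_option maxHeartbeats 4000000
set_option linter.unusedVariables false

theorem w3b (n m e1 e2 u v z : ℕ) (he : n + 2 * e2 = m + 2 * e1) (h0 : e1 = 0 ∨ e2 = 0)
    (hm : m % 2 = 1) (h : GB3 n m e1 e2 u v z) (hc : 2 * v < n + 1) :
    Val n m ((v - 1), (n - 1 - v), (m - u), (m - u)) ∧
    (v - 1) + (n - 1 - v) + (m - u) + (m - u) + 1 = n + m ∧
    labB n m e1 e2 (v - 1) (n - 1 - v) (m - u) (m - u) = (3, u, v, z) := by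
  simp only [GB3] at h
  obtain ⟨rfl, h1, h2, h3, h4, h5⟩ := h
  obtain rfl : m = 2 * u + 1 := by clear h5; omega
  have hn : n % 2 = 1 := by clear h5 h1 h2 h3 h4 hc; omega
  clear hm
  have e0 : 2 * u + 1 - u = u + 1 := by clear h5; omega
  rw [e0]
  refine ⟨by clear h5; simp only [Val]; omega, by clear h5; omega, ?_⟩
  have hi : min (u + 1) (2 * u + 1 - (u + 1)) = u := by clear h5; omega
  rw [labB_eq, hi]
  obtain ⟨j, hj⟩ : ∃ j, j = min (v - 1) (n - (n - 1 - v)) := ⟨_, rfl⟩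
  rw [← hj]
  have hj' : j ≤ v - 1 := by clear h5; omega
  clear hj
  rw [B0, if_neg (by omega), if_neg (by clear h5; omega), if_neg (by clear h5; omega),
    if_neg (by clear h5; omega), if_neg (by clear h5; omega), if_pos h5, B3s,
    if_neg (by clear h5; omega), show v - 1 + 1 = v by clear h5; omega]

theorem w4 (n m e1 e2 u v z : ℕ) (he : n + 2 * e2 = m + 2 * e1) (h0 : e1 = 0 ∨ e2 = 0)
    (hm : 2 * u < m) (h : GB4 n m e1 e2 u v z) :
    Val n m ((v - 2), (n + 1 + 2 * u - m - v), (m - u), (m - u)) ∧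
    (v - 2) + (n + 1 + 2 * u - m - v) + (m - u) + (m - u) + 1 = n + m ∧
    labB n m e1 e2 (v - 2) (n + 1 + 2 * u - m - v) (m - u) (m - u) = (4, u, v, z) := by
  simp only [GB4] at h
  obtain ⟨rfl, hp, h2, h3, h4⟩ := h
  have hB : v < n + 1 + 2 * u - m - v := by clear hp; omega
  refine ⟨by clear hp; simp only [Val]; omega, by clear hp; omega, ?_⟩
  have hi : min (m - u) (m - (m - u)) = u := by clear hp; omega
  rw [labB_eq, hi]
  obtain ⟨B, hB'⟩ : ∃ B, B = n + 1 + 2 * u - m - v := ⟨_, rfl⟩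
  rw [← hB'] at hB ⊢
  clear hB' hi
  obtain ⟨j, hj⟩ : ∃ j, j = min (v - 2) (n - B) := ⟨_, rfl⟩
  rw [← hj]
  have hj' : j ≤ v - 2 := by clear hp; omega
  clear hj
  rw [B0, if_neg (by clear hp; omega), if_neg (by clear hp; omega), if_neg (by clear hp; omega),
    if_neg (by clear hp; omega), if_neg (by omega), if_neg (by omega), B3l,
    if_neg (by clear hp; omega), if_neg (by clear hp; omega), if_neg (by clear hp; omega),
    if_neg (by clear hp; omega), if_neg (by clear hp; omega),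
    show v - 2 + 2 = v by clear hp; omega]

theorem w5 (n m e1 e2 u v z : ℕ) (he : n + 2 * e2 = m + 2 * e1) (h0 : e1 = 0 ∨ e2 = 0)
    (hm : 2 * u < m) (h : GB5 n m e1 e2 u v z) :
    Val n m ((n + m - 2 - v - 2 * u), (v + 1), u, u) ∧
    (n + m - 2 - v - 2 * u) + (v + 1) + u + u + 1 = n + m ∧
    labB n m e1 e2 (n + m - 2 - v - 2 * u) (v + 1) u u = (5, u, v, z) := by
  simp only [GB5] at h
  obtain ⟨rfl, hp, h2, h3, h4⟩ := h
  have hA : n + m - 2 - v - 2 * u < v := by clear hp; omega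
  refine ⟨by clear hp; simp only [Val]; omega, by clear hp; omega, ?_⟩
  have hi : min u (m - u) = u := by clear hp; omega
  rw [labB_eq, hi]
  obtain ⟨A, hA'⟩ : ∃ A, A = n + m - 2 - v - 2 * u := ⟨_, rfl⟩
  rw [← hA'] at hA ⊢
  clear hA' hi
  obtain ⟨j, hj⟩ : ∃ j, j = min A (n - (v + 1)) := ⟨_, rfl⟩
  rw [← hj]
  have hj' : j ≤ n - (v + 1) := by clear hp; omega
  clear hj
  rw [B0, if_neg (by clear hp; omega), if_neg (by clear hp; omega), if_neg (by clear hp; omega),
    if_neg (by clear hp; omega), if_neg (by omega), if_neg (by omega), B3l,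
    if_pos (by clear hp; omega), if_neg (by clear hp; omega), if_neg (by clear hp; omega),
    if_neg (by clear hp; omega), if_neg (by clear hp; omega),
    show v + 1 - 1 = v by clear hp; omega]

end Pool.Agent.Q11.TF
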