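import Pool.Agent.Q11.TF.WitB1
import Pool.Agent.Q11.TF.WitB2
import Pool.Agent.Q11.TF.WitB3
import Pool.Agent.Q11.TF.WitB4

/-!
# Each class of labB has a member of rank n + m - 1
-/

namespace Pool.Agent.Q11.TF

set_option maxHeartbeats 4000000
set_option linter.unusedVariables false

theorem wit0 (n m e1 e2 u v z : ℕ) (he : n + 2 * e2 = m + 2 * e1) (h0 : e1 = 0 ∨ e2 = 0)
    (hn : 2 * u < n) (h : GB0 n m e1 e2 u v z) : ∃ a b, Val n m (a, b, v, z) ∧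
      a + b + v + z + 1 = n + m ∧ ((a = u ∨ b + u = n) ∧ min a (n - b) = u) ∧
      labB n m e1 e2 a b v z = (0, u, v, z) := by
  have h' := h
  simp only [GB0] at h'
  by_cases hc : m ≤ v + z + 1
  · obtain ⟨h1, h2, h3⟩ := w0a n m e1 e2 u v z he h0 hn h hc
    exact ⟨_, _, h1, h2, ⟨Or.inl rfl, by omega⟩, h3⟩
  · obtain ⟨h1, h2, h3⟩ := w0b n m e1 e2 u v z he h0 hn h (by omega)
    exact ⟨_, _, h1, h2, ⟨Or.inr (by omega), by omega⟩, h3⟩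

/-- tag 1: the member of rank n + m - 1 -/
theorem wit1 (n m e1 e2 u v z : ℕ) (he : n + 2 * e2 = m + 2 * e1) (h0 : e1 = 0 ∨ e2 = 0)
    (hm : 2 * z < m) (h : GB1 n m e1 e2 u v z) : ∃ a b x y, Val n m (a, b, x, y) ∧
      a + b + x + y + 1 = n + m ∧ a < b ∧
      ((a = u ∧ b = v ∧ (x = z ∨ y + z = m) ∧ min x (m - y) = z) ∨
       (v = u + 1 ∧ x = y ∧ a = u ∧ b + m + 3 + u = n + 2 * z ∧ x + z = m + 1 ∧
          u + e2 + 1 < z + e1) ∨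
       (v = u + 1 ∧ x = y ∧ b = v ∧ x + 1 = z ∧ n + e2 + 1 < z + e1 + v) ∨
       (x = y ∧ a = u ∧ b = u + 1 ∧ x = z ∧ u + v + 2 * z = n + m) ∨
       (x = y ∧ a = u ∧ b = v ∧ x + 1 = z ∧ z + e1 + v = n + e2 + 1)) ∧
      labB n m e1 e2 a b x y = (1, u, v, z) := by
  by_cases c1 : v = u + 1 ∧ u + e2 + 1 < z + e1
  · obtain ⟨h1, h2, h3⟩ := w1h n m e1 e2 u v z he h0 hm h c1.1 c1.2
    refine ⟨_, _, _, _, h1, h2, ?_, Or.inr (Or.inl ?_), h3⟩ <;> simp only [Val] at h1 <;> omega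
  by_cases c2 : v = u + 1 ∧ n + e2 + 1 < z + e1 + v
  · obtain ⟨h1, h2, h3⟩ := w1i n m e1 e2 u v z he h0 hm h c2.1 c2.2
    have := h
    simp only [GB1] at this
    refine ⟨_, _, _, _, h1, h2, ?_, Or.inr (Or.inr (Or.inl ?_)), h3⟩ <;>
      simp only [Val] at h1 <;> omega
  have h' := h
  simp only [GB1] at h'
  by_cases c3 : u + v + 2 * z = n + m
  · obtain ⟨h1, h2, h3⟩ := w1j n m e1 e2 u v z he h0 hm h c3
    refine ⟨_, _, _, _, h1, h2, ?_, Or.inr (Or.inr (Or.inr (Or.inl ?_))), h3⟩ <;>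
      simp only [Val] at h1 <;> omega
  by_cases c4 : u + v + 2 * z = n + m + 1
  · obtain ⟨h1, h2, h3⟩ := w1k n m e1 e2 u v z he h0 hm h c4 (by omega)
    refine ⟨_, _, _, _, h1, h2, ?_, Or.inr (Or.inr (Or.inr (Or.inr ?_))), h3⟩ <;>
      simp only [Val] at h1 <;> omega
  have c5 : u + v + 2 * z + 1 ≤ n + m := by omega
  by_cases c6 : n ≤ u + v + 1
  · obtain ⟨h1, h2, h3⟩ := w1l n m e1 e2 u v z he h0 hm h c5 c6 c1 c2
    refine ⟨_, _, _, _, h1, h2, h'.1, Or.inl ⟨rfl, rfl, Or.inl rfl, ?_⟩, h3⟩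
    simp only [Val] at h1; omega
  · obtain ⟨h1, h2, h3⟩ := w1m n m e1 e2 u v z he h0 hm h c5 (by omega) c1 c2
    refine ⟨_, _, _, _, h1, h2, h'.1, Or.inl ⟨rfl, rfl, Or.inr ?_, ?_⟩, h3⟩ <;>
      simp only [Val] at h1 <;> omega

theorem wit2 (n m e1 e2 u v z : ℕ) (he : n + 2 * e2 = m + 2 * e1) (h0 : e1 = 0 ∨ e2 = 0)
    (hn : 2 * u < n) (h : GB2 n m e1 e2 u v z) : ∃ a x y, Val n m (a, a, x, y) ∧
      a + a + x + y + 1 = n + m ∧ (a = u ∨ a + u = n) ∧ x < y ∧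
      (y = v ∨ x + 1 = v) ∧
      labB n m e1 e2 a a x y = (2, u, v, z) := by
  by_cases hc : m + e1 < v + u + e2
  · obtain ⟨h1, h2, h3⟩ := w2a n m e1 e2 u v z he h0 hn h hc
    exact ⟨_, _, _, h1, h2, Or.inl rfl, by simp only [Val] at h1; omega, by omega, h3⟩
  · have h' := h
    simp only [GB2] at h'
    obtain ⟨h1, h2, h3⟩ := w2b n m e1 e2 u v z he h0 hn h (by omega)
    exact ⟨_, _, _, h1, h2, Or.inr (by omega), by simp only [Val] at h1; omega, by omega, h3⟩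

theorem coverB : S_coverB := by
  rintro n m e1 e2 hn hm hn3 hm3 he h0 ⟨a, b, x, y⟩ hp
  have hg := goodB n m e1 e2 a b x y he h0 hp
  simp only [lB]
  obtain ⟨⟨t, u, v, z⟩, hL⟩ : ∃ L : Q, L = labB n m e1 e2 a b x y := ⟨_, rfl⟩
  rw [← hL] at hg ⊢
  simp only [GB] at hg
  rcases hg with ⟨rfl, h⟩ | ⟨rfl, h⟩ | ⟨rfl, h⟩ | ⟨rfl, h⟩ | ⟨rfl, h⟩ | ⟨rfl, h⟩
  · have h' := h
    simp only [GB0] at h'
    obtain ⟨a', b', h1, h2, _, h3⟩ := wit0 n m e1 e2 u v z he h0 (by omega) h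
    exact ⟨_, h1, h2, h3⟩
  · have h' := h
    simp only [GB1] at h'
    obtain ⟨a', b', x', y', h1, h2, _, _, h3⟩ := wit1 n m e1 e2 u v z he h0 (by omega) h
    exact ⟨_, h1, h2, h3⟩
  · have h' := h
    simp only [GB2] at h'
    obtain ⟨a', x', y', h1, h2, _, _, _, h3⟩ := wit2 n m e1 e2 u v z he h0 (by omega) h
    exact ⟨_, h1, h2, h3⟩
  · by_cases hc : n + 1 ≤ 2 * v
    · obtain ⟨h1, h2, h3⟩ := w3a n m e1 e2 u v z he h0 hm h hc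
      exact ⟨_, h1, h2, h3⟩
    · obtain ⟨h1, h2, h3⟩ := w3b n m e1 e2 u v z he h0 hm h (by omega)
      exact ⟨_, h1, h2, h3⟩
  · have h' := h
    simp only [GB4] at h'
    obtain ⟨h1, h2, h3⟩ := w4 n m e1 e2 u v z he h0 (by omega) h
    exact ⟨_, h1, h2, h3⟩
  · have h' := h
    simp only [GB5] at h'
    obtain ⟨h1, h2, h3⟩ := w5 n m e1 e2 u v z he h0 (by omega) h
    exact ⟨_, h1, h2, h3⟩

end Pool.Agent.Q11.TF
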