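import Pool.Agent.Q11.TF.CliqueC
import Pool.Agent.Q11.TF.CoverB

/-!
# Each noncentral class of labC has a member of rank n + m - 1
-/

namespace Pool.Agent.Q11.TF

set_option maxHeartbeats 4000000
set_option linter.unusedVariables false

/-- the label does not belong to a central line -/
def ND (n m : ℕ) (L : Q) : Prop :=
  (L.1 = 0 → 2 * L.2.1 < n) ∧ (L.1 = 1 → 2 * L.2.2.2 < m) ∧ (L.1 = 2 → 2 * L.2.1 < n) ∧
    L.1 ≠ 3 ∧ (L.1 = 4 → 2 * L.2.1 < m) ∧ (L.1 = 5 → 2 * L.2.1 < m)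

theorem labC_of_NSC (k l e1 e2 a b x y : ℕ) (h : NSC k l a b x y) :
    labC k l e1 e2 a b x y = labB (2 * k) (2 * l) e1 e2 a b x y := by
  unfold labC
  rw [if_neg h.1, if_neg h.2.1, if_neg h.2.2.1, if_neg h.2.2.2.1, if_neg h.2.2.2.2]

theorem ND.m0 {n m u v z : ℕ} (h : 2 * u < n) : ND n m (0, u, v, z) := by
  simpa [ND] using h

theorem ND.m1 {n m u v z : ℕ} (h : 2 * z < m) : ND n m (1, u, v, z) := by
  simpa [ND] using h

theorem ND.m2 {n m u v z : ℕ} (h : 2 * u < n) : ND n m (2, u, v, z) := by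
  simpa [ND] using h

theorem ND.m4 {n m u v z : ℕ} (h : 2 * u < m) : ND n m (4, u, v, z) := by
  simpa [ND] using h

theorem ND.m5 {n m u v z : ℕ} (h : 2 * u < m) : ND n m (5, u, v, z) := by
  simpa [ND] using h

theorem ndC (k l e1 e2 a b x y : ℕ) (hk : 2 ≤ k) (hl : 2 ≤ l)
    (hm : (e1 = 0 ∧ k % 2 = 0) ∨ (e2 = 0 ∧ l % 2 = 0)) (he : k + e2 = l + e1)
    (h0 : e1 = 0 ∨ e2 = 0) (h : Val (2 * k) (2 * l) (a, b, x, y)) (hc1 : ¬ (x = l ∧ y = l))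
    (hc2 : ¬ (a = k ∧ b = k)) :
    ND (2 * k) (2 * l) (labB (2 * k) (2 * l) e1 e2 a b x y) := by
  have ht := tagB (2 * k) (2 * l) e1 e2 a b x y
  obtain ⟨⟨t, u, v, z⟩, hL⟩ : ∃ L : Q, L = labB (2 * k) (2 * l) e1 e2 a b x y := ⟨_, rfl⟩
  rw [← hL] at ht ⊢
  have h1 := hL.symm
  clear hL
  obtain ⟨g1, g2, g3, g4, g5⟩ := h
  simp only at g1 g2 g3 g4 g5 ht
  interval_cases t
  · have s := specB0 (2 * k) (2 * l) e1 e2 a b x y u v z (by omega) h0 g1 g2 g3 g4 g5 h1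
    clear h1
    refine ND.m0 ?_
    rcases s with t | t | t | t | t <;> omega
  · have s := specB1 (2 * k) (2 * l) e1 e2 a b x y u v z (by omega) h0 g1 g2 g3 g4 g5 h1
    clear h1
    refine ND.m1 ?_
    rcases s with t | t | t | t | t | t | t | t | t | t | t <;> omega
  · have s := specB2 (2 * k) (2 * l) e1 e2 a b x y u v z (by omega) h0 g1 g2 g3 g4 g5 h1
    clear h1
    refine ND.m2 ?_
    rcases s with t | t <;> omega
  · have s := specB3 (2 * k) (2 * l) e1 e2 a b x y u v z (by omega) h0 g1 g2 g3 g4 g5 h1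
    clear h1
    exfalso
    rcases s with t | t <;> omega
  · have s := specB4 (2 * k) (2 * l) e1 e2 a b x y u v z (by omega) h0 g1 g2 g3 g4 g5 h1
    clear h1
    refine ND.m4 ?_
    rcases s with t | t <;> omega
  · have s := specB5 (2 * k) (2 * l) e1 e2 a b x y u v z (by omega) h0 g1 g2 g3 g4 g5 h1
    clear h1
    refine ND.m5 ?_
    rcases s with t | t <;> omega

theorem goodC (k l e1 e2 a b x y : ℕ) (hk : 2 ≤ k) (hl : 2 ≤ l)
    (hm : (e1 = 0 ∧ k % 2 = 0) ∨ (e2 = 0 ∧ l % 2 = 0)) (he : k + e2 = l + e1)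
    (h0 : e1 = 0 ∨ e2 = 0) (h : Val (2 * k) (2 * l) (a, b, x, y))
    (h7 : (labC k l e1 e2 a b x y).1 ≠ 7) (h8 : (labC k l e1 e2 a b x y).1 ≠ 8) :
    GB (2 * k) (2 * l) e1 e2 (labC k l e1 e2 a b x y) ∧
      ND (2 * k) (2 * l) (labC k l e1 e2 a b x y) := by
  have hv := h
  simp only [Val] at hv
  rcases specC k l e1 e2 a b x y with ⟨s, es⟩ | ⟨s, es⟩ | ⟨s, es⟩ | ⟨s, es⟩ | ⟨s, es⟩ | ⟨s, es⟩ |
    ⟨s, es⟩ | ⟨s, es⟩
  · rw [es]
    exact ⟨GB.m1 (by simp only [GB1]; omega), ND.m1 (by omega)⟩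
  · exact (h8 (by rw [es])).elim
  · rw [es]
    exact ⟨GB.m2 (by simp only [GB2, true_and]; omega), ND.m2 (by omega)⟩
  · exact (h7 (by rw [es])).elim
  · rw [es]
    exact ⟨GB.m0 (by simp only [GB0]; omega), ND.m0 (by omega)⟩
  · rw [es]
    exact ⟨GB.m0 (by simp only [GB0]; omega), ND.m0 (by omega)⟩
  · rw [es]
    exact ⟨GB.m0 (by simp only [GB0]; omega), ND.m0 (by omega)⟩
  · rw [es]
    exact ⟨goodB (2 * k) (2 * l) e1 e2 a b x y (by omega) h0 h,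
      ndC k l e1 e2 a b x y hk hl hm he h0 h s.1 s.2.1⟩

theorem coverC : S_coverC := by
  rintro k l e1 e2 hk hl hm he h0 ⟨a, b, x, y⟩ hp h7 h8
  simp only [lC] at h7 h8 ⊢
  have he' : 2 * k + 2 * e2 = 2 * l + 2 * e1 := by omega
  obtain ⟨hg, hn⟩ := goodC k l e1 e2 a b x y hk hl (parC hm he h0) he h0 hp h7 h8
  obtain ⟨⟨t, u, v, z⟩, hL⟩ : ∃ L : Q, L = labC k l e1 e2 a b x y := ⟨_, rfl⟩
  rw [← hL] at hg hn ⊢
  simp only [GB] at hg
  simp only [ND] at hn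
  rcases hg with ⟨rfl, h⟩ | ⟨rfl, h⟩ | ⟨rfl, h⟩ | ⟨rfl, h⟩ | ⟨rfl, h⟩ | ⟨rfl, h⟩
  · have h' := h
    simp only [GB0] at h'
    obtain ⟨a', b', h1, h2, h4, h3⟩ := wit0 (2 * k) (2 * l) e1 e2 u v z he' h0 (hn.1 rfl) h
    have hu := hn.1 rfl
    refine ⟨_, h1, h2, ?_⟩
    rw [← h3]
    exact labC_of_NSC _ _ _ _ _ _ _ _ (by simp only [NSC]; clear h3; omega)
  · have h' := h
    simp only [GB1] at h'
    have hu := hn.2.1 rfl
    obtain ⟨a', b', x', y', h1, h2, h4, h5, h3⟩ := wit1 (2 * k) (2 * l) e1 e2 u v z he' h0 hu h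
    refine ⟨_, h1, h2, ?_⟩
    rw [← h3]
    simp only [Val] at h1
    exact labC_of_NSC _ _ _ _ _ _ _ _ (by simp only [NSC]; clear h3; omega)
  · have h' := h
    simp only [GB2] at h'
    have hu := hn.2.2.1 rfl
    obtain ⟨a', x', y', h1, h2, h4, h5, h6, h3⟩ := wit2 (2 * k) (2 * l) e1 e2 u v z he' h0 hu h
    refine ⟨_, h1, h2, ?_⟩
    rw [← h3]
    simp only [Val] at h1
    exact labC_of_NSC _ _ _ _ _ _ _ _ (by simp only [NSC]; clear h3; omega)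
  · exact (hn.2.2.2.1 rfl).elim
  · have h' := h
    simp only [GB4] at h'
    have hu := hn.2.2.2.2.1 rfl
    obtain ⟨h1, h2, h3⟩ := w4 (2 * k) (2 * l) e1 e2 u v z he' h0 hu h
    refine ⟨_, h1, h2, ?_⟩
    rw [← h3]
    simp only [Val] at h1
    exact labC_of_NSC _ _ _ _ _ _ _ _ (by simp only [NSC]; clear h3; omega)
  · have h' := h
    simp only [GB5] at h'
    have hu := hn.2.2.2.2.2 rfl
    obtain ⟨h1, h2, h3⟩ := w5 (2 * k) (2 * l) e1 e2 u v z he' h0 hu h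
    refine ⟨_, h1, h2, ?_⟩
    rw [← h3]
    simp only [Val] at h1
    exact labC_of_NSC _ _ _ _ _ _ _ _ (by simp only [NSC]; clear h3; omega)

theorem centralC : S_centralC := by
  rintro k l e1 e2 hk hl ⟨a, b, x, y⟩ h
  simp only [Val] at h
  simp only [lC]
  have ht := tagB (2 * k) (2 * l) e1 e2 a b x y
  rcases specC k l e1 e2 a b x y with ⟨s, es⟩ | ⟨s, es⟩ | ⟨s, es⟩ | ⟨s, es⟩ | ⟨s, es⟩ | ⟨s, es⟩ |
    ⟨s, es⟩ | ⟨s, es⟩ <;> rw [es] <;> (try simp only [NSC] at s) <;> (clear es) <;>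
    refine ⟨⟨fun h => ?_, fun h => ?_⟩, ⟨fun h => ?_, fun h => ?_⟩⟩ <;>
    (try dsimp only at h) <;> (try dsimp only) <;> omega

end Pool.Agent.Q11.TF
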