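import Pool.Agent.Q11.TF.NdD

/-!
# labB on the quadruples that are not special for labD, further facts
-/

namespace Pool.Agent.Q11.TF

set_option maxHeartbeats 4000000
set_option linter.unusedVariables false

section nd

variable (k l e1 e2 a b x y j i u v w : ℕ) (hk : 3 ≤ k) (hl : 3 ≤ l)
  (hm : (e1 = 0 ∧ k % 2 = 1) ∨ (e2 = 0 ∧ l % 2 = 1)) (he : k + e2 = l + e1)
  (h0 : e1 = 0 ∨ e2 = 0)
  (g1 : a ≤ b) (g2 : b ≤ 2 * k) (g3 : x ≤ y) (g4 : y ≤ 2 * l) (g5 : a < b ∨ x < y)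
  (hj : j = min a (2 * k - b)) (hi : i = min x (2 * l - y)) (hs : NSD k l a b x y j i)
include hk hl hm he h0 g1 g2 g3 g4 g5 hj hi hs

theorem nd0' (h : labB (2 * k) (2 * l) e1 e2 a b x y = (0, u, v, w)) :
    ¬ (u + 2 = k ∧ ((v + 2 = l ∧ w ≤ l + 2) ∨ (w = l + 2 ∧ l ≤ v + 2))) := by
  obtain ⟨h1, h2, h3, h4, h5, h6, h7, h8⟩ := hs
  have a1 := ltD g1 g2 hj h2
  have a2 := ltD' g3 g4 hi h1
  rintro ⟨hu, hv⟩
  rcases specB0 (2 * k) (2 * l) e1 e2 a b x y _ _ _ (by omega) h0 g1 g2 g3 g4 g5 h with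
    t | t | t | t | t
  · have hju : j + 2 = k := by clear h h3 h4 h5 h6 h7 h8 hi hv hm; omega
    have hil : i + 2 = l := by clear h h3 h4 h5 h6 h7 h8 hj hm g1 g2 g5; omega
    exact h3 ⟨hju, hil, t.1⟩
  · have hju : j + 2 = k := by clear h h3 h4 h5 h6 h7 h8 hi hv hm; omega
    clear h h1 h2 h3 h4 h5 h6 h7 h8; omega
  · have hju : j + 2 = k := by clear h h3 h4 h5 h6 h7 h8 hi hv hm; omega
    clear h h1 h2 h3 h4 h5 h6 h7 h8; omega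
  · have hju : j + 2 = k := by clear h h3 h4 h5 h6 h7 h8 hi hv hm; omega
    have h7' : ¬ (i + 3 ≤ l) := fun q => h7 ⟨t.1, hju, q⟩
    have h3' : i + 2 ≠ l := fun q => h3 ⟨hju, q, t.2.1⟩
    clear h h1 h2 h3 h4 h5 h6 h7 h8; omega
  · have hju : j + 2 = k := by clear h h3 h4 h5 h6 h7 h8 hi hv hm; omega
    have h7' : ¬ (i + 3 ≤ l) := fun q => h7 ⟨t.1, hju, q⟩
    have h3' : i + 2 ≠ l := fun q => h3 ⟨hju, q, t.2.1⟩
    clear h h1 h2 h3 h4 h5 h6 h7 h8; omega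

theorem nd1' (h : labB (2 * k) (2 * l) e1 e2 a b x y = (1, u, v, w)) :
    ¬ (w + 2 = l ∧ k ≤ u + 1 ∧ v ≤ k + 1) := by
  obtain ⟨h1, h2, h3, h4, h5, h6, h7, h8⟩ := hs
  have a1 := ltD g1 g2 hj h2
  have a2 := ltD' g3 g4 hi h1
  rintro ⟨hw, hu, hv⟩
  rcases specB1 (2 * k) (2 * l) e1 e2 a b x y _ _ _ (by omega) h0 g1 g2 g3 g4 g5 h with
    t | t | t | t | t | t | t | t | t | t | t
  · have hju : j + 1 = k := by clear h h3 h4 h5 h6 h7 h8 hi hm; omega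
    have hil : i + 2 = l := by clear h h3 h4 h5 h6 h7 h8 hj hm g1 g2 g5; omega
    exact h4 ⟨hju, hil⟩
  all_goals clear h h1 h2 h3 h4 h5 h6 h7 h8; omega

end nd

end Pool.Agent.Q11.TF
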