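import Pool.Agent.Q11.TF.EvD
import Pool.Agent.Q11.TF.NdD2
import Pool.Agent.Q11.TF.CliqueD
import Pool.Agent.Q11.TF.CoverB

/-!
# Each noncentral class of labD has a member of rank n + m - 1
-/

namespace Pool.Agent.Q11.TF

set_option maxHeartbeats 4000000
set_option linter.unusedVariables false

theorem coverD_0s (k l e1 e2 u v w : ℕ) (hk : 3 ≤ k) (hl : 3 ≤ l) (hu : u + 1 = k)
    (hvw : v < w) (c2 : (v + 2 = l ∧ w ≤ l + 2) ∨ (w = l + 2 ∧ l ≤ v + 2)) :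
    ∃ q : Q, Val (2 * k) (2 * l) q ∧ rk q + 1 = 2 * k + 2 * l ∧
      lD k l e1 e2 q = (0, u, v, w) := by
  obtain rfl : u = k - 1 := by omega
  by_cases h1 : v + w + 1 ≤ 2 * l
  · refine ⟨(k + 2 * l - 2 - v - w, k + 1, v, w), ?_, ?_, ?_⟩
    · simp only [Val]; omega
    · simp only [rk]; omega
    · dsimp only [lD]; exact evD0a k l e1 e2 _ _ v w hk hl (by omega) (by omega) hvw c2 (by omega)
  by_cases h2 : v + w ≤ 2 * l + 1
  · refine ⟨(k - 1, k + 2 * l - v - w, v, w), ?_, ?_, ?_⟩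
    · simp only [Val]; omega
    · simp only [rk]; omega
    · dsimp only [lD]; exact evD0a k l e1 e2 _ _ v w hk hl (by omega) (by omega) hvw c2 (by omega)
  by_cases h3 : v + w = 2 * l + 2
  · obtain ⟨rfl, rfl⟩ : v = l ∧ w = l + 2 := by omega
    refine ⟨(k - 1, k - 1, v, v + 1), ?_, ?_, evD0b k v e1 e2 hk hl⟩
    · simp only [Val]; omega
    · simp only [rk]; omega
  · obtain ⟨rfl, rfl⟩ : v = l + 1 ∧ w = l + 2 := by omega
    refine ⟨(k - 2, k - 2, l + 1, l + 2), ?_, ?_, evD0c k l e1 e2 hk hl⟩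
    · simp only [Val]; omega
    · simp only [rk]; omega

theorem coverD_0n (k l e1 e2 a b x y u v w : ℕ) (hk : 3 ≤ k) (hl : 3 ≤ l)
    (hm : (e1 = 0 ∧ k % 2 = 1) ∨ (e2 = 0 ∧ l % 2 = 1)) (he : k + e2 = l + e1)
    (h0 : e1 = 0 ∨ e2 = 0) (hp : Val (2 * k) (2 * l) (a, b, x, y))
    (hu : u + 2 ≤ k) (hn : NSD k l a b x y (min a (2 * k - b)) (min x (2 * l - y)))
    (hb : labB (2 * k) (2 * l) e1 e2 a b x y = (0, u, v, w)) :
    ∃ q : Q, Val (2 * k) (2 * l) q ∧ rk q + 1 = 2 * k + 2 * l ∧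
      lD k l e1 e2 q = (0, u, v, w) := by
  have hg := goodB (2 * k) (2 * l) e1 e2 a b x y (by omega) h0 hp
  obtain ⟨g1, g2, g3, g4, g5⟩ := hp
  simp only at g1 g2 g3 g4 g5
  have hc := nd0' k l e1 e2 a b x y _ _ u v w hk hl hm he h0 g1 g2 g3 g4 g5 rfl rfl hn hb
  rw [hb] at hg
  simp only [GB] at hg
  have hg0 : GB0 (2 * k) (2 * l) e1 e2 u v w := by
    rcases hg with ⟨_, h⟩ | ⟨h, _⟩ | ⟨h, _⟩ | ⟨h, _⟩ | ⟨h, _⟩ | ⟨h, _⟩
    · exact h
    all_goals omega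
  obtain ⟨A, B, h1, h2, h4, h3⟩ := wit0 (2 * k) (2 * l) e1 e2 u v w (by omega) h0 (by omega) hg0
  refine ⟨_, h1, h2, ?_⟩
  rw [← h3]
  simp only [Val] at h1
  simp only [GB0] at hg0
  have hvw := hg0.1
  have hj : min A (2 * k - B) = u := h4.2
  dsimp only [lD]
  refine labD_of_NSD _ _ _ _ _ _ _ _ ?_
  rw [hj]
  have a1 : ¬ (v = l ∧ w = l) := by omega
  have a2 : ¬ (A = k ∧ B = k) := by omega
  have a3 : ¬ (u + 2 = k ∧ min v (2 * l - w) + 2 = l ∧ v < w) := by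
    clear h3 hg hb hn g1 g2 g3 g4 g5 hm h4 h1 h2 hj a1 a2
    rintro ⟨q1, q2, q3⟩
    apply hc
    refine ⟨q1, ?_⟩
    clear hc
    omega
  have a6 : ¬ (A = B ∧ u + 2 = k ∧ min v (2 * l - w) + 3 ≤ l) := by
    clear h3 hg hb hn g1 g2 g3 g4 g5 hm h4 h1 h2 hj a1 a2 hc a3
    omega
  exact ⟨a1, a2, a3, fun q => by have := q.1; omega, fun q => by have := q.1; omega,
    fun q => by have := q.2.1; omega, a6, fun q => by have := q.1; omega⟩

theorem coverD_1s (k l e1 e2 u v w : ℕ) (hk : 3 ≤ k) (hl : 3 ≤ l) (hw : w + 1 = l)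
    (h1 : k ≤ u + 1) (h2 : v ≤ k + 1) (h3 : u < v) :
    ∃ q : Q, Val (2 * k) (2 * l) q ∧ rk q + 1 = 2 * k + 2 * l ∧
      lD k l e1 e2 q = (1, u, v, w) := by
  obtain rfl : w = l - 1 := by omega
  by_cases c1 : u + v + 1 = 2 * k
  · refine ⟨(u, v, l - 1, l + 1), ?_, ?_, ?_⟩
    · simp only [Val]; omega
    · simp only [rk]; omega
    · dsimp only [lD]; exact evD1 k l e1 e2 u v _ _ hk hl (by omega) (by omega) h3 (by omega) (by omega)
        (by omega) (by omega)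
  by_cases c2 : u + v = 2 * k
  · refine ⟨(u, v, l - 1, l), ?_, ?_, ?_⟩
    · simp only [Val]; omega
    · simp only [rk]; omega
    · dsimp only [lD]; exact evD1 k l e1 e2 u v _ _ hk hl (by omega) (by omega) h3 (by omega) (by omega)
        (by omega) (by omega)
  · refine ⟨(u, v, l - 1, l - 1), ?_, ?_, ?_⟩
    · simp only [Val]; omega
    · simp only [rk]; omega
    · dsimp only [lD]; exact evD1 k l e1 e2 u v _ _ hk hl (by omega) (by omega) h3 (by omega) (by omega)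
        (by omega) (by omega)

theorem coverD_1g (k l e1 e2 u v w : ℕ) (hk : 3 ≤ k) (hl : 3 ≤ l)
    (he : k + e2 = l + e1) (h0 : e1 = 0 ∨ e2 = 0)
    (hw : w + 2 ≤ l) (hc : ¬ (w + 2 = l ∧ k ≤ u + 1 ∧ v ≤ k + 1))
    (hg : GB1 (2 * k) (2 * l) e1 e2 u v w) :
    ∃ q : Q, Val (2 * k) (2 * l) q ∧ rk q + 1 = 2 * k + 2 * l ∧
      lD k l e1 e2 q = (1, u, v, w) := by
  obtain ⟨A, B, X, Y, h1, h2, h4, h5, h3⟩ :=
    wit1 (2 * k) (2 * l) e1 e2 u v w (by omega) h0 (by omega) hg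
  refine ⟨_, h1, h2, ?_⟩
  rw [← h3]
  clear h3
  obtain ⟨g1, g2, g3, g4, g5⟩ := h1
  simp only at g1 g2 g3 g4 g5
  simp only [GB1] at hg
  obtain ⟨r1, r2, r3, r4⟩ := hg
  dsimp only [lD]
  refine labD_of_NSD _ _ _ _ _ _ _ _ ?_
  rcases h5 with s | s | s | s | s
  · obtain ⟨rfl, rfl, s3, hi⟩ := s
    rw [hi]
    refine ⟨?_, ?_, ?_, ?_, ?_, ?_, ?_, ?_⟩
    · clear r4 hc; omega
    · clear r4 hc; omega
    · clear hc
      rintro ⟨q1, q2, q3⟩
      rcases r4 with r4 | r4 | r4 <;> omega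
    · rintro ⟨q1, q2⟩
      apply hc
      clear hc
      refine ⟨q2, ?_, ?_⟩ <;> omega
    · clear r4 hc; omega
    · clear r4 hc; omega
    · clear r4 hc; omega
    · clear r4 hc; omega
  · have hi : min X (2 * l - Y) + 1 = w := by clear hc r4; omega
    clear hc r4
    refine ⟨by omega, by omega, ?_, ?_, ?_, ?_, ?_, ?_⟩ <;> omega
  · have hi : min X (2 * l - Y) + 1 = w := by clear hc r4; omega
    clear hc r4
    refine ⟨by omega, by omega, ?_, ?_, ?_, ?_, ?_, ?_⟩ <;> omega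
  · have hi : min X (2 * l - Y) = w := by clear hc r4; omega
    have hx : X = Y := s.1
    have key : ¬ (min A (2 * k - B) + 1 = k ∧ w + 2 = l) := by
      clear hc
      rintro ⟨q1, q2⟩
      rcases r4 with r4 | r4 | r4 <;> omega
    rw [hi]
    clear hc r4
    refine ⟨by omega, by omega, by omega, key, by omega, by omega, by omega, by omega⟩
  · have hi : min X (2 * l - Y) + 1 = w := by clear hc r4; omega
    clear hc r4
    refine ⟨by omega, by omega, ?_, ?_, ?_, ?_, ?_, ?_⟩ <;> omega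

theorem coverD_2s (k l e1 e2 u v : ℕ) (hk : 3 ≤ k) (hl : 3 ≤ l) (hu : u + 1 = k ∨ u + 2 = k)
    (hv : (1 ≤ v ∧ v + 2 ≤ l) ∨ (l + 3 ≤ v ∧ v ≤ 2 * l)) :
    ∃ q : Q, Val (2 * k) (2 * l) q ∧ rk q + 1 = 2 * k + 2 * l ∧
      lD k l e1 e2 q = (2, u, v, 0) := by
  rcases hu with hu | hu <;> rcases hv with hv | hv
  · obtain rfl : u = k - 1 := by omega
    refine ⟨(k + 1, k + 1, v - 1, 2 * l - 2 - v), ?_, ?_, evD2b k l e1 e2 v hk hl hv.2 hv.1⟩
    · simp only [Val]; omega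
    · simp only [rk]; omega
  · obtain rfl : u = k - 1 := by omega
    refine ⟨(k - 1, k - 1, 2 * l + 1 - v, v), ?_, ?_, evD2a k l e1 e2 v hk hl hv.1 hv.2⟩
    · simp only [Val]; omega
    · simp only [rk]; omega
  · obtain rfl : u = k - 2 := by omega
    refine ⟨(k + 2, k + 2, v - 1, 2 * l - 4 - v), ?_, ?_, evD2d k l e1 e2 v hk hl hv.2 hv.1⟩
    · simp only [Val]; omega
    · simp only [rk]; omega
  · obtain rfl : u = k - 2 := by omega
    refine ⟨(k - 2, k - 2, 2 * l + 3 - v, v), ?_, ?_, evD2c k l e1 e2 v hk hl hv.1 hv.2⟩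
    · simp only [Val]; omega
    · simp only [rk]; omega

theorem coverD_2n (k l e1 e2 u v w : ℕ) (hk : 3 ≤ k) (hl : 3 ≤ l)
    (he : k + e2 = l + e1) (h0 : e1 = 0 ∨ e2 = 0)
    (hu : u + 3 ≤ k) (hg : GB2 (2 * k) (2 * l) e1 e2 u v w) :
    ∃ q : Q, Val (2 * k) (2 * l) q ∧ rk q + 1 = 2 * k + 2 * l ∧
      lD k l e1 e2 q = (2, u, v, w) := by
  obtain ⟨A, X, Y, h1, h2, h4, h5, h6, h3⟩ :=
    wit2 (2 * k) (2 * l) e1 e2 u v w (by omega) h0 (by omega) hg
  refine ⟨_, h1, h2, ?_⟩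
  rw [← h3]
  clear h3
  obtain ⟨g1, g2, g3, g4, g5⟩ := h1
  simp only at g1 g2 g3 g4 g5
  have hj : min A (2 * k - A) = u := by omega
  dsimp only [lD]
  refine labD_of_NSD _ _ _ _ _ _ _ _ ?_
  rw [hj]
  refine ⟨by omega, by omega, by omega, by omega, by omega, by omega, by omega, by omega⟩

theorem coverD_3 (k l e1 e2 u v : ℕ) (hk : 3 ≤ k) (hl : 3 ≤ l) (hu : u + 1 = l)
    (hv : (1 ≤ v ∧ v + 1 ≤ k) ∨ (k + 2 ≤ v ∧ v ≤ 2 * k)) :
    ∃ q : Q, Val (2 * k) (2 * l) q ∧ rk q + 1 = 2 * k + 2 * l ∧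
      lD k l e1 e2 q = (3, u, v, 0) := by
  obtain rfl : u = l - 1 := by omega
  rcases hv with hv | hv
  · refine ⟨(v - 1, 2 * k - 2 - v, l + 1, l + 1), ?_, ?_, evD3b k l e1 e2 v hk hl hv.2 hv.1⟩
    · simp only [Val]; omega
    · simp only [rk]; omega
  · refine ⟨(2 * k + 1 - v, v, l - 1, l - 1), ?_, ?_, evD3a k l e1 e2 v hk hl hv.1 hv.2⟩
    · simp only [Val]; omega
    · simp only [rk]; omega

theorem coverD_4 (k l e1 e2 u v w : ℕ) (hk : 3 ≤ k) (hl : 3 ≤ l)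
    (he : k + e2 = l + e1) (h0 : e1 = 0 ∨ e2 = 0)
    (hu : u + 2 ≤ l) (hg : GB4 (2 * k) (2 * l) e1 e2 u v w) :
    ∃ q : Q, Val (2 * k) (2 * l) q ∧ rk q + 1 = 2 * k + 2 * l ∧
      lD k l e1 e2 q = (4, u, v, w) := by
  obtain ⟨h1, h2, h3⟩ := w4 (2 * k) (2 * l) e1 e2 u v w (by omega) h0 (by omega) hg
  refine ⟨_, h1, h2, ?_⟩
  rw [← h3]
  clear h3
  simp only [Val] at h1
  simp only [GB4] at hg
  have hj : min (v - 2) (2 * k - (2 * k + 1 + 2 * u - 2 * l - v)) + 4 ≤ k := by omega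
  have hi : min (2 * l - u) (2 * l - (2 * l - u)) = u := by omega
  dsimp only [lD]
  refine labD_of_NSD _ _ _ _ _ _ _ _ ?_
  rw [hi]
  refine ⟨by omega, by omega, by omega, by omega, by omega, by omega, by omega, by omega⟩

theorem coverD_5 (k l e1 e2 u v w : ℕ) (hk : 3 ≤ k) (hl : 3 ≤ l)
    (he : k + e2 = l + e1) (h0 : e1 = 0 ∨ e2 = 0)
    (hu : u + 2 ≤ l) (hg : GB5 (2 * k) (2 * l) e1 e2 u v w) :
    ∃ q : Q, Val (2 * k) (2 * l) q ∧ rk q + 1 = 2 * k + 2 * l ∧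
      lD k l e1 e2 q = (5, u, v, w) := by
  obtain ⟨h1, h2, h3⟩ := w5 (2 * k) (2 * l) e1 e2 u v w (by omega) h0 (by omega) hg
  refine ⟨_, h1, h2, ?_⟩
  rw [← h3]
  clear h3
  simp only [Val] at h1
  simp only [GB5] at hg
  have hj : min (2 * k + 2 * l - 2 - v - 2 * u) (2 * k - (v + 1)) = 2 * k - (v + 1) := by omega
  have hi : min u (2 * l - u) = u := by omega
  dsimp only [lD]
  refine labD_of_NSD _ _ _ _ _ _ _ _ ?_
  rw [hi, hj]
  refine ⟨by omega, by omega, by omega, by omega, by omega, by omega, by omega, by omega⟩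

theorem coverD_6 (k l e1 e2 t : ℕ) (hk : 3 ≤ k) (hl : 3 ≤ l) (ht : t ≤ 5) :
    ∃ q : Q, Val (2 * k) (2 * l) q ∧ rk q + 1 = 2 * k + 2 * l ∧
      lD k l e1 e2 q = (6, t, 0, 0) := by
  by_cases c1 : t ≤ 1
  · refine ⟨(k - t, k + 2, l - 2, l - 1 + t), ?_, ?_, ?_⟩
    · simp only [Val]; omega
    · simp only [rk]; omega
    · dsimp only [lD]; exact evD6 k l e1 e2 _ _ _ _ t hk hl (by omega) (by omega) (by omega) (by omega)
        (by omega) (by omega) ht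
  by_cases c2 : t ≤ 3
  · refine ⟨(k - 2, k + 4 - t, l - 2, l - 1 + t), ?_, ?_, ?_⟩
    · simp only [Val]; omega
    · simp only [rk]; omega
    · dsimp only [lD]; exact evD6 k l e1 e2 _ _ _ _ t hk hl (by omega) (by omega) (by omega) (by omega)
        (by omega) (by omega) ht
  · refine ⟨(k - 2, k + 4 - t, l + t - 5, l + 2), ?_, ?_, ?_⟩
    · simp only [Val]; omega
    · simp only [rk]; omega
    · dsimp only [lD]; exact evD6 k l e1 e2 _ _ _ _ t hk hl (by omega) (by omega) (by omega) (by omega)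
        (by omega) (by omega) ht

theorem coverD : S_coverD := by
  rintro k l e1 e2 hk hl hm he h0 ⟨a, b, x, y⟩ hp h7 h8
  have hm' := parD hm he h0
  have ht := tagD k l e1 e2 a b x y
  simp only [lD] at h7 h8
  have e : lD k l e1 e2 (a, b, x, y) = labD k l e1 e2 a b x y := rfl
  rw [e]
  clear e
  obtain ⟨⟨t, u, v, w⟩, hL⟩ : ∃ L : Q, L = labD k l e1 e2 a b x y := ⟨_, rfl⟩
  rw [← hL] at h7 h8 ht ⊢
  have h1 := hL.symm
  clear hL
  simp only at h7 h8 ht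
  have hv := hp
  obtain ⟨g1, g2, g3, g4, g5⟩ := hv
  simp only at g1 g2 g3 g4 g5
  interval_cases t
  · rcases specD0 k l e1 e2 a b x y u v w hk hl hm' he h0 g1 g2 g3 g4 g5 h1 with
      ⟨hu, s⟩ | ⟨hu, hn, hb⟩
    · have hc : v < w ∧ ((v + 2 = l ∧ w ≤ l + 2) ∨ (w = l + 2 ∧ l ≤ v + 2)) := by
        clear h1 h7 h8 hm hm' he h0 ht hp
        rcases s with s | s | s | s | s | s | s | s <;> omega
      exact coverD_0s k l e1 e2 u v w hk hl hu hc.1 hc.2
    · exact coverD_0n k l e1 e2 a b x y u v w hk hl hm' he h0 hp hu hn hb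
  · rcases specD1 k l e1 e2 a b x y u v w hk hl hm' he h0 g1 g2 g3 g4 g5 h1 with
      s | s | s | s | s | s | ⟨hw, hn, hb⟩
    · clear h1 h7 h8 hm hm' he h0 ht hp
      exact coverD_1s k l e1 e2 u v w hk hl (by omega) (by omega) (by omega) (by omega)
    · clear h1 h7 h8 hm ht hp
      exact coverD_1g k l e1 e2 u v w hk hl he h0 (by omega) (by omega)
        (by simp only [GB1]; omega)
    · clear h1 h7 h8 hm ht hp
      exact coverD_1g k l e1 e2 u v w hk hl he h0 (by omega) (by omega)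
        (by simp only [GB1]; omega)
    · clear h1 h7 h8 hm hm' he h0 ht hp
      exact coverD_1s k l e1 e2 u v w hk hl (by omega) (by omega) (by omega) (by omega)
    · clear h1 h7 h8 hm hm' he h0 ht hp
      exact coverD_1s k l e1 e2 u v w hk hl (by omega) (by omega) (by omega) (by omega)
    · clear h1 h7 h8 hm hm' he h0 ht hp
      exact coverD_1s k l e1 e2 u v w hk hl (by omega) (by omega) (by omega) (by omega)
    · have hc := nd1' k l e1 e2 a b x y _ _ u v w hk hl hm' he h0 g1 g2 g3 g4 g5 rfl rfl hn hb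
      have hg := goodB (2 * k) (2 * l) e1 e2 a b x y (by omega) h0 hp
      rw [hb] at hg
      simp only [GB] at hg
      have hg1 : GB1 (2 * k) (2 * l) e1 e2 u v w := by
        rcases hg with ⟨h, _⟩ | ⟨_, h⟩ | ⟨h, _⟩ | ⟨h, _⟩ | ⟨h, _⟩ | ⟨h, _⟩
        · omega
        · exact h
        all_goals omega
      exact coverD_1g k l e1 e2 u v w hk hl he h0 hw hc hg1
  · obtain ⟨hw, s⟩ := specD2 k l e1 e2 a b x y u v w hk hl hm' he h0 g1 g2 g3 g4 g5 h1
    subst hw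
    rcases s with s | s | s | s | s | ⟨hu, hn, hb⟩
    · clear h1 h7 h8 hm hm' he h0 ht hp
      exact coverD_2s k l e1 e2 u v hk hl (by omega) (by omega)
    · clear h1 h7 h8 hm hm' he h0 ht hp
      exact coverD_2s k l e1 e2 u v hk hl (by omega) (by omega)
    · clear h1 h7 h8 hm hm' he h0 ht hp
      exact coverD_2s k l e1 e2 u v hk hl (by omega) (by omega)
    · clear h1 h7 h8 hm hm' he h0 ht hp
      exact coverD_2s k l e1 e2 u v hk hl (by omega) (by omega)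
    · clear h1 h7 h8 hm hm' he h0 ht hp
      exact coverD_2s k l e1 e2 u v hk hl (by omega) (by omega)
    · have hg := goodB (2 * k) (2 * l) e1 e2 a b x y (by omega) h0 hp
      rw [hb] at hg
      simp only [GB] at hg
      have hg1 : GB2 (2 * k) (2 * l) e1 e2 u v 0 := by
        rcases hg with ⟨h, _⟩ | ⟨h, _⟩ | ⟨_, h⟩ | ⟨h, _⟩ | ⟨h, _⟩ | ⟨h, _⟩
        · omega
        · omega
        · exact h
        all_goals omega
      exact coverD_2n k l e1 e2 u v 0 hk hl he h0 hu hg1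
  · obtain ⟨hw, hu, s⟩ := specD3 k l e1 e2 a b x y u v w hk hl hm' he h0 g1 g2 g3 g4 g5 h1
    subst hw
    clear h1 h7 h8 hm hm' he h0 ht hp
    exact coverD_3 k l e1 e2 u v hk hl hu (by omega)
  · obtain ⟨hu, hn, hb⟩ := specD4 k l e1 e2 a b x y u v w hk hl hm' he h0 g1 g2 g3 g4 g5 h1
    have hg := goodB (2 * k) (2 * l) e1 e2 a b x y (by omega) h0 hp
    rw [hb] at hg
    simp only [GB] at hg
    have hg1 : GB4 (2 * k) (2 * l) e1 e2 u v w := by
      rcases hg with ⟨h, _⟩ | ⟨h, _⟩ | ⟨h, _⟩ | ⟨h, _⟩ | ⟨_, h⟩ | ⟨h, _⟩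
      · omega
      · omega
      · omega
      · omega
      · exact h
      · omega
    exact coverD_4 k l e1 e2 u v w hk hl he h0 hu hg1
  · obtain ⟨hu, hn, hb⟩ := specD5 k l e1 e2 a b x y u v w hk hl hm' he h0 g1 g2 g3 g4 g5 h1
    have hg := goodB (2 * k) (2 * l) e1 e2 a b x y (by omega) h0 hp
    rw [hb] at hg
    simp only [GB] at hg
    have hg1 : GB5 (2 * k) (2 * l) e1 e2 u v w := by
      rcases hg with ⟨h, _⟩ | ⟨h, _⟩ | ⟨h, _⟩ | ⟨h, _⟩ | ⟨h, _⟩ | ⟨_, h⟩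
      · omega
      · omega
      · omega
      · omega
      · omega
      · exact h
    exact coverD_5 k l e1 e2 u v w hk hl he h0 hu hg1
  · obtain ⟨hv, hw, s⟩ := specD6 k l e1 e2 a b x y u v w hk hl hm' he h0 g1 g2 g3 g4 g5 h1
    subst hv hw
    refine coverD_6 k l e1 e2 u hk hl ?_
    clear h1 h7 h8 hm hm' he h0 ht hp
    rcases s with ⟨s1, s2, s3, s4, s5, s6⟩ | s | s
    · clear s5 s6 s1
      rcases s4 with s4 | s4 <;> omega
    · omega
    · omega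
  · exact absurd rfl h7
  · exact absurd rfl h8

end Pool.Agent.Q11.TF
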