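import Mathlib

/-!
# Label functions for clique covers of the pairs of subgroups of a cyclic group of order p^n q^m

A pair K < H of subgroups is written as four numbers a <= b <= n, x <= y <= m:
K has order p^a q^x and H has order p^b q^y.
-/

namespace Pool.Agent.Q11.TF

/-- a quadruple of natural numbers (a, b, x, y); also used for labels -/
abbrev Q := ℕ × ℕ × ℕ × ℕ

/-- the quadruple stands for a pair K < H of subgroups -/
def Val (n m : ℕ) (p : Q) : Prop :=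
  p.1 ≤ p.2.1 ∧ p.2.1 ≤ n ∧ p.2.2.1 ≤ p.2.2.2 ∧ p.2.2.2 ≤ m ∧
    (p.1 < p.2.1 ∨ p.2.2.1 < p.2.2.2)

/-- componentwise order -/
def Le (p q : Q) : Prop :=
  p.1 ≤ q.1 ∧ p.2.1 ≤ q.2.1 ∧ p.2.2.1 ≤ q.2.2.1 ∧ p.2.2.2 ≤ q.2.2.2

/-- the upper subgroup of p is not contained in the lower subgroup of q -/
def Ov (p q : Q) : Prop := q.1 < p.2.1 ∨ q.2.2.1 < p.2.2.2

/-- comparable pairs that may not both lie in a strong set -/
def Conf (p q : Q) : Prop := (Le p q ∧ Ov p q) ∨ (Le q p ∧ Ov q p)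

/-- strong sets: two different members K < H and K' < H' with K ≤ K', H ≤ H' satisfy H ≤ K' -/
def Strong (S : Finset Q) : Prop :=
  ∀ p ∈ S, ∀ q ∈ S, p ≠ q → Le p q → (p.2.1 ≤ q.1 ∧ p.2.2.2 ≤ q.2.2.1)

/-- label function for n = 2 k and m = 2 w + 1 -/
def labA (k w a b x y : ℕ) : Q :=
  let j := min a (2 * k - b)
  let i := min x (2 * w + 1 - y)
  if x < y ∧ w + j < k + i then (0, j, x, y)
  else if a < b ∧ k + i ≤ w + j then (1, a, b, i)
  else if a < b then
    (if x ≤ w then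
      (if b + w ≤ k + i ∨ k + w < b + i then (3, i, b, 0) else (1, b - 1, b, i))
     else
      (if a + w < k + i ∨ k + w ≤ a + i then (3, i, a + 1, 0) else (1, a, a + 1, i)))
  else if a = k then
    (if y = x + 1 ∧ y ≠ w + 1 then (2, k - 1, y, 0) else (7, 0, 0, 0))
  else if a < k then
    (if y + k ≤ w + 1 + j ∨ w + k < y + j then (2, j, y, 0) else (0, j, y - 1, y))
  else
    (if x + k < w + 1 + j ∨ w + k ≤ x + j then (2, j, x + 1, 0) else (0, j, x, x + 1))

/-- label function for n + m even, paired squares; `n + 2 * e2 = m + 2 * e1`, `e1 = 0 ∨ e2 = 0`;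
no central lines -/
def labB (n m e1 e2 a b x y : ℕ) : Q :=
  let j := min a (n - b)
  let i := min x (m - y)
  if i + e1 = j + e2 + 1 ∧ (i - e2) % 2 = 1 then
    (if a < b then (1, a, b, i)
     else if 2 * a ≤ n then (0, j, y - 1, m + 1 - i)
     else (0, j, i - 1, x + 1))
  else if x < y ∧ j + e2 ≤ i + e1 then (0, j, x, y)
  else if a < b ∧ i + e1 < j + e2 then (1, a, b, i)
  else if a = b then
    (if 2 * a ≤ n then
      (if y + e1 ≤ j + e2 ∨ m + e1 < y + j + e2 then (2, j, y, 0) else (0, j, j + e2 - e1, y))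
     else
      (if x + 1 + e1 ≤ j + e2 ∨ m + e1 < x + 1 + j + e2 then (2, j, x + 1, 0)
       else (0, j, x, m + e1 - (j + e2))))
  else if (i - e2) % 2 = 0 ∧ 2 * i + 3 ≤ m then
    (if 2 * x ≤ m then
      (if i + e1 + 2 ≤ b + e2 ∧ b + i + e1 + 1 ≤ n + e2 then (1, b - 1, b, i)
       else (1, b - 1, b, i + 1))
     else
      (if i + e1 + 1 ≤ a + e2 ∧ a + i + e1 + 2 ≤ n + e2 then (1, a, a + 1, i)
       else (1, a, a + 1, i + 1)))
  else if (i - e2) % 2 = 0 then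
    (if 2 * x ≤ m then (3, i, b, 0) else (3, i, a + 1, 0))
  else
    (if 2 * x ≤ m then
      (if b + e2 ≤ i + e1 then (if b = a + 1 then (1, a, b, i) else (4, i, b, 0))
       else if b + i + e1 = n + e2 + 1 then (1, i + e1 - e2 - 1, b, i)
       else if b + i + e1 ≤ n + e2 then (1, b - 1, n + e2 + 1 - (i + e1), i)
       else (if b = a + 1 then (1, a, b, i) else (5, i, b - 1, 0)))
     else
      (if n + e2 ≤ a + i + e1 then (if b = a + 1 then (1, a, b, i) else (5, i, a + 1, 0))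
       else if a + e2 + 1 = i + e1 then (1, a, n + e2 + 1 - (i + e1), i)
       else if i + e1 ≤ a + e2 then (1, i + e1 - e2 - 1, a + 1, i)
       else (if b = a + 1 then (1, a, b, i) else (4, i, a + 2, 0))))

/-- label function for n = 2 k, m = 2 l, min n m divisible by 4 -/
def labC (k l e1 e2 a b x y : ℕ) : Q :=
  if x = l ∧ y = l then
    (if b = a + 1 ∧ (b + 1 ≤ k ∨ k + 2 ≤ b) then (1, a, b, l - 1) else (8, 0, 0, 0))
  else if a = k ∧ b = k then
    (if y = x + 1 ∧ (y + 1 ≤ l ∨ l + 2 ≤ y) then (2, k - 1, y, 0) else (7, 0, 0, 0))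
  else if x + 1 = l ∧ y = l + 1 ∧ ((a + 2 = k ∧ b + 1 = k) ∨ (a = k + 1 ∧ b = k + 2)) then
    (0, k - 1, l - 1, l + 1)
  else if a + 1 = k ∧ b + 1 = k ∧ y = l + 1 ∧ x + 2 ≤ l then (0, k - 1, l, l + 1)
  else if a = k + 1 ∧ b = k + 1 ∧ x + 1 = l ∧ l + 2 ≤ y then (0, k - 1, l - 1, l)
  else labB (2 * k) (2 * l) e1 e2 a b x y

/-- label function for n = 2 k, m = 2 l, min n m = 2 mod 4, 6 ≤ min n m -/
def labD (k l e1 e2 a b x y : ℕ) : Q :=
  let j := min a (2 * k - b)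
  let i := min x (2 * l - y)
  if x = l ∧ y = l then
    (if b = a + 1 ∧ (b + 1 ≤ k ∨ k + 2 ≤ b) then (3, l - 1, b, 0) else (8, 0, 0, 0))
  else if a = k ∧ b = k then
    (if y = x + 1 ∧ (y + 2 ≤ l ∨ l + 3 ≤ y) then (2, k - 1, y, 0)
     else if y = x + 1 ∧ y + 1 = l then (0, k - 1, l - 2, l - 1)
     else if y = x + 1 ∧ y = l + 2 then (0, k - 1, l + 1, l + 2)
     else (7, 0, 0, 0))
  else if j + 2 = k ∧ i + 2 = l ∧ x < y then
    -- block (4,4): shifted rows
    (if x = l + 1 ∧ y = l + 2 ∧ a + 2 = k ∧ b + 1 ≤ k then (0, k - 1, l + 1, l + 2)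
     else if x + 2 = l ∧ y + 1 = l ∧ b = k + 2 ∧ k + 1 ≤ a then (0, k - 1, l - 2, l - 1)
     else if a + b + x + y ≤ 2 * k + 2 * l ∧ x + y ≤ 2 * l + 2 then (6, x + y + 3 - 2 * l, 0, 0)
     else (6, x + y + 2 - 2 * l, 0, 0))
  else if j + 1 = k ∧ i + 2 = l then
    -- block (2,4): rows
    (if x < y then
      (if a + 1 = k ∧ b = k + 1 ∧ (y + 1 = l ∨ x = l + 1) then (1, k - 1, k + 1, l - 1)
       else (0, k - 1, x, y))
     else if x < l then (1, b - 1, k + 3, l - 2)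
     else (1, k - 3, a + 1, l - 2))
  else if j + 1 = k ∧ i + 1 = l then
    -- block (2,2): columns
    (if a < b then (1, a, b, l - 1)
     else if a < k then (0, k - 1, y - 1, l + 2)
     else (0, k - 1, l - 2, x + 1))
  else if a = b ∧ j + 1 = k ∧ i + 3 ≤ l then
    (if a < k then
      (if y + 2 ≤ l ∨ l + 3 ≤ y then (2, k - 1, y, 0) else (0, k - 1, l - 2, y))
     else
      (if x + 3 ≤ l ∨ l + 2 ≤ x then (2, k - 1, x + 1, 0) else (0, k - 1, x, l + 2)))
  else if a = b ∧ j + 2 = k ∧ i + 3 ≤ l then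
    (if a < k then
      (if y + 2 ≤ l ∨ l + 3 ≤ y then (2, k - 2, y, 0) else (6, y + 1 - l, 0, 0))
     else
      (if x + 3 ≤ l ∨ l + 2 ≤ x then (2, k - 2, x + 1, 0) else (6, x + 4 - l, 0, 0)))
  else if x = y ∧ i + 1 = l ∧ j + 2 ≤ k then
    (if x < l then
      (if b + 1 ≤ k ∨ k + 2 ≤ b then (3, l - 1, b, 0)
       else (1, b - 1, b, l - 1))
     else
      (if a + 2 ≤ k ∨ k + 1 ≤ a then (3, l - 1, a + 1, 0)
       else (1, a, a + 1, l - 1)))
  else labB (2 * k) (2 * l) e1 e2 a b x y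

end Pool.Agent.Q11.TF
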