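import Pool.Agent.Q11.TF.StageD

/-!
# Evaluation of labD at the members of rank n + m - 1 of the special classes
-/

namespace Pool.Agent.Q11.TF

set_option maxHeartbeats 4000000
set_option linter.unusedVariables false

theorem evD0a (k l e1 e2 A B v w : ℕ) (hk : 3 ≤ k) (hl : 3 ≤ l) (hAB : A ≤ B)
    (c1 : (A + 1 = k ∧ B ≤ k + 1) ∨ (B = k + 1 ∧ k ≤ A + 1)) (hvw : v < w)
    (c2 : (v + 2 = l ∧ w ≤ l + 2) ∨ (w = l + 2 ∧ l ≤ v + 2))
    (hr : A + B + v + w + 1 = 2 * k + 2 * l) :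
    labD k l e1 e2 A B v w = (0, k - 1, v, w) := by
  have hj : min A (2 * k - B) = k - 1 := by clear c2 hr hvw; omega
  have hi : min v (2 * l - w) = l - 2 := by clear c1 hr hAB hj; omega
  rw [labD_eq, hj, hi, D0, if_neg (by omega), if_neg (by omega), if_neg (by omega),
    if_pos (by omega), D4, if_pos hvw, if_neg (by omega)]

theorem evD0b (k l e1 e2 : ℕ) (hk : 3 ≤ k) (hl : 3 ≤ l) :
    labD k l e1 e2 (k - 1) (k - 1) l (l + 1) = (0, k - 1, l, l + 2) := by
  have hj : min (k - 1) (2 * k - (k - 1)) = k - 1 := by omega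
  have hi : min l (2 * l - (l + 1)) = l - 1 := by omega
  rw [labD_eq, hj, hi, D0, if_neg (by omega), if_neg (by omega), if_neg (by omega),
    if_neg (by omega), if_pos (by omega), D5, if_neg (by omega), if_pos (by omega)]
  simp

theorem evD0c (k l e1 e2 : ℕ) (hk : 3 ≤ k) (hl : 3 ≤ l) :
    labD k l e1 e2 (k - 2) (k - 2) (l + 1) (l + 2) = (0, k - 1, l + 1, l + 2) := by
  have hj : min (k - 2) (2 * k - (k - 2)) = k - 2 := by omega
  have hi : min (l + 1) (2 * l - (l + 2)) = l - 2 := by omega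
  rw [labD_eq, hj, hi, D0, if_neg (by omega), if_neg (by omega), if_pos (by omega), D3,
    if_pos (by omega)]

theorem evD1 (k l e1 e2 a b x y : ℕ) (hk : 3 ≤ k) (hl : 3 ≤ l) (ha : k ≤ a + 1)
    (hb : b ≤ k + 1) (hab : a < b) (hx : l ≤ x + 1) (hy : y ≤ l + 1) (hxy : x ≤ y)
    (hn : ¬ (x = l ∧ y = l)) :
    labD k l e1 e2 a b x y = (1, a, b, l - 1) := by
  have hj : min a (2 * k - b) = k - 1 := by omega
  have hi : min x (2 * l - y) = l - 1 := by omega
  rw [labD_eq, hj, hi, D0, if_neg (by omega), if_neg (by omega), if_neg (by omega),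
    if_neg (by omega), if_pos (by omega), D5, if_pos hab]

theorem evD2a (k l e1 e2 v : ℕ) (hk : 3 ≤ k) (hl : 3 ≤ l) (hv : l + 3 ≤ v)
    (hv' : v ≤ 2 * l) :
    labD k l e1 e2 (k - 1) (k - 1) (2 * l + 1 - v) v = (2, k - 1, v, 0) := by
  have hj : min (k - 1) (2 * k - (k - 1)) = k - 1 := by omega
  have hi : min (2 * l + 1 - v) (2 * l - v) = 2 * l - v := by omega
  rw [labD_eq, hj, hi, D0, if_neg (by omega), if_neg (by omega), if_neg (by omega),
    if_neg (by omega), if_neg (by omega), if_pos (by omega), D6, if_pos (by omega),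
    if_pos (by omega)]

theorem evD2b (k l e1 e2 v : ℕ) (hk : 3 ≤ k) (hl : 3 ≤ l) (hv : v + 2 ≤ l)
    (hv' : 1 ≤ v) :
    labD k l e1 e2 (k + 1) (k + 1) (v - 1) (2 * l - 2 - v) = (2, k - 1, v, 0) := by
  have hj : min (k + 1) (2 * k - (k + 1)) = k - 1 := by omega
  have hi : min (v - 1) (2 * l - (2 * l - 2 - v)) = v - 1 := by omega
  rw [labD_eq, hj, hi, D0, if_neg (by omega), if_neg (by omega), if_neg (by omega),
    if_neg (by omega), if_neg (by omega), if_pos (by omega), D6, if_neg (by omega),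
    if_pos (by omega), show v - 1 + 1 = v by omega]

theorem evD2c (k l e1 e2 v : ℕ) (hk : 3 ≤ k) (hl : 3 ≤ l) (hv : l + 3 ≤ v)
    (hv' : v ≤ 2 * l) :
    labD k l e1 e2 (k - 2) (k - 2) (2 * l + 3 - v) v = (2, k - 2, v, 0) := by
  have hj : min (k - 2) (2 * k - (k - 2)) = k - 2 := by omega
  have hi : min (2 * l + 3 - v) (2 * l - v) = 2 * l - v := by omega
  rw [labD_eq, hj, hi, D0, if_neg (by omega), if_neg (by omega), if_neg (by omega),
    if_neg (by omega), if_neg (by omega), if_neg (by omega), if_pos (by omega), D7,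
    if_pos (by omega), if_pos (by omega)]

theorem evD2d (k l e1 e2 v : ℕ) (hk : 3 ≤ k) (hl : 3 ≤ l) (hv : v + 2 ≤ l)
    (hv' : 1 ≤ v) :
    labD k l e1 e2 (k + 2) (k + 2) (v - 1) (2 * l - 4 - v) = (2, k - 2, v, 0) := by
  have hj : min (k + 2) (2 * k - (k + 2)) = k - 2 := by omega
  have hi : min (v - 1) (2 * l - (2 * l - 4 - v)) = v - 1 := by omega
  rw [labD_eq, hj, hi, D0, if_neg (by omega), if_neg (by omega), if_neg (by omega),
    if_neg (by omega), if_neg (by omega), if_neg (by omega), if_pos (by omega), D7,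
    if_neg (by omega), if_pos (by omega), show v - 1 + 1 = v by omega]

theorem evD3a (k l e1 e2 v : ℕ) (hk : 3 ≤ k) (hl : 3 ≤ l) (hv : k + 2 ≤ v)
    (hv' : v ≤ 2 * k) :
    labD k l e1 e2 (2 * k + 1 - v) v (l - 1) (l - 1) = (3, l - 1, v, 0) := by
  have hj : min (2 * k + 1 - v) (2 * k - v) = 2 * k - v := by omega
  have hi : min (l - 1) (2 * l - (l - 1)) = l - 1 := by omega
  rw [labD_eq, hj, hi, D0, if_neg (by omega), if_neg (by omega), if_neg (by omega),
    if_neg (by omega), if_neg (by omega), if_neg (by omega), if_neg (by omega),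
    if_pos (by omega), D8, if_pos (by omega), if_pos (by omega)]

theorem evD3b (k l e1 e2 v : ℕ) (hk : 3 ≤ k) (hl : 3 ≤ l) (hv : v + 1 ≤ k)
    (hv' : 1 ≤ v) :
    labD k l e1 e2 (v - 1) (2 * k - 2 - v) (l + 1) (l + 1) = (3, l - 1, v, 0) := by
  have hj : min (v - 1) (2 * k - (2 * k - 2 - v)) = v - 1 := by omega
  have hi : min (l + 1) (2 * l - (l + 1)) = l - 1 := by omega
  rw [labD_eq, hj, hi, D0, if_neg (by omega), if_neg (by omega), if_neg (by omega),
    if_neg (by omega), if_neg (by omega), if_neg (by omega), if_neg (by omega),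
    if_pos (by omega), D8, if_neg (by omega), if_pos (by omega), show v - 1 + 1 = v by omega]

theorem evD6 (k l e1 e2 A B x y t : ℕ) (hk : 3 ≤ k) (hl : 3 ≤ l) (hAB : A ≤ B)
    (c1 : (A + 2 = k ∧ B ≤ k + 2) ∨ (B = k + 2 ∧ k ≤ A + 2)) (hxy : x < y)
    (c2 : (x + 2 = l ∧ y ≤ l + 2) ∨ (y = l + 2 ∧ l ≤ x + 2))
    (hr : A + B + x + y + 1 = 2 * k + 2 * l) (ht : x + y + 3 = 2 * l + t) (ht' : t ≤ 5) :
    labD k l e1 e2 A B x y = (6, t, 0, 0) := by
  have hj : min A (2 * k - B) = k - 2 := by clear c2 hr hxy ht ht'; omega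
  have hi : min x (2 * l - y) = l - 2 := by clear c1 hr hAB hj ht ht'; omega
  rw [labD_eq, hj, hi, D0, if_neg (by omega), if_neg (by omega), if_pos (by omega), D3,
    if_neg (by omega), if_neg (by omega), if_pos (by omega),
    show x + y + 3 - 2 * l = t by omega]

end Pool.Agent.Q11.TF
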