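import Pool.Agent.Q11.TF.StageB

/-!
# The possible labels of labB
-/

namespace Pool.Agent.Q11.TF

set_option maxHeartbeats 4000000
set_option linter.unusedVariables false
set_option linter.unusedSimpArgs false

def GB0 (n m e1 e2 u v z : ℕ) : Prop :=
  v < z ∧ z ≤ m ∧ 2 * u ≤ n ∧ u + e2 ≤ v + e1 ∧ u + e2 + z ≤ m + e1 ∧
    ¬ (((v + e1 = u + e2 + 1 ∧ v + z ≤ m) ∨ (z + u + e2 + 1 = m + e1 ∧ m ≤ v + z)) ∧
      (u + e2 + 1 - e1 - e2) % 2 = 1)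

def GB1 (n m e1 e2 u v z : ℕ) : Prop :=
  u < v ∧ v ≤ n ∧ 2 * z ≤ m ∧
    ((z + e1 < u + e2 ∧ z + e1 + v < n + e2) ∨
     (((z + e1 = u + e2 + 1 ∧ u + v ≤ n) ∨ (z + e1 + v = n + e2 + 1 ∧ n ≤ u + v)) ∧
        (z - e2) % 2 = 1) ∨
     (v = u + 1 ∧ (z - e2) % 2 = 1 ∧ (u + e2 + 1 < z + e1 ∨ n + e2 + 1 < z + e1 + v)))

def GB2 (n m e1 e2 u v z : ℕ) : Prop :=
  z = 0 ∧ 2 * u ≤ n ∧ 1 ≤ v ∧ v ≤ m ∧ (v + e1 ≤ u + e2 ∨ m + e1 < v + u + e2)

def GB3 (n m e1 e2 u v z : ℕ) : Prop :=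
  z = 0 ∧ 2 * u ≤ m ∧ m < 2 * u + 3 ∧ 1 ≤ v ∧ v ≤ n ∧ (u - e2) % 2 = 0

def GB4 (n m e1 e2 u v z : ℕ) : Prop :=
  z = 0 ∧ (u - e2) % 2 = 1 ∧ 2 ≤ v ∧ v + e2 ≤ u + e1 ∧ 2 * u ≤ m

def GB5 (n m e1 e2 u v z : ℕ) : Prop :=
  z = 0 ∧ (u - e2) % 2 = 1 ∧ v + 1 ≤ n ∧ n + e2 < v + u + e1 ∧ 2 * u ≤ m

/-- the possible labels of labB -/
def GB (n m e1 e2 : ℕ) (L : Q) : Prop :=
  (L.1 = 0 ∧ GB0 n m e1 e2 L.2.1 L.2.2.1 L.2.2.2) ∨
  (L.1 = 1 ∧ GB1 n m e1 e2 L.2.1 L.2.2.1 L.2.2.2) ∨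
  (L.1 = 2 ∧ GB2 n m e1 e2 L.2.1 L.2.2.1 L.2.2.2) ∨
  (L.1 = 3 ∧ GB3 n m e1 e2 L.2.1 L.2.2.1 L.2.2.2) ∨
  (L.1 = 4 ∧ GB4 n m e1 e2 L.2.1 L.2.2.1 L.2.2.2) ∨
  (L.1 = 5 ∧ GB5 n m e1 e2 L.2.1 L.2.2.1 L.2.2.2)

theorem GB.m0 {n m e1 e2 u v z : ℕ} (h : GB0 n m e1 e2 u v z) : GB n m e1 e2 (0, u, v, z) :=
  Or.inl ⟨rfl, h⟩
theorem GB.m1 {n m e1 e2 u v z : ℕ} (h : GB1 n m e1 e2 u v z) : GB n m e1 e2 (1, u, v, z) :=
  Or.inr (Or.inl ⟨rfl, h⟩)
theorem GB.m2 {n m e1 e2 u v z : ℕ} (h : GB2 n m e1 e2 u v z) : GB n m e1 e2 (2, u, v, z) :=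
  Or.inr (Or.inr (Or.inl ⟨rfl, h⟩))
theorem GB.m3 {n m e1 e2 u v z : ℕ} (h : GB3 n m e1 e2 u v z) : GB n m e1 e2 (3, u, v, z) :=
  Or.inr (Or.inr (Or.inr (Or.inl ⟨rfl, h⟩)))
theorem GB.m4 {n m e1 e2 u v z : ℕ} (h : GB4 n m e1 e2 u v z) : GB n m e1 e2 (4, u, v, z) :=
  Or.inr (Or.inr (Or.inr (Or.inr (Or.inl ⟨rfl, h⟩))))
theorem GB.m5 {n m e1 e2 u v z : ℕ} (h : GB5 n m e1 e2 u v z) : GB n m e1 e2 (5, u, v, z) :=
  Or.inr (Or.inr (Or.inr (Or.inr (Or.inr ⟨rfl, h⟩))))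

theorem goodB (n m e1 e2 a b x y : ℕ)
    (he : n + 2 * e2 = m + 2 * e1) (h0 : e1 = 0 ∨ e2 = 0)
    (hv : Val n m (a, b, x, y)) : GB n m e1 e2 (labB n m e1 e2 a b x y) := by
  obtain ⟨g1, g2, g3, g4, g5⟩ := hv
  simp only at g1 g2 g3 g4 g5
  rw [labB_eq]
  obtain ⟨j, hj⟩ : ∃ j, j = min a (n-b) := ⟨_, rfl⟩
  obtain ⟨i, hi⟩ : ∃ i, i = min x (m-y) := ⟨_, rfl⟩
  rw [← hj, ← hi]
  simp only [B0]
  split_ifs with c1 c2 c3 c4 c5 c6
  · simp only [B1]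
    split_ifs with d1 d2
    · exact GB.m1 (by simp only [GB1, true_and]; clear g5; omega)
    · have hab : a = b := by omega
      exact GB.m0 (by simp only [GB0, true_and]; omega)
    · have hab : a = b := by omega
      exact GB.m0 (by simp only [GB0, true_and]; omega)
  · exact GB.m0 (by simp only [GB0, true_and]; clear g5; omega)
  · exact GB.m1 (by simp only [GB1, true_and]; clear g5 c1 c2; omega)
  · have hxy : x < y := by omega
    have hij : i + e1 < j + e2 := by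
      by_contra hcon
      exact c2 ⟨hxy, by omega⟩
    clear c1 c2 c3 g5
    simp only [B2]
    split_ifs with d1 d2 d3
    · exact GB.m2 (by simp only [GB2, true_and]; clear hi hij; omega)
    · exact GB.m0 (by simp only [GB0, true_and]; omega)
    · exact GB.m2 (by simp only [GB2, true_and]; clear hi hij; omega)
    · exact GB.m0 (by simp only [GB0, true_and]; omega)
  · have hab : a < b := by omega
    have hij : j + e2 ≤ i + e1 := by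
      by_contra hcon
      exact c3 ⟨hab, by omega⟩
    have hxy : x = y := by
      by_contra hcon
      exact c2 ⟨by omega, hij⟩
    clear c1 c2 c3 g5
    simp only [B3u]
    split_ifs with d1 d2 d3
    · exact GB.m1 (by simp only [GB1, true_and]; clear hj; omega)
    · exact GB.m1 (by simp only [GB1, true_and]; clear hj; omega)
    · exact GB.m1 (by simp only [GB1, true_and]; clear hj; omega)
    · exact GB.m1 (by simp only [GB1, true_and]; clear hj; omega)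
  · have hab : a < b := by omega
    have hij : j + e2 ≤ i + e1 := by
      by_contra hcon
      exact c3 ⟨hab, by omega⟩
    have hxy : x = y := by
      by_contra hcon
      exact c2 ⟨by omega, hij⟩
    clear c1 c2 c3 g5 hj hij
    simp only [B3s]
    split_ifs with d1
    · exact GB.m3 (by simp only [GB3, true_and]; omega)
    · exact GB.m3 (by simp only [GB3, true_and]; omega)
  · have hab : a < b := by omega
    have hij : j + e2 ≤ i + e1 := by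
      by_contra hcon
      exact c3 ⟨hab, by omega⟩
    have hxy : x = y := by
      by_contra hcon
      exact c2 ⟨by omega, hij⟩
    clear c1 c2 c3 g5
    simp only [B3l]
    split_ifs with d1 d2 d3
    all_goals first
      | refine GB.m1 ?_
      | refine GB.m4 ?_
      | refine GB.m5 ?_
    all_goals simp only [GB1, GB4, GB5, true_and]
    all_goals (clear hj hij; omega)

end Pool.Agent.Q11.TF
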