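import Pool.Agent.Q11.TF.Group

/-!
# The subgroups of a cyclic group of order p^n q^m
-/

namespace Pool.Agent.Q11.TF

open Classical

universe u

theorem cyc_le_iff {G : Type u} [Group G] [IsCyclic G] [Finite G] (K H : Subgroup G) :
    K ≤ H ↔ Nat.card K ∣ Nat.card H := by
  constructor
  · exact Subgroup.card_dvd_of_le
  · intro hd
    have : Fintype G := Fintype.ofFinite G
    have hpos : 0 < Nat.card H := Nat.card_pos
    have hle := IsCyclic.card_pow_eq_one_le (α := G) hpos
    have hsub : (Finset.univ.filter (fun x : G => x ∈ H)) ⊆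
        Finset.univ.filter (fun x : G => x ^ Nat.card H = 1) := by
      intro x hx
      simp only [Finset.mem_filter, Finset.mem_univ, true_and] at hx ⊢
      have h := congrArg Subtype.val (pow_card_eq_one' (x := (⟨x, hx⟩ : H)))
      simp only [SubmonoidClass.coe_pow, OneMemClass.coe_one] at h
      exact h
    have hcard : (Finset.univ.filter (fun x : G => x ∈ H)).card = Nat.card H := by
      rw [Nat.card_eq_fintype_card, Fintype.card_subtype]
    have heq : (Finset.univ.filter (fun x : G => x ∈ H)) =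
        Finset.univ.filter (fun x : G => x ^ Nat.card H = 1) := by
      apply Finset.eq_of_subset_of_card_le hsub
      rw [hcard]
      exact hle
    intro x hx
    have h1 : x ^ Nat.card K = 1 := by
      have h := congrArg Subtype.val (pow_card_eq_one' (x := (⟨x, hx⟩ : K)))
      simp only [SubmonoidClass.coe_pow, OneMemClass.coe_one] at h
      exact h
    have h2 : x ^ Nat.card H = 1 := by
      obtain ⟨c, hc⟩ := hd
      rw [hc, pow_mul, h1, one_pow]
    have h3 : x ∈ Finset.univ.filter (fun x : G => x ^ Nat.card H = 1) :=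
      Finset.mem_filter.2 ⟨Finset.mem_univ _, h2⟩
    rw [← heq] at h3
    exact (Finset.mem_filter.1 h3).2

theorem cyc_exists {G : Type u} [Group G] [IsCyclic G] [Finite G] (d : ℕ)
    (hd : d ∣ Nat.card G) : ∃ H : Subgroup G, Nat.card H = d := by
  obtain ⟨g, hg⟩ := IsCyclic.exists_ofOrder_eq_natCard (α := G)
  refine ⟨Subgroup.zpowers (g ^ (orderOf g / d)), ?_⟩
  rw [Nat.card_zpowers]
  apply orderOf_pow_orderOf_div
  · rw [hg]; exact Nat.card_pos.ne'
  · rw [hg]; exact hd

theorem pq_dvd {p q a b c d : ℕ} (hp : p.Prime) (hq : q.Prime) (hpq : p ≠ q) :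
    p ^ a * q ^ b ∣ p ^ c * q ^ d ↔ a ≤ c ∧ b ≤ d := by
  have hcop : Nat.Coprime p q := (Nat.coprime_primes hp hq).2 hpq
  constructor
  · intro h
    constructor
    · have h1 : p ^ a ∣ p ^ c * q ^ d := (Dvd.intro _ rfl).trans h
      have h2 : p ^ a ∣ p ^ c := (Nat.Coprime.pow a d hcop).dvd_of_dvd_mul_right h1
      exact (Nat.pow_dvd_pow_iff_le_right hp.one_lt).1 h2
    · have h1 : q ^ b ∣ p ^ c * q ^ d := (Dvd.intro_left _ rfl).trans h
      have h2 : q ^ b ∣ q ^ d := (Nat.Coprime.pow b c hcop.symm).dvd_of_dvd_mul_left h1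
      exact (Nat.pow_dvd_pow_iff_le_right hq.one_lt).1 h2
  · rintro ⟨h1, h2⟩
    exact Nat.mul_dvd_mul (pow_dvd_pow p h1) (pow_dvd_pow q h2)

theorem iso : S_iso.{u} := by
  intro p q n m hp hq hpq G _ _ hG
  haveI : Finite G := by
    apply Nat.finite_of_card_ne_zero
    rw [hG]
    exact mul_ne_zero (pow_ne_zero _ hp.ne_zero) (pow_ne_zero _ hq.ne_zero)
  have hex : ∀ H : Subgroup G, ∃ t : Fin (n + 1) × Fin (m + 1),
      Nat.card H = p ^ t.1.val * q ^ t.2.val := by
    intro H
    have h1 := Subgroup.card_subgroup_dvd_card H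
    rw [hG] at h1
    obtain ⟨k1, k2, h2, h3, h4⟩ := Nat.dvd_mul.1 h1
    obtain ⟨a, ha, rfl⟩ := (Nat.dvd_prime_pow hp).1 h2
    obtain ⟨b, hb, rfl⟩ := (Nat.dvd_prime_pow hq).1 h3
    exact ⟨(⟨a, by omega⟩, ⟨b, by omega⟩), h4.symm⟩
  choose f hf using hex
  have hmap : ∀ K H : Subgroup G, f K ≤ f H ↔ K ≤ H := by
    intro K H
    rw [cyc_le_iff, hf K, hf H, pq_dvd hp hq hpq, Prod.le_def, Fin.le_def, Fin.le_def]
  refine ⟨RelIso.ofSurjective (OrderEmbedding.ofMapLEIff f hmap) ?_⟩
  rintro ⟨a, b⟩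
  obtain ⟨H, hH⟩ := cyc_exists (G := G) (p ^ a.val * q ^ b.val) (by
    rw [hG, pq_dvd hp hq hpq]
    exact ⟨by omega, by omega⟩)
  refine ⟨H, ?_⟩
  have h1 := hf H
  rw [hH] at h1
  have h2 := (pq_dvd hp hq hpq).1 (dvd_of_eq h1)
  have h3 := (pq_dvd hp hq hpq).1 (dvd_of_eq h1.symm)
  show f H = (a, b)
  exact Prod.ext (Fin.ext (le_antisymm h3.1 h2.1)) (Fin.ext (le_antisymm h3.2 h2.2))

theorem comm : S_comm.{u} := by
  intro G _ _ r
  have hid : ∀ (g : G) (H : Subgroup G), H.map (MulAut.conj g).toMonoidHom = H := by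
    intro g H
    have hc : ∀ x y : G, x * y = y * x := fun x y =>
      (IsCyclic.isMulCommutative (α := G)).is_comm.comm x y
    have : ∀ x : G, (MulAut.conj g).toMonoidHom x = x := by
      intro x
      show g * x * g⁻¹ = x
      rw [hc g x, mul_assoc, mul_inv_cancel, mul_one]
    ext x
    rw [Subgroup.mem_map]
    constructor
    · rintro ⟨y, hy, rfl⟩
      rw [this]; exact hy
    · intro hx
      exact ⟨x, hx, this x⟩
  constructor
  · intro h
    exact ⟨h.refl, h.trans, h.le, h.restrict⟩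
  · intro h
    refine ⟨h.refl, ?_, h.trans, h.le, ?_, h.restrict⟩
    · intro K H h1 h2
      exact le_antisymm (h.le _ _ h1) (h.le _ _ h2)
    · intro K H g h1
      rw [hid, hid]
      exact h1

end Pool.Agent.Q11.TF
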