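import Pool.Agent.Q11.TF.Group

/-!
# Minimal bases and strong sets on a finite meet semilattice
-/

namespace Pool.Agent.Q11.TF

open Classical

universe u

variable {L : Type u} [SemilatticeInf L]

theorem gen_isTS (S : Set (L × L)) (hS : ∀ e ∈ S, e.1 ≤ e.2) : IsTS (Gen S) := by
  constructor
  · intro H r hr _; exact hr.refl H
  · intro K H M hKH hHM r hr hS
    exact hr.trans K H M (hKH r hr hS) (hHM r hr hS)
  · intro K H h
    refine h (fun K H => K ≤ H) ?_ hS
    exact ⟨fun H => le_rfl, fun K H M h1 h2 => h1.trans h2, fun K H h => h,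
      fun K H M _ _ => inf_le_right⟩
  · intro K H M h hM r hr hS
    exact hr.restrict K H M (h r hr hS) hM

theorem latLow : S_latLow.{u} := by
  intro L _ S hlt hst
  refine ⟨hlt, rfl, ?_⟩
  intro S' hS' heq
  obtain ⟨hsub, hne⟩ := hS'
  obtain ⟨e, he, he'⟩ : ∃ e ∈ S, e ∉ S' := by
    by_contra hcon
    push_neg at hcon
    exact hne hcon
  have h1 : Gen S' e.1 e.2 := by
    rw [heq]
    intro r _ hS
    exact hS e he
  have h2 := h1 (fun K H => K ≤ H ∧ (e.1 ≤ K → e.2 ≤ H → e.2 ≤ K)) ?_ ?_
  · exact absurd (h2.2 le_rfl le_rfl) (not_le_of_gt (hlt e he))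
  · constructor
    · intro H
      exact ⟨le_rfl, fun _ h => h⟩
    · rintro K H M ⟨a1, a2⟩ ⟨b1, b2⟩
      exact ⟨a1.trans b1, fun c1 c2 => a2 c1 (b2 (c1.trans a1) c2)⟩
    · rintro K H ⟨a1, _⟩
      exact a1
    · rintro K H M ⟨a1, a2⟩ hM
      refine ⟨inf_le_right, fun c1 c2 => ?_⟩
      exact le_inf (a2 (c1.trans inf_le_left) (c2.trans hM)) c2
  · intro f hf
    have hf' := hsub hf
    have hef : e ≠ f := by
      rintro rfl
      exact he' hf
    exact ⟨(hlt f hf').le, fun c1 c2 => hst e he f hf' hef c1 c2⟩

/-- irredundant sets of pairs -/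
def Irr (S : Finset (L × L)) : Prop :=
  (∀ e ∈ S, e.1 < e.2) ∧ ∀ e ∈ S, ¬ Gen ((S.erase e : Finset (L × L)) : Set (L × L)) e.1 e.2

theorem irr_strong [Fintype L] (N : ℕ) : ∀ S : Finset (L × L),
    (∑ e ∈ S, (Finset.univ.filter (fun z => z ≤ e.2)).card) = N → Irr S →
    ∃ S' : Finset (L × L), S'.card = S.card ∧ (∀ e ∈ S', e.1 < e.2) ∧
      StrongL (S' : Set (L × L)) := by
  induction N using Nat.strong_induction_on with
  | _ N ih =>
    intro S hN hI
    by_cases hst : StrongL (S : Set (L × L))
    · exact ⟨S, rfl, hI.1, hst⟩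
    unfold StrongL at hst
    push_neg at hst
    obtain ⟨e, he, f, hf, hef, h1, h2, h3⟩ := hst
    have he := Finset.mem_coe.1 he
    have hf := Finset.mem_coe.1 hf
    set M := f.1 ⊓ e.2 with hM
    have hMe : M ≤ e.2 := inf_le_right
    have hMf : M ≤ f.1 := inf_le_left
    have heM : e.1 ≤ M := le_inf h1 (hI.1 e he).le
    have hMlt : M < e.2 := by
      refine lt_of_le_of_ne hMe ?_
      intro h
      apply h3
      rw [← h]
      exact hMf
    -- facts (2) and (3)
    have fact2 : ∀ r : L → L → Prop, IsTS r → r f.1 f.2 → r e.1 M → r e.1 e.2 := by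
      intro r hr hf1 hm
      have := hr.restrict f.1 f.2 e.2 hf1 h2
      exact hr.trans _ _ _ hm this
    have fact3 : ∀ r : L → L → Prop, IsTS r → r e.1 e.2 → r e.1 M := by
      intro r hr he1
      have := hr.restrict e.1 e.2 M he1 hMe
      rwa [inf_eq_left.2 heM] at this
    set R := S.erase e with hR
    have hfR : f ∈ R := Finset.mem_erase.2 ⟨Ne.symm hef, hf⟩
    have hnR : ¬ Gen (R : Set (L × L)) e.1 e.2 := hI.2 e he
    have hgenM : ¬ Gen (R : Set (L × L)) e.1 M := by
      intro h
      apply hnR
      intro r hr hS
      exact fact2 r hr (hS f (Finset.mem_coe.2 hfR)) (h r hr hS)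
    have hdeg : e.1 < M := by
      refine lt_of_le_of_ne heM ?_
      intro h
      apply hgenM
      rw [← h]
      intro r hr _
      exact hr.refl _
    have hnot : (e.1, M) ∉ R := by
      intro h
      apply hgenM
      intro r _ hS
      exact hS _ (Finset.mem_coe.2 h)
    set S'' := insert (e.1, M) R with hS''
    have hcardR : R.card + 1 = S.card := Finset.card_erase_add_one he
    have hcard : S''.card = S.card := by
      rw [hS'', Finset.card_insert_of_notMem hnot, hcardR]
    have hsumR : (∑ g ∈ R, (Finset.univ.filter (fun z => z ≤ g.2)).card) +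
        (Finset.univ.filter (fun z => z ≤ e.2)).card = N := by
      rw [← hN, hR]
      exact Finset.sum_erase_add S (fun g : L × L => (Finset.univ.filter (fun z => z ≤ g.2)).card) he
    have hsum : (∑ g ∈ S'', (Finset.univ.filter (fun z => z ≤ g.2)).card) < N := by
      rw [hS'', Finset.sum_insert hnot]
      have hlt : (Finset.univ.filter (fun z => z ≤ M)).card <
          (Finset.univ.filter (fun z => z ≤ e.2)).card := by
        apply Finset.card_lt_card
        rw [Finset.ssubset_iff_of_subset]
        · refine ⟨e.2, ?_, ?_⟩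
          · simp
          · simp only [Finset.mem_filter, Finset.mem_univ, true_and]
            exact not_le_of_gt hMlt
        · intro z hz
          simp only [Finset.mem_filter, Finset.mem_univ, true_and] at hz ⊢
          exact hz.trans hMe
      simp only
      omega
    have hIrr : Irr S'' := by
      constructor
      · intro g hg
        rw [hS'', Finset.mem_insert] at hg
        rcases hg with rfl | hg
        · exact hdeg
        · exact hI.1 g (Finset.mem_of_mem_erase hg)
      · intro g hg
        rw [hS'', Finset.mem_insert] at hg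
        rcases hg with rfl | hg
        · rw [hS'', Finset.erase_insert hnot]
          exact hgenM
        · have hgS := Finset.mem_of_mem_erase hg
          have hge : g ≠ e := Finset.ne_of_mem_erase hg
          intro h
          apply hI.2 g hgS
          intro r hr hS
          apply h r hr
          intro z hz
          have hz' := Finset.mem_coe.1 hz
          rw [Finset.mem_erase, hS'', Finset.mem_insert] at hz'
          obtain ⟨hz1, hz2⟩ := hz'
          rcases hz2 with rfl | hz2
          · apply fact3 r hr
            exact hS e (Finset.mem_coe.2 (Finset.mem_erase.2 ⟨Ne.symm hge, he⟩))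
          · exact hS z (Finset.mem_coe.2 (Finset.mem_erase.2
              ⟨hz1, Finset.mem_of_mem_erase hz2⟩))
    obtain ⟨S', k1, k2, k3⟩ := ih _ hsum S'' rfl hIrr
    exact ⟨S', k1.trans hcard, k2, k3⟩

theorem latUp : S_latUp.{u} := by
  intro L _ _ S r hmb
  haveI : Fintype L := Fintype.ofFinite L
  obtain ⟨hlt, hgen, hmin⟩ := hmb
  have hfin : S.Finite := Set.toFinite S
  have hI : Irr hfin.toFinset := by
    constructor
    · intro e he
      exact hlt e (hfin.mem_toFinset.1 he)
    · intro e he h
      have he' := hfin.mem_toFinset.1 he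
      apply hmin (S \ {e})
      · refine ⟨Set.diff_subset, ?_⟩
        intro hc
        have := hc he'
        exact this.2 rfl
      · rw [← hgen]
        have hco : ((hfin.toFinset.erase e : Finset (L × L)) : Set (L × L)) = S \ {e} := by
          rw [Finset.coe_erase, Set.Finite.coe_toFinset]
        rw [hco] at h
        funext K H
        apply propext
        constructor
        · intro hk r hr hS
          exact hk r hr (fun z hz => hS z hz.1)
        · intro hk r hr hS
          apply hk r hr
          intro z hz
          by_cases hze : z = e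
          · rw [hze]
            exact h r hr hS
          · exact hS z ⟨hz, hze⟩
  obtain ⟨S', k1, k2, k3⟩ := irr_strong _ hfin.toFinset rfl hI
  refine ⟨(S' : Set (L × L)), ?_, fun e he => k2 e (Finset.mem_coe.1 he), k3⟩
  rw [Set.ncard_coe_finset, k1, Set.ncard_eq_toFinset_card S hfin]

end Pool.Agent.Q11.TF
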