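import Pool.Agent.Q11.TF.StageD
import Pool.Agent.Q11.TF.CliqueB

/-!
# labB on the quadruples that are not special for labD
-/

namespace Pool.Agent.Q11.TF

set_option maxHeartbeats 4000000
set_option linter.unusedVariables false

theorem parD {k l e1 e2 : ℕ} (hm : (min k l) % 2 = 1) (he : k + e2 = l + e1)
    (h0 : e1 = 0 ∨ e2 = 0) : (e1 = 0 ∧ k % 2 = 1) ∨ (e2 = 0 ∧ l % 2 = 1) := by
  rcases h0 with h | h
  · left
    rw [min_eq_left (by omega)] at hm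
    exact ⟨h, hm⟩
  · right
    rw [min_eq_right (by omega)] at hm
    exact ⟨h, hm⟩

theorem ltD {k a b j : ℕ} (g1 : a ≤ b) (g2 : b ≤ 2 * k) (hj : j = min a (2 * k - b)) (h : ¬ (a = k ∧ b = k)) :
    j < k := by omega

theorem ltD' {l x y i : ℕ} (g1 : x ≤ y) (g2 : y ≤ 2 * l) (hj : i = min x (2 * l - y)) (h : ¬ (x = l ∧ y = l)) :
    i < l := by omega

section nd

variable (k l e1 e2 a b x y j i u v w : ℕ) (hk : 3 ≤ k) (hl : 3 ≤ l)
  (hm : (e1 = 0 ∧ k % 2 = 1) ∨ (e2 = 0 ∧ l % 2 = 1)) (he : k + e2 = l + e1)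
  (h0 : e1 = 0 ∨ e2 = 0)
  (g1 : a ≤ b) (g2 : b ≤ 2 * k) (g3 : x ≤ y) (g4 : y ≤ 2 * l) (g5 : a < b ∨ x < y)
  (hj : j = min a (2 * k - b)) (hi : i = min x (2 * l - y)) (hs : NSD k l a b x y j i)
include hk hl hm he h0 g1 g2 g3 g4 g5 hj hi hs

theorem ndD0 (h : labB (2 * k) (2 * l) e1 e2 a b x y = (0, u, v, w)) : u + 2 ≤ k := by
  obtain ⟨h1, h2, h3, h4, h5, h6, h7, h8⟩ := hs
  have a1 := ltD g1 g2 hj h2
  have a2 := ltD' g3 g4 hi h1
  have h4' : j + 1 = k → i + 2 ≠ l := fun p q => h4 ⟨p, q⟩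
  have h5' : j + 1 = k → i + 1 ≠ l := fun p q => h5 ⟨p, q⟩
  have h6' : a = b → j + 1 = k → ¬ (i + 3 ≤ l) := fun p q r => h6 ⟨p, q, r⟩
  have key : j + 1 = k → (i + 3 ≤ l ∧ a ≠ b) := by
    intro hj1
    have b1 := h4' hj1
    have b2 := h5' hj1
    have b3 : i + 3 ≤ l := by omega
    exact ⟨b3, fun hab => h6' hab hj1 b3⟩
  have hu : u = j := by
    rcases specB0 (2 * k) (2 * l) e1 e2 a b x y _ _ _ (by omega) h0 g1 g2 g3 g4 g5 h with
      t | t | t | t | t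
    all_goals clear h g5 h3 h7 h8 h1 h2 h4 h5 h6 h4' h5' h6' key
    all_goals omega
  by_contra hcon
  have hj1 : j + 1 = k := by omega
  obtain ⟨b1, b2⟩ := key hj1
  rcases specB0 (2 * k) (2 * l) e1 e2 a b x y _ _ _ (by omega) h0 g1 g2 g3 g4 g5 h with
    t | t | t | t | t
  · clear h g5 h3 h7 h8 h1 h2 h4 h5 h6 h4' h5' h6' key
    obtain ⟨t1, t2, t3, t4, t5, t6⟩ := t
    clear t2
    omega
  · exact b2 t.1
  · exact b2 t.1
  · exact b2 t.1
  · exact b2 t.1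

theorem ndD1 (h : labB (2 * k) (2 * l) e1 e2 a b x y = (1, u, v, w)) : w + 2 ≤ l := by
  obtain ⟨h1, h2, h3, h4, h5, h6, h7, h8⟩ := hs
  have a1 := ltD g1 g2 hj h2
  have a2 := ltD' g3 g4 hi h1
  have hx : x = y → i + 1 ≠ l := by
    intro hxy hi1
    by_cases c : j + 1 = k
    · exact h5 ⟨c, hi1⟩
    · exact h8 ⟨hxy, hi1, by omega⟩
  rcases specB1 (2 * k) (2 * l) e1 e2 a b x y _ _ _ (by omega) h0 g1 g2 g3 g4 g5 h with
    t | t | t | t | t | t | t | t | t | t | t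
  all_goals clear h g5 h3 h7 h8 h1 h2 h4 h5 h6
  · clear hx; omega
  · have := hx t.2.1; clear hx; omega
  · have := hx t.2.1; clear hx; omega
  · have := hx t.2.1; clear hx; omega
  · have := hx t.2.1; clear hx; omega
  · have := hx t.2.1; clear hx; omega
  · have := hx t.2.1; clear hx; omega
  · have := hx t.2.1; clear hx; omega
  · have := hx t.2.1; clear hx; omega
  · have := hx t.2.1; clear hx; omega
  · have := hx t.2.1; clear hx; omega

theorem ndD2 (h : labB (2 * k) (2 * l) e1 e2 a b x y = (2, u, v, w)) : u + 3 ≤ k := by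
  obtain ⟨h1, h2, h3, h4, h5, h6, h7, h8⟩ := hs
  have a1 := ltD g1 g2 hj h2
  have a2 := ltD' g3 g4 hi h1
  have s := specB2 (2 * k) (2 * l) e1 e2 a b x y _ _ _ (by omega) h0 g1 g2 g3 g4 g5 h
  have hab : a = b := by rcases s with t | t <;> exact t.1
  have c1 : j + 1 ≠ k := by
    intro hj1
    have b1 : i + 2 ≠ l := fun q => h4 ⟨hj1, q⟩
    have b2 : i + 1 ≠ l := fun q => h5 ⟨hj1, q⟩
    exact h6 ⟨hab, hj1, by omega⟩
  have c2 : j + 2 = k → ¬ (i + 3 ≤ l) := fun p q => h7 ⟨hab, p, q⟩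
  clear h g5 h3 h7 h8 h1 h2 h4 h5 h6
  rcases s with t | t
  all_goals omega

theorem ndD3 (h : labB (2 * k) (2 * l) e1 e2 a b x y = (3, u, v, w)) : False := by
  obtain ⟨h1, h2, h3, h4, h5, h6, h7, h8⟩ := hs
  have a1 := ltD g1 g2 hj h2
  have a2 := ltD' g3 g4 hi h1
  have hx : x = y → i + 1 ≠ l := by
    intro hxy hi1
    by_cases c : j + 1 = k
    · exact h5 ⟨c, hi1⟩
    · exact h8 ⟨hxy, hi1, by omega⟩
  rcases specB3 (2 * k) (2 * l) e1 e2 a b x y _ _ _ (by omega) h0 g1 g2 g3 g4 g5 h with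
    t | t
  all_goals clear h g5 h3 h7 h8 h1 h2 h4 h5 h6
  · have := hx t.2.1; clear hx; omega
  · have := hx t.2.1; clear hx; omega

theorem ndD4 (h : labB (2 * k) (2 * l) e1 e2 a b x y = (4, u, v, w)) : u + 2 ≤ l := by
  obtain ⟨h1, h2, h3, h4, h5, h6, h7, h8⟩ := hs
  have a2 := ltD' g3 g4 hi h1
  rcases specB4 (2 * k) (2 * l) e1 e2 a b x y _ _ _ (by omega) h0 g1 g2 g3 g4 g5 h with
    t | t
  all_goals clear h g5 h3 h7 h8 h1 h2 h4 h5 h6
  all_goals omega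

theorem ndD5 (h : labB (2 * k) (2 * l) e1 e2 a b x y = (5, u, v, w)) : u + 2 ≤ l := by
  obtain ⟨h1, h2, h3, h4, h5, h6, h7, h8⟩ := hs
  have a2 := ltD' g3 g4 hi h1
  rcases specB5 (2 * k) (2 * l) e1 e2 a b x y _ _ _ (by omega) h0 g1 g2 g3 g4 g5 h with
    t | t
  all_goals clear h g5 h3 h7 h8 h1 h2 h4 h5 h6
  all_goals omega

end nd

end Pool.Agent.Q11.TF
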