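import Pool.Agent.Q11.TF.CliqueC

/-!
# The block (2,2) for labC
-/

namespace Pool.Agent.Q11.TF

set_option maxHeartbeats 4000000
set_option linter.unusedVariables false

theorem descC (k l e1 e2 a b x y : ℕ) (hk : 2 ≤ k) (hl : 2 ≤ l)
    (hm : (e1 = 0 ∧ k % 2 = 0) ∨ (e2 = 0 ∧ l % 2 = 0)) (he : k + e2 = l + e1)
    (h0 : e1 = 0 ∨ e2 = 0) (h : Val (2 * k) (2 * l) (a, b, x, y))
    (hL : labC k l e1 e2 a b x y = (0, k - 1, l - 1, l) ∨
      labC k l e1 e2 a b x y = (0, k - 1, l - 1, l + 1) ∨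
      labC k l e1 e2 a b x y = (0, k - 1, l, l + 1))
    (hu1 : ¬ Conf (a, b, x, y) (k, k, l - 1, l)) (hu2 : ¬ Conf (a, b, x, y) (k, k, l, l + 1)) :
    a + 1 = k ∧ b = k + 1 ∧
      ((x + 1 = l ∧ y = l) ∨ (x + 1 = l ∧ y = l + 1) ∨ (x = l ∧ y = l + 1)) := by
  simp only [Conf, Le, Ov] at hu1 hu2
  have h' := h
  simp only [Val] at h'
  obtain ⟨g1, g2, g3, g4, g5⟩ := h'
  have key : ∀ v w, labC k l e1 e2 a b x y = (0, k - 1, v, w) →
      ((v = l - 1 ∧ w = l) ∨ (v = l - 1 ∧ w = l + 1) ∨ (v = l ∧ w = l + 1)) →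
      a + 1 = k ∧ b = k + 1 ∧
      ((x + 1 = l ∧ y = l) ∨ (x + 1 = l ∧ y = l + 1) ∨ (x = l ∧ y = l + 1)) := by
    intro v w hvw hc
    rcases specC k l e1 e2 a b x y with ⟨s, es⟩ | ⟨s, es⟩ | ⟨s, es⟩ | ⟨s, es⟩ | ⟨s, es⟩ | ⟨s, es⟩ |
      ⟨s, es⟩ | ⟨s, es⟩
    · rw [es] at hvw; simp at hvw
    · rw [es] at hvw; simp at hvw
    · rw [es] at hvw; simp at hvw
    · rw [es] at hvw; simp at hvw
    · exfalso; clear hvw hc es hm he h0 hL h; omega
    · exfalso; clear hvw hc es hm he h0 hL h; omega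
    · exfalso; clear hvw hc es hm he h0 hL h; omega
    · obtain ⟨_, _, _, s4, s5⟩ := s
      rcases specB0 (2 * k) (2 * l) e1 e2 a b x y _ _ _ (by omega) h0 g1 g2 g3 g4 g5
        (es.symm.trans hvw) with t | t | t | t | t
      · clear g5 es hvw s4 s5 hL h hm
        obtain ⟨t1, t2, t3, t4, t5⟩ := t
        clear t5 he h0
        rcases hc with hc | hc | hc <;> omega
      · clear g5 es hvw s4 s5 hL h hu1 hu2
        rcases hc with hc | hc | hc <;> omega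
      · clear g5 es hvw s4 s5 hL h hu1 hu2
        rcases hc with hc | hc | hc <;> omega
      · exfalso
        clear g5 es hvw s5 hL h hm
        have q : a + 1 = k ∧ b + 1 = k ∧ w = y ∧ v + 1 = l ∧ x + 2 ≤ l := by
          clear hu1 hu2 s4
          rcases hc with hc | hc | hc <;> omega
        have q2 : ¬ (y = l + 1) := fun h => s4 ⟨q.1, q.2.1, h, q.2.2.2.2⟩
        clear s4 t he h0 hu2
        rcases hc with hc | hc | hc <;> omega
      · exfalso
        clear g5 es hvw s4 hL h hm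
        have q : a = k + 1 ∧ b = k + 1 ∧ v = x ∧ w = l + 1 ∧ l + 2 ≤ y := by
          clear hu1 hu2 s5
          rcases hc with hc | hc | hc <;> omega
        have q2 : ¬ (x + 1 = l) := fun h => s5 ⟨q.1, q.2.1, h, q.2.2.2.2⟩
        clear s5 t he h0 hu1
        rcases hc with hc | hc | hc <;> omega
  rcases hL with hL | hL | hL
  · exact key _ _ hL (Or.inl ⟨rfl, rfl⟩)
  · exact key _ _ hL (Or.inr (Or.inl ⟨rfl, rfl⟩))
  · exact key _ _ hL (Or.inr (Or.inr ⟨rfl, rfl⟩))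

theorem mergeC : S_mergeC := by
  rintro k l e1 e2 hk hl hm he h0 ⟨a, b, x, y⟩ ⟨a', b', x', y'⟩ h h' hp hq u1 u2 w1 w2 hne
  have hm' := parC hm he h0
  simp only [lC] at hp hq
  have s := descC k l e1 e2 a b x y hk hl hm' he h0 h hp u1 u2
  have t := descC k l e1 e2 a' b' x' y' hk hl hm' he h0 h' hq w1 w2
  clear u1 u2 w1 w2 hp hq
  have hne' : ¬ (a = a' ∧ b = b' ∧ x = x' ∧ y = y') := by
    rintro ⟨rfl, rfl, rfl, rfl⟩; exact hne rfl
  clear hne h h' hm hm'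
  simp only [Conf, Le, Ov]
  omega

theorem repC : S_repC := by
  rintro k l e1 e2 hk hl hm he h0
  have hm' := parC hm he h0
  simp only [lC]
  refine ⟨?_, ?_, ?_⟩
  all_goals
    simp only [labC]
    rw [if_neg (by omega), if_neg (by omega), if_neg (by omega), if_neg (by omega),
      if_neg (by omega)]
    rw [labB_eq]
  · obtain ⟨j, hj⟩ : ∃ j, j = min (k - 1) (2 * k - (k + 1)) := ⟨_, rfl⟩
    obtain ⟨i, hi⟩ : ∃ i, i = min (l - 1) (2 * l - l) := ⟨_, rfl⟩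
    rw [← hj, ← hi]
    simp only [B0]
    rw [if_neg (by omega), if_pos (by omega)]
    simp only [Prod.mk.injEq, true_and, and_true]; omega
  · obtain ⟨j, hj⟩ : ∃ j, j = min (k - 1) (2 * k - k) := ⟨_, rfl⟩
    obtain ⟨i, hi⟩ : ∃ i, i = min (l - 1) (2 * l - (l + 1)) := ⟨_, rfl⟩
    rw [← hj, ← hi]
    simp only [B0]
    rw [if_neg (by omega), if_pos (by omega)]
    simp only [Prod.mk.injEq, true_and, and_true]; omega
  · obtain ⟨j, hj⟩ : ∃ j, j = min (k - 1) (2 * k - (k - 1)) := ⟨_, rfl⟩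
    obtain ⟨i, hi⟩ : ∃ i, i = min l (2 * l - (l + 1)) := ⟨_, rfl⟩
    rw [← hj, ← hi]
    simp only [B0]
    rw [if_neg (by omega), if_pos (by omega)]
    simp only [Prod.mk.injEq, true_and, and_true]; omega

end Pool.Agent.Q11.TF
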