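import Pool.Agent.Q11.TF.EvD
import Pool.Agent.Q11.TF.CliqueD

/-!
# labD: the central lines and the block (2,2)
-/

namespace Pool.Agent.Q11.TF

set_option maxHeartbeats 4000000
set_option linter.unusedVariables false

theorem centralD : S_centralD := by
  rintro k l e1 e2 hk hl ⟨a, b, x, y⟩ ⟨g1, g2, g3, g4, g5⟩
  simp only at g1 g2 g3 g4 g5
  have hB := tagB (2 * k) (2 * l) e1 e2 a b x y
  have e : lD k l e1 e2 (a, b, x, y) = labD k l e1 e2 a b x y := rfl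
  rw [e, labD_eq]
  clear e
  obtain ⟨j, hj⟩ : ∃ j, j = min a (2 * k - b) := ⟨_, rfl⟩
  obtain ⟨i, hi⟩ : ∃ i, i = min x (2 * l - y) := ⟨_, rfl⟩
  rw [← hj, ← hi]
  simp only [D0]
  split_ifs with c1 c2 c3 c4 c5 c6 c7 c8
  · simp only [D1]
    clear hB hi hj
    split_ifs with d1
    · refine ⟨⟨fun h => ?_, fun h => ?_⟩, ⟨fun h => ?_, fun h => ?_⟩⟩ <;>
        (try dsimp only at h ⊢) <;> omega
    · refine ⟨⟨fun h => ?_, fun h => ?_⟩, ⟨fun h => ?_, fun h => ?_⟩⟩ <;>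
        (try dsimp only at h ⊢) <;> omega
  · simp only [D2]
    clear hB hi hj
    split_ifs with d1 d2 d3
    all_goals
      refine ⟨⟨fun h => ?_, fun h => ?_⟩, ⟨fun h => ?_, fun h => ?_⟩⟩ <;>
        (try dsimp only at h ⊢) <;> omega
  · simp only [D3]
    clear hB hi hj
    split_ifs
    all_goals
      refine ⟨⟨fun h => ?_, fun h => ?_⟩, ⟨fun h => ?_, fun h => ?_⟩⟩ <;>
        (try dsimp only at h ⊢) <;> omega
  · simp only [D4]
    clear hB hi hj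
    split_ifs
    all_goals
      refine ⟨⟨fun h => ?_, fun h => ?_⟩, ⟨fun h => ?_, fun h => ?_⟩⟩ <;>
        (try dsimp only at h ⊢) <;> omega
  · simp only [D5]
    clear hB hi hj
    split_ifs
    all_goals
      refine ⟨⟨fun h => ?_, fun h => ?_⟩, ⟨fun h => ?_, fun h => ?_⟩⟩ <;>
        (try dsimp only at h ⊢) <;> omega
  · simp only [D6]
    clear hB hi hj
    split_ifs
    all_goals
      refine ⟨⟨fun h => ?_, fun h => ?_⟩, ⟨fun h => ?_, fun h => ?_⟩⟩ <;>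
        (try dsimp only at h ⊢) <;> omega
  · simp only [D7]
    clear hB hi hj
    split_ifs
    all_goals
      refine ⟨⟨fun h => ?_, fun h => ?_⟩, ⟨fun h => ?_, fun h => ?_⟩⟩ <;>
        (try dsimp only at h ⊢) <;> omega
  · simp only [D8]
    clear hB hi hj
    split_ifs
    all_goals
      refine ⟨⟨fun h => ?_, fun h => ?_⟩, ⟨fun h => ?_, fun h => ?_⟩⟩ <;>
        (try dsimp only at h ⊢) <;> omega
  · clear hi hj c3 c4 c5 c6 c7 c8
    refine ⟨⟨fun h => ?_, fun h => ?_⟩, ⟨fun h => ?_, fun h => ?_⟩⟩ <;>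
        (try dsimp only at h ⊢) <;> omega

theorem repD : S_repD := by
  rintro k l e1 e2 hk hl hm he h0
  clear hm he h0
  refine ⟨?_, ?_, ?_⟩
  · exact evD1 k l e1 e2 (k - 1) k (l - 1) (l + 1) hk hl (by omega) (by omega) (by omega)
      (by omega) (by omega) (by omega) (by omega)
  · exact evD1 k l e1 e2 (k - 1) (k + 1) (l - 1) l hk hl (by omega) (by omega) (by omega)
      (by omega) (by omega) (by omega) (by omega)
  · exact evD1 k l e1 e2 k (k + 1) (l - 1) (l - 1) hk hl (by omega) (by omega) (by omega)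
      (by omega) (by omega) (by omega) (by omega)

theorem descD (k l e1 e2 a b x y u v : ℕ) (hk : 3 ≤ k) (hl : 3 ≤ l)
    (hm : (e1 = 0 ∧ k % 2 = 1) ∨ (e2 = 0 ∧ l % 2 = 1)) (he : k + e2 = l + e1)
    (h0 : e1 = 0 ∨ e2 = 0) (h : Val (2 * k) (2 * l) (a, b, x, y))
    (huv : (u = k - 1 ∧ v = k) ∨ (u = k - 1 ∧ v = k + 1) ∨ (u = k ∧ v = k + 1))
    (hL : labD k l e1 e2 a b x y = (1, u, v, l - 1))
    (hu1 : ¬ Conf (a, b, x, y) (k - 1, k, l, l)) (hu2 : ¬ Conf (a, b, x, y) (k, k + 1, l, l)) :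
    x + 1 = l ∧ y = l + 1 ∧
      ((a + 1 = k ∧ b = k) ∨ (a + 1 = k ∧ b = k + 1) ∨ (a = k ∧ b = k + 1)) := by
  simp only [Conf, Le, Ov] at hu1 hu2
  obtain ⟨g1, g2, g3, g4, g5⟩ := h
  simp only at g1 g2 g3 g4 g5
  rcases specD1 k l e1 e2 a b x y u v (l - 1) hk hl hm he h0 g1 g2 g3 g4 g5 hL with
      s | s | s | s | s | s | ⟨hw, hn, hb⟩
  · clear hL hm he h0; exfalso
    rcases huv with q | q | q <;> omega
  · clear hL hm he h0 hu1 hu2; omega
  · clear hL hm he h0 hu1 hu2; omega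
  · clear hL hm he h0
    rcases huv with q | q | q <;> omega
  · clear hL hm he h0; exfalso
    rcases huv with q | q | q <;> omega
  · clear hL hm he h0; exfalso
    rcases huv with q | q | q <;> omega
  · exfalso; clear hL hm he h0 hu1 hu2 hn hb; omega

theorem mergeD : S_mergeD := by
  rintro k l e1 e2 hk hl hm he h0 ⟨a, b, x, y⟩ ⟨a', b', x', y'⟩ h h' hp hq u1 u2 w1 w2 hne
  have hm' := parD hm he h0
  have s : x + 1 = l ∧ y = l + 1 ∧
      ((a + 1 = k ∧ b = k) ∨ (a + 1 = k ∧ b = k + 1) ∨ (a = k ∧ b = k + 1)) := by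
    rcases hp with hp | hp | hp
    · exact descD k l e1 e2 a b x y _ _ hk hl hm' he h0 h (Or.inl ⟨rfl, rfl⟩) hp u1 u2
    · exact descD k l e1 e2 a b x y _ _ hk hl hm' he h0 h (Or.inr (Or.inl ⟨rfl, rfl⟩)) hp u1 u2
    · exact descD k l e1 e2 a b x y _ _ hk hl hm' he h0 h (Or.inr (Or.inr ⟨rfl, rfl⟩)) hp u1 u2
  have t : x' + 1 = l ∧ y' = l + 1 ∧
      ((a' + 1 = k ∧ b' = k) ∨ (a' + 1 = k ∧ b' = k + 1) ∨ (a' = k ∧ b' = k + 1)) := by
    rcases hq with hp | hp | hp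
    · exact descD k l e1 e2 a' b' x' y' _ _ hk hl hm' he h0 h' (Or.inl ⟨rfl, rfl⟩) hp w1 w2
    · exact descD k l e1 e2 a' b' x' y' _ _ hk hl hm' he h0 h' (Or.inr (Or.inl ⟨rfl, rfl⟩)) hp
        w1 w2
    · exact descD k l e1 e2 a' b' x' y' _ _ hk hl hm' he h0 h' (Or.inr (Or.inr ⟨rfl, rfl⟩)) hp
        w1 w2
  clear u1 u2 w1 w2 hp hq
  have hne' : ¬ (a = a' ∧ b = b' ∧ x = x' ∧ y = y') := by
    rintro ⟨rfl, rfl, rfl, rfl⟩; exact hne rfl
  clear hne h h' hm hm'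
  simp only [Conf, Le, Ov]
  omega

end Pool.Agent.Q11.TF
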