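import Pool.Agent.Q11.TF.StageB

/-!
# Description of the label classes of labB
-/

namespace Pool.Agent.Q11.TF

set_option maxHeartbeats 4000000

theorem specB0 (n m e1 e2 a b x y u v w : ℕ)
    (he : n + 2 * e2 = m + 2 * e1) (h0 : e1 = 0 ∨ e2 = 0)
    (ha : a ≤ b) (hb : b ≤ n) (hx : x ≤ y) (hy : y ≤ m) (hv : a < b ∨ x < y)
    (h1 : labB n m e1 e2 a b x y = (0, u, v, w)) :
    (x < y ∧ ((a + b ≤ n ∧ u = a) ∨ (n < a + b ∧ u + b = n)) ∧ v = x ∧ w = y ∧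
      (u + e2 ≤ x + e1 ∧ u + e2 + y ≤ m + e1)) ∨
    (a = b ∧ x < y ∧ 2 * a ≤ n ∧ u = a ∧ v + 1 = y ∧ w + a + e2 = m + e1 ∧
      ((x = a + e2 + 1 - e1 ∧ x + y ≤ m ∧ e1 < a + e2 + 1) ∨
        (m < x + y ∧ e1 < a + e2 + 1 ∧ a + e2 + 1 + y = m + e1)) ∧
      (a + e2 + 1 - e1 - e2) % 2 = 1 ∧ a + e2 + 1 ≤ x + e1 ∧ a + e2 + 1 + y ≤ m + e1) ∨
    (a = b ∧ x < y ∧ n < 2 * a ∧ u + a = n ∧ v + e1 = u + e2 ∧ w = x + 1 ∧
      ((x + e1 = u + e2 + 1 ∧ x + y ≤ m) ∨ (m < x + y ∧ u + e2 + 1 + y = m + e1)) ∧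
      (u + e2 + 1 - e1 - e2) % 2 = 1 ∧ u + e2 + 1 ≤ x + e1 ∧ u + e2 + 1 + y ≤ m + e1) ∨
    (a = b ∧ x < y ∧ 2 * a ≤ n ∧ u = a ∧ v + e1 = a + e2 ∧ w = y ∧ x + e1 < a + e2 ∧
      a + e2 < y + e1 ∧ y + a + e2 ≤ m + e1) ∨
    (a = b ∧ x < y ∧ n < 2 * a ∧ u + a = n ∧ v = x ∧ w + u + e2 = m + e1 ∧
      m + e1 < u + e2 + y ∧ u + e2 < x + 1 + e1 ∧ x + 1 + u + e2 ≤ m + e1) := by
  rw [labB_eq] at h1
  obtain ⟨j, hj⟩ : ∃ j, j = min a (n-b) := ⟨_, rfl⟩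
  obtain ⟨i, hi⟩ : ∃ i, i = min x (m-y) := ⟨_, rfl⟩
  rw [← hj, ← hi] at h1
  simp only [B0] at h1
  split_ifs at h1
  all_goals (try simp only [B1, B2, B3u, B3s, B3l] at h1)
  all_goals (try split_ifs at h1)
  all_goals (try simp only [Prod.mk.injEq, Nat.reduceEqDiff, OfNat.ofNat_ne_zero, OfNat.ofNat_ne_one, OfNat.zero_ne_ofNat, OfNat.one_ne_ofNat, one_ne_zero, zero_ne_one, false_and, true_and] at h1)
  · right; left; omega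
  · right; right; left; omega
  · left; omega
  · right; right; right; left; omega
  · right; right; right; right; omega

theorem specB2 (n m e1 e2 a b x y u v w : ℕ)
    (he : n + 2 * e2 = m + 2 * e1) (h0 : e1 = 0 ∨ e2 = 0)
    (ha : a ≤ b) (hb : b ≤ n) (hx : x ≤ y) (hy : y ≤ m) (hv : a < b ∨ x < y)
    (h1 : labB n m e1 e2 a b x y = (2, u, v, w)) :
    (a = b ∧ x < y ∧ 2 * a ≤ n ∧ u = a ∧ v = y ∧ w = 0 ∧
      (x + e1 < u + e2 ∨ m + e1 < y + u + e2) ∧ (v + e1 ≤ u + e2 ∨ m + e1 < v + u + e2)) ∨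
    (a = b ∧ x < y ∧ n < 2 * a ∧ u + a = n ∧ v = x + 1 ∧ w = 0 ∧
      (x + e1 < u + e2 ∨ m + e1 < y + u + e2) ∧ (v + e1 ≤ u + e2 ∨ m + e1 < v + u + e2)) := by
  rw [labB_eq] at h1
  obtain ⟨j, hj⟩ : ∃ j, j = min a (n-b) := ⟨_, rfl⟩
  obtain ⟨i, hi⟩ : ∃ i, i = min x (m-y) := ⟨_, rfl⟩
  rw [← hj, ← hi] at h1
  simp only [B0] at h1
  split_ifs at h1
  all_goals (try simp only [B1, B2, B3u, B3s, B3l] at h1)
  all_goals (try split_ifs at h1)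
  all_goals (try simp only [Prod.mk.injEq, Nat.reduceEqDiff, OfNat.ofNat_ne_zero, OfNat.ofNat_ne_one, OfNat.zero_ne_ofNat, OfNat.one_ne_ofNat, one_ne_zero, zero_ne_one, false_and, true_and] at h1)
  · left; omega
  · right; omega

end Pool.Agent.Q11.TF
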