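import Pool.Agent.Q11.TF.NdD

/-!
# Description of the label classes of labD, tags 3 to 6
-/

namespace Pool.Agent.Q11.TF

set_option maxHeartbeats 4000000
set_option linter.unusedVariables false
set_option linter.unusedSimpArgs false

theorem specD3 (k l e1 e2 a b x y u v w : ℕ)
    (hk : 3 ≤ k) (hl : 3 ≤ l)
    (hm : (e1 = 0 ∧ k % 2 = 1) ∨ (e2 = 0 ∧ l % 2 = 1)) (he : k + e2 = l + e1)
    (h0 : e1 = 0 ∨ e2 = 0)
    (g1 : a ≤ b) (g2 : b ≤ 2 * k) (g3 : x ≤ y) (g4 : y ≤ 2 * l) (g5 : a < b ∨ x < y)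
    (h1 : labD k l e1 e2 a b x y = (3, u, v, w)) :
    w = 0 ∧ u + 1 = l ∧ (
    (x = l ∧ y = l ∧ b = a + 1 ∧ (b + 1 ≤ k ∨ k + 2 ≤ b) ∧ v = b) ∨
    (x + 1 = l ∧ y + 1 = l ∧ a < b ∧ (b + 1 ≤ k ∨ k + 2 ≤ b) ∧ v = b ∧
      (a + 2 ≤ k ∨ k + 2 ≤ b)) ∨
    (x = l + 1 ∧ y = l + 1 ∧ a < b ∧ (a + 2 ≤ k ∨ k + 1 ≤ a) ∧ v = a + 1 ∧
      (a + 2 ≤ k ∨ k + 2 ≤ b))) := by
  rw [labD_eq] at h1
  obtain ⟨j, hj⟩ : ∃ j, j = min a (2 * k - b) := ⟨_, rfl⟩
  obtain ⟨i, hi⟩ : ∃ i, i = min x (2 * l - y) := ⟨_, rfl⟩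
  rw [← hj, ← hi] at h1
  simp only [D0] at h1
  split_ifs at h1 with c1 c2 c3 c4 c5 c6 c7 c8
  · clear hm he h0 
    simp only [D1] at h1
    split_ifs at h1
    all_goals (try simp only [Prod.mk.injEq, Nat.reduceEqDiff, OfNat.ofNat_ne_zero, OfNat.ofNat_ne_one, OfNat.zero_ne_ofNat, OfNat.one_ne_ofNat, one_ne_zero, zero_ne_one, false_and, true_and] at h1)
    · refine ⟨by omega, by omega, ?_⟩; left; omega
  · clear hm he h0 c1
    simp only [D2] at h1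
    split_ifs at h1
    all_goals (try simp only [Prod.mk.injEq, Nat.reduceEqDiff, OfNat.ofNat_ne_zero, OfNat.ofNat_ne_one, OfNat.zero_ne_ofNat, OfNat.one_ne_ofNat, one_ne_zero, zero_ne_one, false_and, true_and] at h1)
  · clear hm he h0 c1 c2
    simp only [D3] at h1
    split_ifs at h1
    all_goals (try simp only [Prod.mk.injEq, Nat.reduceEqDiff, OfNat.ofNat_ne_zero, OfNat.ofNat_ne_one, OfNat.zero_ne_ofNat, OfNat.one_ne_ofNat, one_ne_zero, zero_ne_one, false_and, true_and] at h1)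
  · clear hm he h0 c1 c2 c3
    simp only [D4] at h1
    split_ifs at h1
    all_goals (try simp only [Prod.mk.injEq, Nat.reduceEqDiff, OfNat.ofNat_ne_zero, OfNat.ofNat_ne_one, OfNat.zero_ne_ofNat, OfNat.one_ne_ofNat, one_ne_zero, zero_ne_one, false_and, true_and] at h1)
  · clear hm he h0 c2 c3 c4
    simp only [D5] at h1
    split_ifs at h1
    all_goals (try simp only [Prod.mk.injEq, Nat.reduceEqDiff, OfNat.ofNat_ne_zero, OfNat.ofNat_ne_one, OfNat.zero_ne_ofNat, OfNat.one_ne_ofNat, one_ne_zero, zero_ne_one, false_and, true_and] at h1)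
  · clear hm he h0 c1 c2 c3 c4 c5
    simp only [D6] at h1
    split_ifs at h1
    all_goals (try simp only [Prod.mk.injEq, Nat.reduceEqDiff, OfNat.ofNat_ne_zero, OfNat.ofNat_ne_one, OfNat.zero_ne_ofNat, OfNat.one_ne_ofNat, one_ne_zero, zero_ne_one, false_and, true_and] at h1)
  · clear hm he h0 c1 c2 c3 c4 c5 c6
    simp only [D7] at h1
    split_ifs at h1
    all_goals (try simp only [Prod.mk.injEq, Nat.reduceEqDiff, OfNat.ofNat_ne_zero, OfNat.ofNat_ne_one, OfNat.zero_ne_ofNat, OfNat.one_ne_ofNat, one_ne_zero, zero_ne_one, false_and, true_and] at h1)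
  · clear hm he h0 c1 c2 c3 c4 c5 c6 c7
    simp only [D8] at h1
    split_ifs at h1
    all_goals (try simp only [Prod.mk.injEq, Nat.reduceEqDiff, OfNat.ofNat_ne_zero, OfNat.ofNat_ne_one, OfNat.zero_ne_ofNat, OfNat.one_ne_ofNat, one_ne_zero, zero_ne_one, false_and, true_and] at h1)
    · refine ⟨by omega, by omega, ?_⟩; right; left; omega
    · refine ⟨by omega, by omega, ?_⟩; right; right; omega
  · exact (ndD3 k l e1 e2 a b x y j i u v w hk hl hm he h0 g1 g2 g3 g4 g5 hj hi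
      ⟨c1, c2, c3, c4, c5, c6, c7, c8⟩ h1).elim

theorem specD4 (k l e1 e2 a b x y u v w : ℕ)
    (hk : 3 ≤ k) (hl : 3 ≤ l)
    (hm : (e1 = 0 ∧ k % 2 = 1) ∨ (e2 = 0 ∧ l % 2 = 1)) (he : k + e2 = l + e1)
    (h0 : e1 = 0 ∨ e2 = 0)
    (g1 : a ≤ b) (g2 : b ≤ 2 * k) (g3 : x ≤ y) (g4 : y ≤ 2 * l) (g5 : a < b ∨ x < y)
    (h1 : labD k l e1 e2 a b x y = (4, u, v, w)) :
    u + 2 ≤ l ∧ NSD k l a b x y (min a (2 * k - b)) (min x (2 * l - y)) ∧
      labB (2 * k) (2 * l) e1 e2 a b x y = (4, u, v, w) := by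
  rw [labD_eq] at h1
  obtain ⟨j, hj⟩ : ∃ j, j = min a (2 * k - b) := ⟨_, rfl⟩
  obtain ⟨i, hi⟩ : ∃ i, i = min x (2 * l - y) := ⟨_, rfl⟩
  rw [← hj, ← hi] at h1
  simp only [D0] at h1
  split_ifs at h1 with c1 c2 c3 c4 c5 c6 c7 c8
  · clear hm he h0 
    simp only [D1] at h1
    split_ifs at h1
    all_goals (try simp only [Prod.mk.injEq, Nat.reduceEqDiff, OfNat.ofNat_ne_zero, OfNat.ofNat_ne_one, OfNat.zero_ne_ofNat, OfNat.one_ne_ofNat, one_ne_zero, zero_ne_one, false_and, true_and] at h1)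
  · clear hm he h0 c1
    simp only [D2] at h1
    split_ifs at h1
    all_goals (try simp only [Prod.mk.injEq, Nat.reduceEqDiff, OfNat.ofNat_ne_zero, OfNat.ofNat_ne_one, OfNat.zero_ne_ofNat, OfNat.one_ne_ofNat, one_ne_zero, zero_ne_one, false_and, true_and] at h1)
  · clear hm he h0 c1 c2
    simp only [D3] at h1
    split_ifs at h1
    all_goals (try simp only [Prod.mk.injEq, Nat.reduceEqDiff, OfNat.ofNat_ne_zero, OfNat.ofNat_ne_one, OfNat.zero_ne_ofNat, OfNat.one_ne_ofNat, one_ne_zero, zero_ne_one, false_and, true_and] at h1)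
  · clear hm he h0 c1 c2 c3
    simp only [D4] at h1
    split_ifs at h1
    all_goals (try simp only [Prod.mk.injEq, Nat.reduceEqDiff, OfNat.ofNat_ne_zero, OfNat.ofNat_ne_one, OfNat.zero_ne_ofNat, OfNat.one_ne_ofNat, one_ne_zero, zero_ne_one, false_and, true_and] at h1)
  · clear hm he h0 c2 c3 c4
    simp only [D5] at h1
    split_ifs at h1
    all_goals (try simp only [Prod.mk.injEq, Nat.reduceEqDiff, OfNat.ofNat_ne_zero, OfNat.ofNat_ne_one, OfNat.zero_ne_ofNat, OfNat.one_ne_ofNat, one_ne_zero, zero_ne_one, false_and, true_and] at h1)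
  · clear hm he h0 c1 c2 c3 c4 c5
    simp only [D6] at h1
    split_ifs at h1
    all_goals (try simp only [Prod.mk.injEq, Nat.reduceEqDiff, OfNat.ofNat_ne_zero, OfNat.ofNat_ne_one, OfNat.zero_ne_ofNat, OfNat.one_ne_ofNat, one_ne_zero, zero_ne_one, false_and, true_and] at h1)
  · clear hm he h0 c1 c2 c3 c4 c5 c6
    simp only [D7] at h1
    split_ifs at h1
    all_goals (try simp only [Prod.mk.injEq, Nat.reduceEqDiff, OfNat.ofNat_ne_zero, OfNat.ofNat_ne_one, OfNat.zero_ne_ofNat, OfNat.one_ne_ofNat, one_ne_zero, zero_ne_one, false_and, true_and] at h1)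
  · clear hm he h0 c1 c2 c3 c4 c5 c6 c7
    simp only [D8] at h1
    split_ifs at h1
    all_goals (try simp only [Prod.mk.injEq, Nat.reduceEqDiff, OfNat.ofNat_ne_zero, OfNat.ofNat_ne_one, OfNat.zero_ne_ofNat, OfNat.one_ne_ofNat, one_ne_zero, zero_ne_one, false_and, true_and] at h1)
  · refine ⟨ndD4 k l e1 e2 a b x y j i u v w hk hl hm he h0 g1 g2 g3 g4 g5 hj hi
      ⟨c1, c2, c3, c4, c5, c6, c7, c8⟩ h1, ?_, h1⟩
    rw [← hj, ← hi]
    exact ⟨c1, c2, c3, c4, c5, c6, c7, c8⟩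

theorem specD5 (k l e1 e2 a b x y u v w : ℕ)
    (hk : 3 ≤ k) (hl : 3 ≤ l)
    (hm : (e1 = 0 ∧ k % 2 = 1) ∨ (e2 = 0 ∧ l % 2 = 1)) (he : k + e2 = l + e1)
    (h0 : e1 = 0 ∨ e2 = 0)
    (g1 : a ≤ b) (g2 : b ≤ 2 * k) (g3 : x ≤ y) (g4 : y ≤ 2 * l) (g5 : a < b ∨ x < y)
    (h1 : labD k l e1 e2 a b x y = (5, u, v, w)) :
    u + 2 ≤ l ∧ NSD k l a b x y (min a (2 * k - b)) (min x (2 * l - y)) ∧
      labB (2 * k) (2 * l) e1 e2 a b x y = (5, u, v, w) := by
  rw [labD_eq] at h1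
  obtain ⟨j, hj⟩ : ∃ j, j = min a (2 * k - b) := ⟨_, rfl⟩
  obtain ⟨i, hi⟩ : ∃ i, i = min x (2 * l - y) := ⟨_, rfl⟩
  rw [← hj, ← hi] at h1
  simp only [D0] at h1
  split_ifs at h1 with c1 c2 c3 c4 c5 c6 c7 c8
  · clear hm he h0 
    simp only [D1] at h1
    split_ifs at h1
    all_goals (try simp only [Prod.mk.injEq, Nat.reduceEqDiff, OfNat.ofNat_ne_zero, OfNat.ofNat_ne_one, OfNat.zero_ne_ofNat, OfNat.one_ne_ofNat, one_ne_zero, zero_ne_one, false_and, true_and] at h1)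
  · clear hm he h0 c1
    simp only [D2] at h1
    split_ifs at h1
    all_goals (try simp only [Prod.mk.injEq, Nat.reduceEqDiff, OfNat.ofNat_ne_zero, OfNat.ofNat_ne_one, OfNat.zero_ne_ofNat, OfNat.one_ne_ofNat, one_ne_zero, zero_ne_one, false_and, true_and] at h1)
  · clear hm he h0 c1 c2
    simp only [D3] at h1
    split_ifs at h1
    all_goals (try simp only [Prod.mk.injEq, Nat.reduceEqDiff, OfNat.ofNat_ne_zero, OfNat.ofNat_ne_one, OfNat.zero_ne_ofNat, OfNat.one_ne_ofNat, one_ne_zero, zero_ne_one, false_and, true_and] at h1)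
  · clear hm he h0 c1 c2 c3
    simp only [D4] at h1
    split_ifs at h1
    all_goals (try simp only [Prod.mk.injEq, Nat.reduceEqDiff, OfNat.ofNat_ne_zero, OfNat.ofNat_ne_one, OfNat.zero_ne_ofNat, OfNat.one_ne_ofNat, one_ne_zero, zero_ne_one, false_and, true_and] at h1)
  · clear hm he h0 c2 c3 c4
    simp only [D5] at h1
    split_ifs at h1
    all_goals (try simp only [Prod.mk.injEq, Nat.reduceEqDiff, OfNat.ofNat_ne_zero, OfNat.ofNat_ne_one, OfNat.zero_ne_ofNat, OfNat.one_ne_ofNat, one_ne_zero, zero_ne_one, false_and, true_and] at h1)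
  · clear hm he h0 c1 c2 c3 c4 c5
    simp only [D6] at h1
    split_ifs at h1
    all_goals (try simp only [Prod.mk.injEq, Nat.reduceEqDiff, OfNat.ofNat_ne_zero, OfNat.ofNat_ne_one, OfNat.zero_ne_ofNat, OfNat.one_ne_ofNat, one_ne_zero, zero_ne_one, false_and, true_and] at h1)
  · clear hm he h0 c1 c2 c3 c4 c5 c6
    simp only [D7] at h1
    split_ifs at h1
    all_goals (try simp only [Prod.mk.injEq, Nat.reduceEqDiff, OfNat.ofNat_ne_zero, OfNat.ofNat_ne_one, OfNat.zero_ne_ofNat, OfNat.one_ne_ofNat, one_ne_zero, zero_ne_one, false_and, true_and] at h1)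
  · clear hm he h0 c1 c2 c3 c4 c5 c6 c7
    simp only [D8] at h1
    split_ifs at h1
    all_goals (try simp only [Prod.mk.injEq, Nat.reduceEqDiff, OfNat.ofNat_ne_zero, OfNat.ofNat_ne_one, OfNat.zero_ne_ofNat, OfNat.one_ne_ofNat, one_ne_zero, zero_ne_one, false_and, true_and] at h1)
  · refine ⟨ndD5 k l e1 e2 a b x y j i u v w hk hl hm he h0 g1 g2 g3 g4 g5 hj hi
      ⟨c1, c2, c3, c4, c5, c6, c7, c8⟩ h1, ?_, h1⟩
    rw [← hj, ← hi]
    exact ⟨c1, c2, c3, c4, c5, c6, c7, c8⟩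

end Pool.Agent.Q11.TF
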