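import Pool.Agent.Q11.TF.NdD

/-!
# Description of the label classes of labD, tag 6
-/

namespace Pool.Agent.Q11.TF

set_option maxHeartbeats 4000000
set_option linter.unusedVariables false
set_option linter.unusedSimpArgs false

theorem specD6 (k l e1 e2 a b x y u v w : ℕ)
    (hk : 3 ≤ k) (hl : 3 ≤ l)
    (hm : (e1 = 0 ∧ k % 2 = 1) ∨ (e2 = 0 ∧ l % 2 = 1)) (he : k + e2 = l + e1)
    (h0 : e1 = 0 ∨ e2 = 0)
    (g1 : a ≤ b) (g2 : b ≤ 2 * k) (g3 : x ≤ y) (g4 : y ≤ 2 * l) (g5 : a < b ∨ x < y)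
    (h1 : labD k l e1 e2 a b x y = (6, u, v, w)) :
    v = 0 ∧ w = 0 ∧ (
    (((a + 2 = k ∧ b ≤ k + 2) ∨ (b = k + 2 ∧ k ≤ a + 2)) ∧
      ((x + 2 = l ∧ y ≤ l + 2) ∨ (y = l + 2 ∧ l ≤ x + 2)) ∧ x < y ∧
      ((a + b + x + y ≤ 2 * k + 2 * l ∧ x + y ≤ 2 * l + 2 ∧ u + 2 * l = x + y + 3) ∨
       (¬ (a + b + x + y ≤ 2 * k + 2 * l ∧ x + y ≤ 2 * l + 2) ∧ u + 2 * l = x + y + 2)) ∧
      ¬ (x = l + 1 ∧ y = l + 2 ∧ a + 2 = k ∧ b + 1 ≤ k) ∧
      ¬ (x + 2 = l ∧ y + 1 = l ∧ b = k + 2 ∧ k + 1 ≤ a)) ∨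
    (a + 2 = k ∧ b + 2 = k ∧ x + 3 ≤ l ∧ l ≤ y + 1 ∧ y ≤ l + 2 ∧ u + l = y + 1) ∨
    (a = k + 2 ∧ b = k + 2 ∧ l + 3 ≤ y ∧ l ≤ x + 2 ∧ x ≤ l + 1 ∧ u + l = x + 4)) := by
  rw [labD_eq] at h1
  obtain ⟨j, hj⟩ : ∃ j, j = min a (2 * k - b) := ⟨_, rfl⟩
  obtain ⟨i, hi⟩ : ∃ i, i = min x (2 * l - y) := ⟨_, rfl⟩
  rw [← hj, ← hi] at h1
  simp only [D0] at h1
  split_ifs at h1 with c1 c2 c3 c4 c5 c6 c7 c8
  · simp only [D1] at h1
    split_ifs at h1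
    all_goals (try simp only [Prod.mk.injEq, Nat.reduceEqDiff, OfNat.ofNat_ne_zero, OfNat.ofNat_ne_one, OfNat.zero_ne_ofNat, OfNat.one_ne_ofNat, one_ne_zero, zero_ne_one, false_and, true_and] at h1)
  · simp only [D2] at h1
    split_ifs at h1
    all_goals (try simp only [Prod.mk.injEq, Nat.reduceEqDiff, OfNat.ofNat_ne_zero, OfNat.ofNat_ne_one, OfNat.zero_ne_ofNat, OfNat.one_ne_ofNat, one_ne_zero, zero_ne_one, false_and, true_and] at h1)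
  · obtain ⟨c31, c32, c33⟩ := c3
    have cI : (a + 2 = k ∧ b ≤ k + 2) ∨ (b = k + 2 ∧ k ≤ a + 2) := by
      clear h1 hm he h0 g3 g4 g5 hi c1 c2 c32 c33 hl; omega
    have cJ : (x + 2 = l ∧ y ≤ l + 2) ∨ (y = l + 2 ∧ l ≤ x + 2) := by
      clear h1 hm he h0 g1 g2 g5 hj c1 c2 c31 c33 hk; omega
    simp only [D3] at h1
    split_ifs at h1 with d1 d2 d3
    all_goals (try simp only [Prod.mk.injEq, Nat.reduceEqDiff, OfNat.ofNat_ne_zero, OfNat.ofNat_ne_one, OfNat.zero_ne_ofNat, OfNat.one_ne_ofNat, one_ne_zero, zero_ne_one, false_and, true_and] at h1)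
    · refine ⟨h1.2.1.symm, h1.2.2.symm, Or.inl ⟨cI, cJ, c33, Or.inl ⟨d3.1, d3.2, ?_⟩, d1, d2⟩⟩
      have hq := h1.1
      clear h1 d1 d2 d3 hm he h0 g1 g2 g5 hj c1 c2 c31 cI hk
      omega
    · refine ⟨h1.2.1.symm, h1.2.2.symm, Or.inl ⟨cI, cJ, c33, Or.inr ⟨d3, ?_⟩, d1, d2⟩⟩
      have hq := h1.1
      have hs : 2 * l ≤ x + y + 2 := by
        by_contra hcon
        clear h1 hq d1 hm he h0 g5 hj hi c1 c2 c31 c32 hk
        have e1 : x + 2 = l ∧ y + 1 = l := by clear d2 d3 cI; omega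
        have e2 : b = k + 2 ∧ k + 1 ≤ a := by clear d2 cJ; omega
        exact d2 ⟨e1.1, e1.2, e2.1, e2.2⟩
      clear h1 d1 d2 d3 hm he h0 g1 g2 g5 hj c1 c2 c31 cI hk
      omega
  · simp only [D4] at h1
    split_ifs at h1
    all_goals (try simp only [Prod.mk.injEq, Nat.reduceEqDiff, OfNat.ofNat_ne_zero, OfNat.ofNat_ne_one, OfNat.zero_ne_ofNat, OfNat.one_ne_ofNat, one_ne_zero, zero_ne_one, false_and, true_and] at h1)
  · simp only [D5] at h1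
    split_ifs at h1
    all_goals (try simp only [Prod.mk.injEq, Nat.reduceEqDiff, OfNat.ofNat_ne_zero, OfNat.ofNat_ne_one, OfNat.zero_ne_ofNat, OfNat.one_ne_ofNat, one_ne_zero, zero_ne_one, false_and, true_and] at h1)
  · simp only [D6] at h1
    split_ifs at h1
    all_goals (try simp only [Prod.mk.injEq, Nat.reduceEqDiff, OfNat.ofNat_ne_zero, OfNat.ofNat_ne_one, OfNat.zero_ne_ofNat, OfNat.one_ne_ofNat, one_ne_zero, zero_ne_one, false_and, true_and] at h1)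
  · simp only [D7] at h1
    split_ifs at h1
    all_goals (try simp only [Prod.mk.injEq, Nat.reduceEqDiff, OfNat.ofNat_ne_zero, OfNat.ofNat_ne_one, OfNat.zero_ne_ofNat, OfNat.one_ne_ofNat, one_ne_zero, zero_ne_one, false_and, true_and] at h1)
    · refine ⟨h1.2.1.symm, h1.2.2.symm, ?_⟩; right; left; clear hm he h0 c1 c2 c3 c4 c5 c6; omega
    · refine ⟨h1.2.1.symm, h1.2.2.symm, ?_⟩; right; right; clear hm he h0 c1 c2 c3 c4 c5 c6; omega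
  · simp only [D8] at h1
    split_ifs at h1
    all_goals (try simp only [Prod.mk.injEq, Nat.reduceEqDiff, OfNat.ofNat_ne_zero, OfNat.ofNat_ne_one, OfNat.zero_ne_ofNat, OfNat.one_ne_ofNat, one_ne_zero, zero_ne_one, false_and, true_and] at h1)
  · have ht := tagB (2 * k) (2 * l) e1 e2 a b x y
    rw [h1] at ht
    simp at ht

end Pool.Agent.Q11.TF
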