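import Pool.Agent.Q11.TF.Stm

/-!
# labB in stages
-/

namespace Pool.Agent.Q11.TF

def B1 (n m a b x y j i : ℕ) : Q :=
  if a < b then (1, a, b, i)
  else if 2 * a ≤ n then (0, j, y - 1, m + 1 - i)
  else (0, j, i - 1, x + 1)

def B2 (n m e1 e2 a x y j : ℕ) : Q :=
  if 2 * a ≤ n then
    (if y + e1 ≤ j + e2 ∨ m + e1 < y + j + e2 then (2, j, y, 0) else (0, j, j + e2 - e1, y))
  else
    (if x + 1 + e1 ≤ j + e2 ∨ m + e1 < x + 1 + j + e2 then (2, j, x + 1, 0)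
     else (0, j, x, m + e1 - (j + e2)))

def B3u (n m e1 e2 a b x i : ℕ) : Q :=
  if 2 * x ≤ m then
    (if i + e1 + 2 ≤ b + e2 ∧ b + i + e1 + 1 ≤ n + e2 then (1, b - 1, b, i)
     else (1, b - 1, b, i + 1))
  else
    (if i + e1 + 1 ≤ a + e2 ∧ a + i + e1 + 2 ≤ n + e2 then (1, a, a + 1, i)
     else (1, a, a + 1, i + 1))

def B3s (m a b x i : ℕ) : Q :=
  if 2 * x ≤ m then (3, i, b, 0) else (3, i, a + 1, 0)

def B3l (n m e1 e2 a b x i : ℕ) : Q :=
  if 2 * x ≤ m then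
    (if b + e2 ≤ i + e1 then (if b = a + 1 then (1, a, b, i) else (4, i, b, 0))
     else if b + i + e1 = n + e2 + 1 then (1, i + e1 - e2 - 1, b, i)
     else if b + i + e1 ≤ n + e2 then (1, b - 1, n + e2 + 1 - (i + e1), i)
     else (if b = a + 1 then (1, a, b, i) else (5, i, b - 1, 0)))
  else
    (if n + e2 ≤ a + i + e1 then (if b = a + 1 then (1, a, b, i) else (5, i, a + 1, 0))
     else if a + e2 + 1 = i + e1 then (1, a, n + e2 + 1 - (i + e1), i)
     else if i + e1 ≤ a + e2 then (1, i + e1 - e2 - 1, a + 1, i)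
     else (if b = a + 1 then (1, a, b, i) else (4, i, a + 2, 0)))

def B0 (n m e1 e2 a b x y j i : ℕ) : Q :=
  if i + e1 = j + e2 + 1 ∧ (i - e2) % 2 = 1 then B1 n m a b x y j i
  else if x < y ∧ j + e2 ≤ i + e1 then (0, j, x, y)
  else if a < b ∧ i + e1 < j + e2 then (1, a, b, i)
  else if a = b then B2 n m e1 e2 a x y j
  else if (i - e2) % 2 = 0 ∧ 2 * i + 3 ≤ m then B3u n m e1 e2 a b x i
  else if (i - e2) % 2 = 0 then B3s m a b x i
  else B3l n m e1 e2 a b x i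

theorem labB_eq (n m e1 e2 a b x y : ℕ) :
    labB n m e1 e2 a b x y = B0 n m e1 e2 a b x y (min a (n - b)) (min x (m - y)) := rfl

end Pool.Agent.Q11.TF
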