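import Pool.Agent.Q11.TF.Stm

/-!
# labD in stages
-/

namespace Pool.Agent.Q11.TF

def D1 (k l a b : ℕ) : Q :=
  if b = a + 1 ∧ (b + 1 ≤ k ∨ k + 2 ≤ b) then (3, l - 1, b, 0) else (8, 0, 0, 0)

def D2 (k l x y : ℕ) : Q :=
  if y = x + 1 ∧ (y + 2 ≤ l ∨ l + 3 ≤ y) then (2, k - 1, y, 0)
  else if y = x + 1 ∧ y + 1 = l then (0, k - 1, l - 2, l - 1)
  else if y = x + 1 ∧ y = l + 2 then (0, k - 1, l + 1, l + 2)
  else (7, 0, 0, 0)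

def D3 (k l a b x y : ℕ) : Q :=
  if x = l + 1 ∧ y = l + 2 ∧ a + 2 = k ∧ b + 1 ≤ k then (0, k - 1, l + 1, l + 2)
  else if x + 2 = l ∧ y + 1 = l ∧ b = k + 2 ∧ k + 1 ≤ a then (0, k - 1, l - 2, l - 1)
  else if a + b + x + y ≤ 2 * k + 2 * l ∧ x + y ≤ 2 * l + 2 then (6, x + y + 3 - 2 * l, 0, 0)
  else (6, x + y + 2 - 2 * l, 0, 0)

def D4 (k l a b x y : ℕ) : Q :=
  if x < y then
    (if a + 1 = k ∧ b = k + 1 ∧ (y + 1 = l ∨ x = l + 1) then (1, k - 1, k + 1, l - 1)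
     else (0, k - 1, x, y))
  else if x < l then (1, b - 1, k + 3, l - 2)
  else (1, k - 3, a + 1, l - 2)

def D5 (k l a b x y : ℕ) : Q :=
  if a < b then (1, a, b, l - 1)
  else if a < k then (0, k - 1, y - 1, l + 2)
  else (0, k - 1, l - 2, x + 1)

def D6 (k l a x y : ℕ) : Q :=
  if a < k then
    (if y + 2 ≤ l ∨ l + 3 ≤ y then (2, k - 1, y, 0) else (0, k - 1, l - 2, y))
  else
    (if x + 3 ≤ l ∨ l + 2 ≤ x then (2, k - 1, x + 1, 0) else (0, k - 1, x, l + 2))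

def D7 (k l a x y : ℕ) : Q :=
  if a < k then
    (if y + 2 ≤ l ∨ l + 3 ≤ y then (2, k - 2, y, 0) else (6, y + 1 - l, 0, 0))
  else
    (if x + 3 ≤ l ∨ l + 2 ≤ x then (2, k - 2, x + 1, 0) else (6, x + 4 - l, 0, 0))

def D8 (k l a b x : ℕ) : Q :=
  if x < l then
    (if b + 1 ≤ k ∨ k + 2 ≤ b then (3, l - 1, b, 0) else (1, b - 1, b, l - 1))
  else
    (if a + 2 ≤ k ∨ k + 1 ≤ a then (3, l - 1, a + 1, 0) else (1, a, a + 1, l - 1))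

def D0 (k l e1 e2 a b x y j i : ℕ) : Q :=
  if x = l ∧ y = l then D1 k l a b
  else if a = k ∧ b = k then D2 k l x y
  else if j + 2 = k ∧ i + 2 = l ∧ x < y then D3 k l a b x y
  else if j + 1 = k ∧ i + 2 = l then D4 k l a b x y
  else if j + 1 = k ∧ i + 1 = l then D5 k l a b x y
  else if a = b ∧ j + 1 = k ∧ i + 3 ≤ l then D6 k l a x y
  else if a = b ∧ j + 2 = k ∧ i + 3 ≤ l then D7 k l a x y
  else if x = y ∧ i + 1 = l ∧ j + 2 ≤ k then D8 k l a b x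
  else labB (2 * k) (2 * l) e1 e2 a b x y

theorem labD_eq (k l e1 e2 a b x y : ℕ) :
    labD k l e1 e2 a b x y =
      D0 k l e1 e2 a b x y (min a (2 * k - b)) (min x (2 * l - y)) := rfl

/-- not special for labD -/
def NSD (k l a b x y j i : ℕ) : Prop :=
  ¬ (x = l ∧ y = l) ∧ ¬ (a = k ∧ b = k) ∧ ¬ (j + 2 = k ∧ i + 2 = l ∧ x < y) ∧
  ¬ (j + 1 = k ∧ i + 2 = l) ∧ ¬ (j + 1 = k ∧ i + 1 = l) ∧
  ¬ (a = b ∧ j + 1 = k ∧ i + 3 ≤ l) ∧ ¬ (a = b ∧ j + 2 = k ∧ i + 3 ≤ l) ∧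
  ¬ (x = y ∧ i + 1 = l ∧ j + 2 ≤ k)

theorem labD_of_NSD (k l e1 e2 a b x y : ℕ)
    (h : NSD k l a b x y (min a (2 * k - b)) (min x (2 * l - y))) :
    labD k l e1 e2 a b x y = labB (2 * k) (2 * l) e1 e2 a b x y := by
  obtain ⟨h1, h2, h3, h4, h5, h6, h7, h8⟩ := h
  rw [labD_eq, D0, if_neg h1, if_neg h2, if_neg h3, if_neg h4, if_neg h5, if_neg h6, if_neg h7,
    if_neg h8]

end Pool.Agent.Q11.TF
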