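import Pool.Agent.Q11.TF.Def

/-!
# Statements of project TF (complexity of transfer systems of cyclic groups of order p^n q^m)
-/

namespace Pool.Agent.Q11.TF

/-- the rank of a quadruple -/
def rk (p : Q) : ℕ := p.1 + p.2.1 + p.2.2.1 + p.2.2.2

/-- labels as functions of quadruples -/
def lA (k w : ℕ) (p : Q) : Q := labA k w p.1 p.2.1 p.2.2.1 p.2.2.2
def lB (n m e1 e2 : ℕ) (p : Q) : Q := labB n m e1 e2 p.1 p.2.1 p.2.2.1 p.2.2.2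
def lC (k l e1 e2 : ℕ) (p : Q) : Q := labC k l e1 e2 p.1 p.2.1 p.2.2.1 p.2.2.2
def lD (k l e1 e2 : ℕ) (p : Q) : Q := labD k l e1 e2 p.1 p.2.1 p.2.2.1 p.2.2.2

/-! ### n even, m odd -/

def S_cliqueA : Prop := ∀ k w : ℕ, 1 ≤ k → 1 ≤ w → ∀ p q : Q,
  Val (2 * k) (2 * w + 1) p → Val (2 * k) (2 * w + 1) q → lA k w p = lA k w q →
  (lA k w p).1 ≠ 7 → p ≠ q → Conf p q

def S_coverA : Prop := ∀ k w : ℕ, 1 ≤ k → 1 ≤ w → ∀ p : Q,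
  Val (2 * k) (2 * w + 1) p → (lA k w p).1 ≠ 7 →
  ∃ q : Q, Val (2 * k) (2 * w + 1) q ∧ rk q = 2 * k + 2 * w + 1 ∧ lA k w q = lA k w p

def S_centralA : Prop := ∀ k w : ℕ, 1 ≤ k → 1 ≤ w → ∀ p : Q,
  Val (2 * k) (2 * w + 1) p →
  ((lA k w p).1 = 7 ↔ (p.1 = k ∧ p.2.1 = k ∧ (p.2.2.2 ≠ p.2.2.1 + 1 ∨ p.2.2.2 = w + 1)))

/-! ### n and m odd -/

def S_cliqueB : Prop := ∀ n m e1 e2 : ℕ, n % 2 = 1 → m % 2 = 1 → 3 ≤ n → 3 ≤ m →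
  n + 2 * e2 = m + 2 * e1 → (e1 = 0 ∨ e2 = 0) → ∀ p q : Q,
  Val n m p → Val n m q → lB n m e1 e2 p = lB n m e1 e2 q → p ≠ q → Conf p q

def S_coverB : Prop := ∀ n m e1 e2 : ℕ, n % 2 = 1 → m % 2 = 1 → 3 ≤ n → 3 ≤ m →
  n + 2 * e2 = m + 2 * e1 → (e1 = 0 ∨ e2 = 0) → ∀ p : Q, Val n m p →
  ∃ q : Q, Val n m q ∧ rk q + 1 = n + m ∧ lB n m e1 e2 q = lB n m e1 e2 p

/-! ### n = 2 k, m = 2 l, min k l even -/

def S_cliqueC : Prop := ∀ k l e1 e2 : ℕ, 2 ≤ k → 2 ≤ l → (min k l) % 2 = 0 →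
  k + e2 = l + e1 → (e1 = 0 ∨ e2 = 0) → ∀ p q : Q,
  Val (2 * k) (2 * l) p → Val (2 * k) (2 * l) q → lC k l e1 e2 p = lC k l e1 e2 q →
  (lC k l e1 e2 p).1 ≠ 7 → (lC k l e1 e2 p).1 ≠ 8 → p ≠ q → Conf p q

def S_coverC : Prop := ∀ k l e1 e2 : ℕ, 2 ≤ k → 2 ≤ l → (min k l) % 2 = 0 →
  k + e2 = l + e1 → (e1 = 0 ∨ e2 = 0) → ∀ p : Q, Val (2 * k) (2 * l) p →
  (lC k l e1 e2 p).1 ≠ 7 → (lC k l e1 e2 p).1 ≠ 8 →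
  ∃ q : Q, Val (2 * k) (2 * l) q ∧ rk q + 1 = 2 * k + 2 * l ∧ lC k l e1 e2 q = lC k l e1 e2 p

def S_centralC : Prop := ∀ k l e1 e2 : ℕ, 2 ≤ k → 2 ≤ l → ∀ p : Q, Val (2 * k) (2 * l) p →
  ((lC k l e1 e2 p).1 = 7 ↔
    (p.1 = k ∧ p.2.1 = k ∧ (p.2.2.2 ≠ p.2.2.1 + 1 ∨ p.2.2.2 = l ∨ p.2.2.2 = l + 1))) ∧
  ((lC k l e1 e2 p).1 = 8 ↔
    (p.2.2.1 = l ∧ p.2.2.2 = l ∧ (p.2.1 ≠ p.1 + 1 ∨ p.2.1 = k ∨ p.2.1 = k + 1)))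

/-- if both central units of the line I = [k,k] are in the strong set, then the three rows of the
block (2,2) contain at most one element -/
def S_mergeC : Prop := ∀ k l e1 e2 : ℕ, 2 ≤ k → 2 ≤ l → (min k l) % 2 = 0 →
  k + e2 = l + e1 → (e1 = 0 ∨ e2 = 0) → ∀ p q : Q,
  Val (2 * k) (2 * l) p → Val (2 * k) (2 * l) q →
  (lC k l e1 e2 p = (0, k - 1, l - 1, l) ∨ lC k l e1 e2 p = (0, k - 1, l - 1, l + 1) ∨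
    lC k l e1 e2 p = (0, k - 1, l, l + 1)) →
  (lC k l e1 e2 q = (0, k - 1, l - 1, l) ∨ lC k l e1 e2 q = (0, k - 1, l - 1, l + 1) ∨
    lC k l e1 e2 q = (0, k - 1, l, l + 1)) →
  ¬ Conf p (k, k, l - 1, l) → ¬ Conf p (k, k, l, l + 1) →
  ¬ Conf q (k, k, l - 1, l) → ¬ Conf q (k, k, l, l + 1) → p ≠ q → Conf p q

def S_repC : Prop := ∀ k l e1 e2 : ℕ, 2 ≤ k → 2 ≤ l → (min k l) % 2 = 0 →
  k + e2 = l + e1 → (e1 = 0 ∨ e2 = 0) →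
  lC k l e1 e2 (k - 1, k + 1, l - 1, l) = (0, k - 1, l - 1, l) ∧
  lC k l e1 e2 (k - 1, k, l - 1, l + 1) = (0, k - 1, l - 1, l + 1) ∧
  lC k l e1 e2 (k - 1, k - 1, l, l + 1) = (0, k - 1, l, l + 1)

/-! ### n = 2 k, m = 2 l, min k l odd, at least 3 -/

def S_cliqueD : Prop := ∀ k l e1 e2 : ℕ, 3 ≤ k → 3 ≤ l → (min k l) % 2 = 1 →
  k + e2 = l + e1 → (e1 = 0 ∨ e2 = 0) → ∀ p q : Q,
  Val (2 * k) (2 * l) p → Val (2 * k) (2 * l) q → lD k l e1 e2 p = lD k l e1 e2 q →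
  (lD k l e1 e2 p).1 ≠ 7 → (lD k l e1 e2 p).1 ≠ 8 → p ≠ q → Conf p q

def S_coverD : Prop := ∀ k l e1 e2 : ℕ, 3 ≤ k → 3 ≤ l → (min k l) % 2 = 1 →
  k + e2 = l + e1 → (e1 = 0 ∨ e2 = 0) → ∀ p : Q, Val (2 * k) (2 * l) p →
  (lD k l e1 e2 p).1 ≠ 7 → (lD k l e1 e2 p).1 ≠ 8 →
  ∃ q : Q, Val (2 * k) (2 * l) q ∧ rk q + 1 = 2 * k + 2 * l ∧ lD k l e1 e2 q = lD k l e1 e2 p

def S_centralD : Prop := ∀ k l e1 e2 : ℕ, 3 ≤ k → 3 ≤ l → ∀ p : Q, Val (2 * k) (2 * l) p →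
  ((lD k l e1 e2 p).1 = 7 ↔
    (p.1 = k ∧ p.2.1 = k ∧ (p.2.2.2 ≠ p.2.2.1 + 1 ∨ p.2.2.2 = l ∨ p.2.2.2 = l + 1))) ∧
  ((lD k l e1 e2 p).1 = 8 ↔
    (p.2.2.1 = l ∧ p.2.2.2 = l ∧ (p.2.1 ≠ p.1 + 1 ∨ p.2.1 = k ∨ p.2.1 = k + 1)))

/-- if both central units of the line J = [l,l] are in the strong set, then the three columns of
the block (2,2) contain at most one element -/
def S_mergeD : Prop := ∀ k l e1 e2 : ℕ, 3 ≤ k → 3 ≤ l → (min k l) % 2 = 1 →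
  k + e2 = l + e1 → (e1 = 0 ∨ e2 = 0) → ∀ p q : Q,
  Val (2 * k) (2 * l) p → Val (2 * k) (2 * l) q →
  (lD k l e1 e2 p = (1, k - 1, k, l - 1) ∨ lD k l e1 e2 p = (1, k - 1, k + 1, l - 1) ∨
    lD k l e1 e2 p = (1, k, k + 1, l - 1)) →
  (lD k l e1 e2 q = (1, k - 1, k, l - 1) ∨ lD k l e1 e2 q = (1, k - 1, k + 1, l - 1) ∨
    lD k l e1 e2 q = (1, k, k + 1, l - 1)) →
  ¬ Conf p (k - 1, k, l, l) → ¬ Conf p (k, k + 1, l, l) →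
  ¬ Conf q (k - 1, k, l, l) → ¬ Conf q (k, k + 1, l, l) → p ≠ q → Conf p q

def S_repD : Prop := ∀ k l e1 e2 : ℕ, 3 ≤ k → 3 ≤ l → (min k l) % 2 = 1 →
  k + e2 = l + e1 → (e1 = 0 ∨ e2 = 0) →
  lD k l e1 e2 (k - 1, k, l - 1, l + 1) = (1, k - 1, k, l - 1) ∧
  lD k l e1 e2 (k - 1, k + 1, l - 1, l) = (1, k - 1, k + 1, l - 1) ∧
  lD k l e1 e2 (k, k + 1, l - 1, l - 1) = (1, k, k + 1, l - 1)

/-! ### general bounds -/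

/-- intervals `[t.1, t.2]` in `[0,m]`: two different ones that are comparable have no common edge.
The long ones use two edges each, the units one. -/
def S_charge : Prop := ∀ (m : ℕ) (T : Finset (ℕ × ℕ)), (∀ t ∈ T, t.1 < t.2 ∧ t.2 ≤ m) →
  (∀ t ∈ T, ∀ u ∈ T, t ≠ u → t.1 ≤ u.1 → t.2 ≤ u.2 → t.2 ≤ u.1) →
  2 * (T.filter (fun t => t.2 ≠ t.1 + 1)).card + (T.filter (fun t => t.2 = t.1 + 1)).card ≤ m

open Classical in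
/-- all quadruples of rank R -/
noncomputable def Lset (n m R : ℕ) : Finset Q :=
  ((Finset.range (n + 1)) ×ˢ (Finset.range (n + 1)) ×ˢ (Finset.range (m + 1)) ×ˢ
    (Finset.range (m + 1))).filter (fun p => Val n m p ∧ rk p = R)

/-- the value of the complexity -/
def F (n m : ℕ) : ℕ :=
  if (n + m) % 2 = 1 then (n - m - 1) / 2 * (m + 2).choose 2 + (m + 3).choose 3
  else if m = 2 then 6 * (n / 2) + 1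
  else (n - m) / 2 * (m + 2).choose 2 + (m + 3).choose 3 - (m + 2) ^ 2 / 4

def S_countOdd : Prop := ∀ n m : ℕ, 1 ≤ m → m ≤ n → (n + m) % 2 = 1 →
  (Lset n m (n + m)).card = (n - m - 1) / 2 * (m + 2).choose 2 + (m + 3).choose 3

def S_countEven : Prop := ∀ n m : ℕ, 1 ≤ m → m ≤ n → (n + m) % 2 = 0 →
  (Lset n m (n + m - 1)).card =
    (n - m) / 2 * (m + 2).choose 2 + (m + 3).choose 3 - (m + 2) ^ 2 / 4

/-- upper bound for m = 2, n even -/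
def S_two : Prop := ∀ k : ℕ, 1 ≤ k → ∀ S : Finset Q, (∀ p ∈ S, Val (2 * k) 2 p) → Strong S →
  S.card ≤ 6 * k + 1

/-- lower bound for m = 2, n even -/
def S_twoLow : Prop := ∀ k : ℕ, 1 ≤ k → ∃ S : Finset Q, (∀ p ∈ S, Val (2 * k) 2 p) ∧ Strong S ∧
  S.card = 6 * k + 1

end Pool.Agent.Q11.TF
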