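import Pool.Agent.Q11.TF.Asm1
import Pool.Agent.Q11.TF.Charge

/-!
# The upper bound for m = 2
-/

namespace Pool.Agent.Q11.TF

open Finset Classical

theorem two : S_two := by
  intro k hk S hval hS
  have hv : ∀ p ∈ S, p.1 ≤ p.2.1 ∧ p.2.1 ≤ 2 * k ∧ p.2.2.1 ≤ p.2.2.2 ∧ p.2.2.2 ≤ 2 ∧
      (p.1 < p.2.1 ∨ p.2.2.1 < p.2.2.2) := fun p hp => hval p hp
  -- the four parts
  set S1 := S.filter (fun p => p.2.2.1 < p.2.2.2 ∧ ¬ (p.1 = k ∧ p.2.1 = k)) with hS1
  set S2 := S.filter (fun p => p.2.2.1 = p.2.2.2 ∧ (p.2.2.1 ≠ 1 ∨ p.2.1 = p.1 + 1)) with hS2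
  set S3 := S.filter (fun p => p.2.2.1 = 1 ∧ p.2.2.2 = 1 ∧ p.2.1 ≠ p.1 + 1) with hS3
  set S4 := S.filter (fun p => p.1 = k ∧ p.2.1 = k ∧ p.2.2.1 < p.2.2.2) with hS4
  have hcover : S ⊆ S1 ∪ S2 ∪ S3 ∪ S4 := by
    rintro ⟨a, b, x, y⟩ hp
    have := hv _ hp
    simp only at this
    simp only [hS1, hS2, hS3, hS4, Finset.mem_union, Finset.mem_filter]
    by_cases c1 : x < y
    · by_cases c2 : a = k ∧ b = k
      · exact Or.inr ⟨hp, c2.1, c2.2, c1⟩
      · exact Or.inl (Or.inl (Or.inl ⟨hp, c1, c2⟩))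
    · by_cases c2 : x ≠ 1 ∨ b = a + 1
      · exact Or.inl (Or.inl (Or.inr ⟨hp, by omega, c2⟩))
      · exact Or.inl (Or.inr ⟨hp, by omega, by omega, by omega⟩)
  have hcard : S.card ≤ S1.card + S2.card + S3.card + S4.card := by
    refine le_trans (Finset.card_le_card hcover) ?_
    have h1 := Finset.card_union_le (S1 ∪ S2 ∪ S3) S4
    have h2 := Finset.card_union_le (S1 ∪ S2) S3
    have h3 := Finset.card_union_le S1 S2
    omega
  -- D0 classes
  have h2 : S2.card ≤ 2 * k := by
    have : S2.card ≤ (Finset.Icc 1 (2 * k)).card := by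
      refine Finset.card_le_card_of_injOn
        (fun p => if p.2.2.1 = 2 then p.1 + 1 else p.2.1) ?_ ?_
      · rintro ⟨a, b, x, y⟩ hp
        have hp' := Finset.mem_coe.1 hp
        simp only [hS2, Finset.mem_filter] at hp'
        have := hv _ hp'.1
        simp only at this
        rw [Finset.mem_coe, Finset.mem_Icc]
        simp only
        split_ifs <;> omega
      · rintro ⟨a, b, x, y⟩ hp ⟨a', b', x', y'⟩ hq h
        have hp' := Finset.mem_coe.1 hp
        have hq' := Finset.mem_coe.1 hq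
        simp only [hS2, Finset.mem_filter] at hp' hq'
        by_contra hne
        have hnc := strong_not_conf hS hp'.1 hq'.1 hne
        have t1 := hv _ hp'.1
        have t2 := hv _ hq'.1
        simp only at t1 t2 h
        apply hnc
        have hne' : ¬ (a = a' ∧ b = b' ∧ x = x' ∧ y = y') := by
          rintro ⟨rfl, rfl, rfl, rfl⟩; exact hne rfl
        simp only [Conf, Le, Ov]
        have u1 := hp'.2
        have u2 := hq'.2
        clear hnc hne hp' hq' hp hq hcard hcover hv hval hS
        have hx : x = 0 ∨ x = 1 ∨ x = 2 := by omega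
        have hx' : x' = 0 ∨ x' = 1 ∨ x' = 2 := by omega
        rcases hx with rfl | rfl | rfl <;> rcases hx' with rfl | rfl | rfl <;>
          simp at h <;> omega
    simpa using this
  -- long intervals over J = [1,1]
  have h3 : S3.card ≤ k := by
    set T := (S.filter (fun p => p.2.2.1 = 1 ∧ p.2.2.2 = 1)).image
      (fun p : Q => (p.1, p.2.1)) with hT
    have hc := charge (2 * k) T ?_ ?_
    · have hle : S3.card ≤ (T.filter (fun t => t.2 ≠ t.1 + 1)).card := by
        refine Finset.card_le_card_of_injOn (fun p => (p.1, p.2.1)) ?_ ?_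
        · rintro ⟨a, b, x, y⟩ hp
          have hp' := Finset.mem_coe.1 hp
          simp only [hS3, Finset.mem_filter] at hp'
          rw [Finset.mem_coe, Finset.mem_filter]
          refine ⟨?_, hp'.2.2.2⟩
          rw [hT, Finset.mem_image]
          exact ⟨(a, b, x, y), Finset.mem_filter.2 ⟨hp'.1, hp'.2.1, hp'.2.2.1⟩, rfl⟩
        · rintro ⟨a, b, x, y⟩ hp ⟨a', b', x', y'⟩ hq h
          have hp' := Finset.mem_coe.1 hp
          have hq' := Finset.mem_coe.1 hq
          simp only [hS3, Finset.mem_filter] at hp' hq'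
          simp only [Prod.mk.injEq] at h ⊢
          omega
      omega
    · rintro ⟨a, b⟩ ht
      rw [hT, Finset.mem_image] at ht
      obtain ⟨⟨a', b', x', y'⟩, h1, h2⟩ := ht
      rw [Finset.mem_filter] at h1
      simp only [Prod.mk.injEq] at h2
      have := hv _ h1.1
      simp only at this h1 ⊢
      omega
    · rintro ⟨a, b⟩ ht ⟨c, d⟩ hu hne h1 h2
      rw [hT, Finset.mem_image] at ht hu
      obtain ⟨⟨a', b', x', y'⟩, h3, h4⟩ := ht
      obtain ⟨⟨c', d', z', w'⟩, h5, h6⟩ := hu
      rw [Finset.mem_filter] at h3 h5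
      simp only [Prod.mk.injEq] at h3 h4 h5 h6
      obtain ⟨rfl, rfl⟩ := h4
      obtain ⟨rfl, rfl⟩ := h6
      obtain ⟨h3, rfl, rfl⟩ := h3
      obtain ⟨h5, rfl, rfl⟩ := h5
      have hne' : ((a', b', 1, 1) : Q) ≠ (c', d', 1, 1) := by
        intro h
        simp only [Prod.mk.injEq] at h
        apply hne
        rw [h.1, h.2.1]
      exact (hS _ h3 _ h5 hne' ⟨h1, h2, le_refl _, le_refl _⟩).1
  -- the rows
  have c3 : ({(0, 1), (0, 2), (1, 2)} : Finset (ℕ × ℕ)).card = 3 := by
    rw [Finset.card_eq_three]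
    exact ⟨(0, 1), (0, 2), (1, 2), by simp, by simp, by simp, rfl⟩
  have hinj : Set.InjOn (fun p : Q => (min p.1 (2 * k - p.2.1), p.2.2)) (S1 : Set Q) := by
    rintro ⟨a, b, x, y⟩ hp ⟨a', b', x', y'⟩ hq h
    have hp' := Finset.mem_coe.1 hp
    have hq' := Finset.mem_coe.1 hq
    simp only [hS1, Finset.mem_filter] at hp' hq'
    by_contra hne
    have hnc := strong_not_conf hS hp'.1 hq'.1 hne
    have t1 := hv _ hp'.1
    have t2 := hv _ hq'.1
    simp only [Prod.mk.injEq] at t1 t2 h
    apply hnc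
    have hne' : ¬ (a = a' ∧ b = b' ∧ x = x' ∧ y = y') := by
      rintro ⟨rfl, rfl, rfl, rfl⟩; exact hne rfl
    simp only [Conf, Le, Ov]
    have u1 := hp'.2
    have u2 := hq'.2
    clear hnc hne hp' hq' hp hq hcard hcover hv hval hS
    omega
  have hmap : ∀ p ∈ S1, (min p.1 (2 * k - p.2.1), p.2.2) ∈
      (Finset.range k) ×ˢ ({(0, 1), (0, 2), (1, 2)} : Finset (ℕ × ℕ)) := by
    rintro ⟨a, b, x, y⟩ hp
    simp only [hS1, Finset.mem_filter] at hp
    have t1 := hv _ hp.1
    simp only at t1
    simp only [Finset.mem_product, Finset.mem_range, Finset.mem_insert, Finset.mem_singleton,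
      Prod.mk.injEq]
    omega
  have h1 : S1.card ≤ 3 * k := by
    have : S1.card ≤ ((Finset.range k) ×ˢ ({(0, 1), (0, 2), (1, 2)} : Finset (ℕ × ℕ))).card := by
      refine Finset.card_le_card_of_injOn (fun p : Q => (min p.1 (2 * k - p.2.1), p.2.2)) ?_ hinj
      intro p hp
      exact Finset.mem_coe.2 (hmap p (Finset.mem_coe.1 hp))
    rw [Finset.card_product, Finset.card_range, c3] at this
    omega
  by_cases hboth : (k, k, 0, 1) ∈ S ∧ (k, k, 1, 2) ∈ S
  · -- rows of the block k-1 contain at most one element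
    have h4 : S4.card ≤ 3 := by
      have : S4 ⊆ {(k, k, 0, 1), (k, k, 0, 2), (k, k, 1, 2)} := by
        rintro ⟨a, b, x, y⟩ hp
        simp only [hS4, Finset.mem_filter] at hp
        have t1 := hv _ hp.1
        simp only at t1
        simp only [Finset.mem_insert, Finset.mem_singleton, Prod.mk.injEq]
        omega
      refine le_trans (Finset.card_le_card this) ?_
      exact Finset.card_le_three
    have h4' : S4.card ≤ 2 := by
      have : S4 ⊆ {(k, k, 0, 1), (k, k, 1, 2)} := by
        rintro ⟨a, b, x, y⟩ hp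
        simp only [hS4, Finset.mem_filter] at hp
        have t1 := hv _ hp.1
        simp only at t1
        simp only [Finset.mem_insert, Finset.mem_singleton, Prod.mk.injEq]
        by_contra hcon
        have hne : ((a, b, x, y) : Q) ≠ (k, k, 0, 1) := by
          intro h
          simp only [Prod.mk.injEq] at h
          omega
        have hnc := strong_not_conf hS hp.1 hboth.1 hne
        simp only [Conf, Le, Ov] at hnc
        omega
      refine le_trans (Finset.card_le_card this) ?_
      exact Finset.card_le_two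
    set S11 := S1.filter (fun p => min p.1 (2 * k - p.2.1) + 1 < k) with hS11
    set S12 := S1.filter (fun p => ¬ (min p.1 (2 * k - p.2.1) + 1 < k)) with hS12
    have hsum : S11.card + S12.card = S1.card :=
      Finset.card_filter_add_card_filter_not (s := S1) _
    have h11 : S11.card ≤ 3 * (k - 1) := by
      have : S11.card ≤
          ((Finset.range (k - 1)) ×ˢ ({(0, 1), (0, 2), (1, 2)} : Finset (ℕ × ℕ))).card := by
        refine Finset.card_le_card_of_injOn (fun p : Q => (min p.1 (2 * k - p.2.1), p.2.2))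
          ?_ (hinj.mono ?_)
        · intro p hp
          have hp' := Finset.mem_filter.1 (Finset.mem_coe.1 hp)
          have := hmap p hp'.1
          rw [Finset.mem_product] at this
          rw [Finset.mem_coe, Finset.mem_product]
          refine ⟨?_, this.2⟩
          rw [Finset.mem_range]
          have := hp'.2
          simp only at this ⊢
          omega
        · intro p hp
          exact Finset.mem_coe.2 (Finset.mem_of_mem_filter p (Finset.mem_coe.1 hp))
      rw [Finset.card_product, Finset.card_range, c3] at this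
      omega
    have key : ∀ p ∈ S12, p.1 + 1 = k ∧ p.2.1 = k + 1 := by
      rintro ⟨a, b, x, y⟩ hp
      rw [hS12, Finset.mem_filter, hS1, Finset.mem_filter] at hp
      obtain ⟨⟨hp1, hp2, hp3⟩, hp4⟩ := hp
      have t1 := hv _ hp1
      simp only at t1 hp2 hp3 hp4 ⊢
      have hne : ((a, b, x, y) : Q) ≠ (k, k, 0, 1) := by
        intro h
        simp only [Prod.mk.injEq] at h
        exact hp3 ⟨h.1, h.2.1⟩
      have hne' : ((a, b, x, y) : Q) ≠ (k, k, 1, 2) := by
        intro h
        simp only [Prod.mk.injEq] at h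
        exact hp3 ⟨h.1, h.2.1⟩
      have hn1 := strong_not_conf hS hp1 hboth.1 hne
      have hn2 := strong_not_conf hS hp1 hboth.2 hne'
      simp only [Conf, Le, Ov] at hn1 hn2
      clear hne hne' hcard hcover hv hval hS hp1 hinj hmap
      have hxy : (x = 0 ∧ y = 1) ∨ (x = 0 ∧ y = 2) ∨ (x = 1 ∧ y = 2) := by omega
      rcases hxy with ⟨rfl, rfl⟩ | ⟨rfl, rfl⟩ | ⟨rfl, rfl⟩ <;> omega
    have h12 : S12.card ≤ 1 := by
      rw [Finset.card_le_one]
      intro p hp q hq
      by_contra hne
      have k1 := key p hp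
      have k2 := key q hq
      rw [hS12, Finset.mem_filter, hS1, Finset.mem_filter] at hp hq
      have hnc := strong_not_conf hS hp.1.1 hq.1.1 hne
      have t1 := hv _ hp.1.1
      have t2 := hv _ hq.1.1
      obtain ⟨a, b, x, y⟩ := p
      obtain ⟨a', b', x', y'⟩ := q
      have hne' : ¬ (a = a' ∧ b = b' ∧ x = x' ∧ y = y') := by
        rintro ⟨rfl, rfl, rfl, rfl⟩; exact hne rfl
      have u1 := hp.1.2.1
      have u2 := hq.1.2.1
      apply hnc
      simp only [Conf, Le, Ov]
      simp only at t1 t2 k1 k2 u1 u2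
      clear hnc hne hp hq hcard hcover hv hval hS hinj hmap key
      omega
    omega
  · have h4 : S4.card ≤ 1 := by
      rw [Finset.card_le_one]
      intro p hp q hq
      by_contra hne
      simp only [hS4, Finset.mem_filter] at hp hq
      have hnc := strong_not_conf hS hp.1 hq.1 hne
      have t1 := hv _ hp.1
      have t2 := hv _ hq.1
      obtain ⟨a, b, x, y⟩ := p
      obtain ⟨a', b', x', y'⟩ := q
      have hne' : ¬ (a = a' ∧ b = b' ∧ x = x' ∧ y = y') := by
        rintro ⟨rfl, rfl, rfl, rfl⟩; exact hne rfl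
      simp only at t1 t2 hp hq
      obtain ⟨hp1, rfl, rfl, hp2⟩ := hp
      obtain ⟨hq1, rfl, rfl, hq2⟩ := hq
      simp only [Conf, Le, Ov] at hnc
      have hc : (x = 0 ∧ y = 1 ∧ x' = 1 ∧ y' = 2) ∨ (x = 1 ∧ y = 2 ∧ x' = 0 ∧ y' = 1) := by
        clear hcard hcover hv hval hS hinj hmap hboth hp1 hq1
        omega
      rcases hc with ⟨rfl, rfl, rfl, rfl⟩ | ⟨rfl, rfl, rfl, rfl⟩
      · exact hboth ⟨hp1, hq1⟩
      · exact hboth ⟨hq1, hp1⟩
    omega

end Pool.Agent.Q11.TF
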