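import Pool.Agent.Q11.TF.Stm

/-!
# The lower bound for m = 2
-/

namespace Pool.Agent.Q11.TF

set_option maxHeartbeats 4000000

def hL (k i : ℕ) : Q :=
  if i < k then (i, i + 1, 2, 2)
  else if i < 2 * k then (i, i + 1, 0, 0)
  else if i < 3 * k then (i - 2 * k, 4 * k - i, 1, 1)
  else if i ≤ 4 * k then (i - 3 * k, 5 * k - i, 0, 2)
  else if i < 5 * k then (i - 4 * k - 1, 6 * k - i, 1, 2)
  else if i = 5 * k then (k - 1, k - 1, 1, 2)
  else if i < 6 * k then (i - 5 * k, 7 * k + 1 - i, 0, 1)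
  else (k + 1, k + 1, 0, 1)

theorem hL_spec (k i : ℕ) (hk : 1 ≤ k) (hi : i ≤ 6 * k) :
    ∃ a b x y, hL k i = (a, b, x, y) ∧
    ((x = 2 ∧ y = 2 ∧ b = a + 1 ∧ b ≤ k ∧ a = i) ∨
     (x = 0 ∧ y = 0 ∧ b = a + 1 ∧ k + 1 ≤ b ∧ b ≤ 2 * k ∧ a = i) ∨
     (x = 1 ∧ y = 1 ∧ a + b = 2 * k ∧ a + 1 ≤ k ∧ a + 2 * k = i) ∨
     (x = 0 ∧ y = 2 ∧ a + b = 2 * k ∧ a ≤ k ∧ a + 3 * k = i) ∨
     (x = 1 ∧ y = 2 ∧ a + b + 1 = 2 * k ∧ a + 2 ≤ k ∧ a + 4 * k + 1 = i) ∨
     (x = 1 ∧ y = 2 ∧ a + 1 = k ∧ b + 1 = k ∧ i = 5 * k) ∨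
     (x = 0 ∧ y = 1 ∧ a + b = 2 * k + 1 ∧ 1 ≤ a ∧ a + 1 ≤ k ∧ a + 5 * k = i) ∨
     (x = 0 ∧ y = 1 ∧ a = k + 1 ∧ b = k + 1 ∧ i = 6 * k)) := by
  unfold hL
  split_ifs
  · exact ⟨_, _, _, _, rfl, by left; omega⟩
  · exact ⟨_, _, _, _, rfl, by right; left; omega⟩
  · exact ⟨_, _, _, _, rfl, by right; right; left; omega⟩
  · exact ⟨_, _, _, _, rfl, by right; right; right; left; omega⟩
  · exact ⟨_, _, _, _, rfl, by right; right; right; right; left; omega⟩
  · exact ⟨_, _, _, _, rfl, by right; right; right; right; right; left; omega⟩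
  · exact ⟨_, _, _, _, rfl, by right; right; right; right; right; right; left; omega⟩
  · exact ⟨_, _, _, _, rfl, by right; right; right; right; right; right; right; omega⟩

theorem twoLow : S_twoLow := by
  intro k hk
  refine ⟨(Finset.range (6 * k + 1)).image (hL k), ?_, ?_, ?_⟩
  · intro p hp
    rw [Finset.mem_image] at hp
    obtain ⟨i, hi, rfl⟩ := hp
    rw [Finset.mem_range] at hi
    obtain ⟨a, b, x, y, h1, h2⟩ := hL_spec k i hk (by omega)
    rw [h1]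
    simp only [Val]
    rcases h2 with h | h | h | h | h | h | h | h <;> omega
  · intro p hp q hq hne hle
    rw [Finset.mem_image] at hp hq
    obtain ⟨i, hi, rfl⟩ := hp
    obtain ⟨j, hj, rfl⟩ := hq
    rw [Finset.mem_range] at hi hj
    obtain ⟨a, b, x, y, h1, h2⟩ := hL_spec k i hk (by omega)
    obtain ⟨a', b', x', y', h3, h4⟩ := hL_spec k j hk (by omega)
    rw [h1, h3] at hne hle ⊢
    simp only [Le] at hle ⊢
    have hne' : ¬ (a = a' ∧ b = b' ∧ x = x' ∧ y = y') := by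
      rintro ⟨rfl, rfl, rfl, rfl⟩; exact hne rfl
    clear hne h1 h3 hi hj
    rcases h2 with h | h | h | h | h | h | h | h <;>
    rcases h4 with h' | h' | h' | h' | h' | h' | h' | h' <;> omega
  · rw [Finset.card_image_of_injOn, Finset.card_range]
    intro i hi j hj hij
    have hi' := Finset.mem_range.1 (Finset.mem_coe.1 hi)
    have hj' := Finset.mem_range.1 (Finset.mem_coe.1 hj)
    obtain ⟨a, b, x, y, h1, h2⟩ := hL_spec k i hk (by omega)
    obtain ⟨a', b', x', y', h3, h4⟩ := hL_spec k j hk (by omega)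
    rw [h1, h3] at hij
    simp only [Prod.mk.injEq] at hij
    clear hi hj h1 h3
    rcases h2 with h | h | h | h | h | h | h | h <;>
    rcases h4 with h' | h' | h' | h' | h' | h' | h' | h' <;> omega

end Pool.Agent.Q11.TF
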