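import Pool.Agent.Q11.TF.GoodB

/-!
# Members of rank n + m - 1 in the classes of labB
-/

namespace Pool.Agent.Q11.TF

set_option maxHeartbeats 4000000
set_option linter.unusedVariables false

theorem w0a (n m e1 e2 u v z : ℕ) (he : n + 2 * e2 = m + 2 * e1) (h0 : e1 = 0 ∨ e2 = 0)
    (hn : 2 * u < n) (h : GB0 n m e1 e2 u v z) (hc : m ≤ v + z + 1) :
    Val n m (u, (n + m - 1 - u - v - z), v, z) ∧
    u + (n + m - 1 - u - v - z) + v + z + 1 = n + m ∧
    labB n m e1 e2 u (n + m - 1 - u - v - z) v z = (0, u, v, z) := by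
  simp only [GB0] at h
  obtain ⟨h1, h2, h3, h4, h5, h6⟩ := h
  have hB : n + m - 1 - u - v - z ≤ n - u := by clear h6 h4 h5 he h0; omega
  have hB' : u ≤ n + m - 1 - u - v - z := by clear h6; omega
  have hj : min u (n - (n + m - 1 - u - v - z)) = u := by clear h6 h4 h5 he h0; omega
  refine ⟨by clear h6; simp only [Val]; omega, by clear h6; omega, ?_⟩
  rw [labB_eq, hj]
  obtain ⟨B, hB⟩ : ∃ B, B = n + m - 1 - u - v - z := ⟨_, rfl⟩
  rw [← hB]
  clear hB hB' hj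
  obtain ⟨i, hi⟩ : ∃ i, i = min v (m - z) := ⟨_, rfl⟩
  rw [← hi, B0, if_neg (by omega), if_pos (by omega)]

theorem w0b (n m e1 e2 u v z : ℕ) (he : n + 2 * e2 = m + 2 * e1) (h0 : e1 = 0 ∨ e2 = 0)
    (hn : 2 * u < n) (h : GB0 n m e1 e2 u v z) (hc : v + z + 1 < m) :
    Val n m ((m - 1 - v - z + u), (n - u), v, z) ∧
    (m - 1 - v - z + u) + (n - u) + v + z + 1 = n + m ∧
    labB n m e1 e2 (m - 1 - v - z + u) (n - u) v z = (0, u, v, z) := by
  simp only [GB0] at h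
  obtain ⟨h1, h2, h3, h4, h5, h6⟩ := h
  have hA' : m - 1 - v - z + u ≤ n - u := by clear h6; omega
  have hj : min (m - 1 - v - z + u) (n - (n - u)) = u := by clear h6 h4 h5 he h0; omega
  refine ⟨by clear h6; simp only [Val]; omega, by clear h6; omega, ?_⟩
  rw [labB_eq, hj]
  obtain ⟨A, hA⟩ : ∃ A, A = m - 1 - v - z + u := ⟨_, rfl⟩
  rw [← hA]
  clear hA hA' hj
  obtain ⟨i, hi⟩ : ∃ i, i = min v (m - z) := ⟨_, rfl⟩
  rw [← hi, B0, if_neg (by omega), if_pos (by omega)]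

theorem w1h (n m e1 e2 u v z : ℕ) (he : n + 2 * e2 = m + 2 * e1) (h0 : e1 = 0 ∨ e2 = 0)
    (hm : 2 * z < m) (h : GB1 n m e1 e2 u v z) (hc : v = u + 1) (hd : u + e2 + 1 < z + e1) :
    Val n m (u, (n + 2 * z - m - 3 - u), (m - z + 1), (m - z + 1)) ∧
    u + (n + 2 * z - m - 3 - u) + (m - z + 1) + (m - z + 1) + 1 = n + m ∧
    labB n m e1 e2 u (n + 2 * z - m - 3 - u) (m - z + 1) (m - z + 1) = (1, u, v, z) := by
  simp only [GB1] at h
  obtain ⟨h1, h2, h3, h4⟩ := h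
  have hz : (z - e2) % 2 = 1 := by omega
  clear h4
  have hz1 : 1 ≤ z := by omega
  have e1' : u + 1 ≤ n + 2 * z - m - 3 - u := by clear hz; omega
  refine ⟨by clear hz; simp only [Val]; omega, by clear hz; omega, ?_⟩
  obtain ⟨B, hB⟩ : ∃ B, B = n + 2 * z - m - 3 - u := ⟨_, rfl⟩
  rw [← hB] at e1' ⊢
  clear hB
  have hi : min (m - z + 1) (m - (m - z + 1)) = z - 1 := by clear hz; omega
  rw [labB_eq, hi]
  obtain ⟨j, hj⟩ : ∃ j, j = min u (n - B) := ⟨_, rfl⟩
  rw [← hj]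
  have hj' : j ≤ u := by clear hz; omega
  clear hj hi
  rw [B0, if_neg (by omega), if_neg (by clear hz; omega), if_neg (by clear hz; omega),
    if_neg (by clear hz; omega), if_pos (by omega), B3u, if_neg (by clear hz; omega),
    if_neg (by clear hz; omega), hc, show z - 1 + 1 = z by clear hz; omega]

theorem w1i (n m e1 e2 u v z : ℕ) (he : n + 2 * e2 = m + 2 * e1) (h0 : e1 = 0 ∨ e2 = 0)
    (hm : 2 * z < m) (h : GB1 n m e1 e2 u v z) (hc : v = u + 1) (hd : n + e2 + 1 < z + e1 + v) :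
    Val n m ((n + m + 1 - v - 2 * z), v, (z - 1), (z - 1)) ∧
    (n + m + 1 - v - 2 * z) + v + (z - 1) + (z - 1) + 1 = n + m ∧
    labB n m e1 e2 (n + m + 1 - v - 2 * z) v (z - 1) (z - 1) = (1, u, v, z) := by
  simp only [GB1] at h
  obtain ⟨h1, h2, h3, h4⟩ := h
  have hz : (z - e2) % 2 = 1 := by omega
  clear h4
  have hz1 : 1 ≤ z := by omega
  have e1' : n + m + 1 - v - 2 * z + 1 ≤ v := by clear hz; omega
  refine ⟨by clear hz; simp only [Val]; omega, by clear hz; omega, ?_⟩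
  obtain ⟨A, hA⟩ : ∃ A, A = n + m + 1 - v - 2 * z := ⟨_, rfl⟩
  rw [← hA] at e1' ⊢
  clear hA
  have hi : min (z - 1) (m - (z - 1)) = z - 1 := by clear hz; omega
  rw [labB_eq, hi]
  obtain ⟨j, hj⟩ : ∃ j, j = min A (n - v) := ⟨_, rfl⟩
  rw [← hj]
  have hj' : j + v ≤ n := by clear hz; omega
  clear hj hi
  rw [B0, if_neg (by omega), if_neg (by clear hz; omega), if_neg (by clear hz; omega),
    if_neg (by clear hz; omega), if_pos (by omega), B3u, if_pos (by clear hz; omega),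
    if_neg (by clear hz; omega), hc, show z - 1 + 1 = z by clear hz; omega,
    show u + 1 - 1 = u by omega]

end Pool.Agent.Q11.TF
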